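import Mathlib

/-!
# Finite-dimensional algebras with a positive involution: comparison of idempotents
-/

namespace Pool.Agent.Y111.OR

variable {R : Type*} [Ring R] [Algebra ℚ R]

/-- The subspace `e R t`. -/
def corner (e t : R) : Submodule ℚ R :=
  LinearMap.range (LinearMap.mulLeft ℚ e ∘ₗ LinearMap.mulRight ℚ t)

lemma mem_corner {e t : R} (he : e * e = e) (ht : t * t = t) {x : R} :
    x ∈ corner e t ↔ e * x = x ∧ x * t = x := by
  constructor
  · rintro ⟨y, rfl⟩
    simp only [LinearMap.comp_apply, LinearMap.mulLeft_apply, LinearMap.mulRight_apply]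
    constructor
    · rw [← mul_assoc, he]
    · rw [mul_assoc, mul_assoc, ht]
  · rintro ⟨h1, h2⟩
    exact ⟨x, by simp only [LinearMap.comp_apply, LinearMap.mulLeft_apply,
      LinearMap.mulRight_apply, h2, h1]⟩

/-- The dimension of `e R t`: the multiplicity with which the object `t` occurs in the object
`e`. -/
noncomputable def nn (t e : R) : ℕ := Module.finrank ℚ (corner e t)

/-- The idempotents `e` and `f` are equivalent. -/
def Eqv (e f : R) : Prop := ∃ a b : R, f * a = a ∧ a * e = a ∧ e * b = b ∧ b * f = b ∧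
  b * a = e ∧ a * b = f

lemma Eqv.symm {e f : R} (h : Eqv e f) : Eqv f e := by
  obtain ⟨a, b, h1, h2, h3, h4, h5, h6⟩ := h
  exact ⟨b, a, h3, h4, h1, h2, h6, h5⟩

variable [FiniteDimensional ℚ R]

lemma nn_le {e f t : R} (he : e * e = e) (hf : f * f = f) (ht : t * t = t) (u : R)
    (hu : f * u = u) (hinj : ∀ x, e * x = x → x * t = x → u * x = 0 → x = 0) :
    nn t e ≤ nn t f := by
  let φ : corner e t →ₗ[ℚ] corner f t := ((LinearMap.mulLeft ℚ u).comp
    (corner e t).subtype).codRestrict (corner f t) (fun x => by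
      obtain ⟨h1, h2⟩ := (mem_corner he ht).1 x.2
      rw [mem_corner hf ht]
      simp only [LinearMap.comp_apply, Submodule.subtype_apply, LinearMap.mulLeft_apply]
      exact ⟨by rw [← mul_assoc, hu], by rw [mul_assoc, h2]⟩)
  refine LinearMap.finrank_le_finrank_of_injective (f := φ) ?_
  rw [← LinearMap.ker_eq_bot, LinearMap.ker_eq_bot']
  intro x hx
  obtain ⟨h1, h2⟩ := (mem_corner he ht).1 x.2
  have h3 : u * (x : R) = 0 := congrArg Subtype.val hx
  exact Subtype.ext (hinj x h1 h2 h3)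

lemma nn_eq {e f t : R} (he : e * e = e) (hf : f * f = f) (ht : t * t = t) (h : Eqv e f) :
    nn t e = nn t f := by
  obtain ⟨a, b, h1, h2, h3, h4, h5, h6⟩ := h
  apply le_antisymm
  · refine nn_le he hf ht a h1 fun x hx _ h0 => ?_
    rw [← hx, ← h5, mul_assoc, h0, mul_zero]
  · refine nn_le hf he ht b h3 fun x hx _ h0 => ?_
    rw [← hx, ← h6, mul_assoc, h0, mul_zero]

lemma nn_add {e f t : R} (he : e * e = e) (hf : f * f = f) (ht : t * t = t) (hef : e * f = 0)
    (hfe : f * e = 0) : nn t (e + f) = nn t e + nn t f := by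
  have hs : (e + f) * (e + f) = e + f := by
    rw [mul_add, add_mul, add_mul, he, hf, hef, hfe, add_zero, zero_add]
  have h1 : corner (e + f) t = corner e t ⊔ corner f t := by
    apply le_antisymm
    · intro x hx
      obtain ⟨h1, h2⟩ := (mem_corner hs ht).1 hx
      rw [← h1, add_mul]
      refine Submodule.add_mem_sup ?_ ?_
      · rw [mem_corner he ht]; exact ⟨by rw [← mul_assoc, he], by rw [mul_assoc, h2]⟩
      · rw [mem_corner hf ht]; exact ⟨by rw [← mul_assoc, hf], by rw [mul_assoc, h2]⟩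
    · refine sup_le ?_ ?_
      · intro x hx
        obtain ⟨h1, h2⟩ := (mem_corner he ht).1 hx
        rw [mem_corner hs ht]
        refine ⟨?_, h2⟩
        rw [← h1, ← mul_assoc, add_mul, he, hfe, add_zero]
      · intro x hx
        obtain ⟨h1, h2⟩ := (mem_corner hf ht).1 hx
        rw [mem_corner hs ht]
        refine ⟨?_, h2⟩
        rw [← h1, ← mul_assoc, add_mul, hf, hef, zero_add]
  have h2 : corner e t ⊓ corner f t = ⊥ := by
    rw [eq_bot_iff]
    rintro x ⟨hx, hx'⟩
    obtain ⟨h1, _⟩ := (mem_corner he ht).1 hx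
    obtain ⟨h2, _⟩ := (mem_corner hf ht).1 hx'
    rw [Submodule.mem_bot, ← h1, ← h2, ← mul_assoc, hef, zero_mul]
  have h3 := Submodule.finrank_sup_add_finrank_inf_eq (corner e t) (corner f t)
  rw [h2, finrank_bot, add_zero, ← h1] at h3
  exact h3

lemma nn_sum {ι : Type*} (s : Finset ι) {e : ι → R} {t : R} (he : ∀ i ∈ s, e i * e i = e i)
    (hort : ∀ i ∈ s, ∀ j ∈ s, i ≠ j → e i * e j = 0) (ht : t * t = t) :
    nn t (∑ i ∈ s, e i) = ∑ i ∈ s, nn t (e i) := by
  classical
  induction s using Finset.induction_on with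
  | empty =>
    simp only [Finset.sum_empty]
    have h0 : corner (0 : R) t = ⊥ := by
      rw [eq_bot_iff]
      intro x hx
      obtain ⟨h1, _⟩ := (mem_corner (by rw [mul_zero]) ht).1 hx
      rw [Submodule.mem_bot, ← h1, zero_mul]
    rw [nn, h0, finrank_bot]
  | insert a s ha ih =>
    have h1 : ∀ i ∈ s, i ≠ a := fun i hi h => ha (h ▸ hi)
    rw [Finset.sum_insert ha, Finset.sum_insert ha, nn_add, ih]
    · exact fun i hi => he i (Finset.mem_insert_of_mem hi)
    · exact fun i hi j hj => hort i (Finset.mem_insert_of_mem hi) j (Finset.mem_insert_of_mem hj)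
    · exact he a (Finset.mem_insert_self a s)
    · rw [Finset.sum_mul]
      refine Finset.sum_congr rfl fun i hi => ?_
      rw [Finset.mul_sum, Finset.sum_eq_single i]
      · exact he i (Finset.mem_insert_of_mem hi)
      · intro j hj hji
        exact hort i (Finset.mem_insert_of_mem hi) j (Finset.mem_insert_of_mem hj) hji.symm
      · exact fun h => absurd hi h
    · exact ht
    · rw [Finset.mul_sum]
      refine Finset.sum_eq_zero fun i hi => ?_
      exact hort a (Finset.mem_insert_self a s) i (Finset.mem_insert_of_mem hi) (h1 i hi).symm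
    · rw [Finset.sum_mul]
      refine Finset.sum_eq_zero fun i hi => ?_
      exact hort i (Finset.mem_insert_of_mem hi) a (Finset.mem_insert_self a s) (h1 i hi)

/-- `τ` is an involution of `R` (an additive antiautomorphism of order two). -/
structure IsInv (τ : R → R) : Prop where
  add : ∀ x y, τ (x + y) = τ x + τ y
  mul : ∀ x y, τ (x * y) = τ y * τ x
  inv : ∀ x, τ (τ x) = x
  pos : ∀ x y, τ x * x + τ y * y = 0 → x = 0

variable {τ : R → R} (hτ : IsInv τ)

include hτ

omit [FiniteDimensional ℚ R] in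
lemma IsInv.zero : τ 0 = 0 := by
  have := hτ.add 0 0
  rw [add_zero] at this
  exact left_eq_add.1 this

omit [FiniteDimensional ℚ R] in
lemma IsInv.neg (x : R) : τ (-x) = -τ x := by
  have := hτ.add x (-x)
  rw [add_neg_cancel, hτ.zero] at this
  exact (neg_eq_of_add_eq_zero_right this.symm).symm

omit [FiniteDimensional ℚ R] in
lemma IsInv.sub (x y : R) : τ (x - y) = τ x - τ y := by
  rw [sub_eq_add_neg, hτ.add, hτ.neg, ← sub_eq_add_neg]

omit [FiniteDimensional ℚ R] in
lemma IsInv.one : τ 1 = 1 := by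
  have h1 : τ 1 * τ (τ 1) = τ 1 := by
    rw [hτ.inv, mul_one]
  rw [← hτ.mul, mul_one, hτ.inv] at h1
  exact h1.symm

omit [FiniteDimensional ℚ R] in
lemma IsInv.pos' {x : R} (h : τ x * x = 0) : x = 0 := by
  refine hτ.pos x 0 ?_
  rw [mul_zero, add_zero, h]

/-- Finite-dimensional algebras with a positive involution are von Neumann regular. -/
lemma IsInv.regular (x : R) : ∃ z, x * z * x = x := by
  set a := τ x * x with ha
  have hta : τ a = a := by rw [ha, hτ.mul, hτ.inv]
  have hker : ∀ y : R, a * (a * y) = 0 → a * y = 0 := by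
    intro y hy
    apply hτ.pos'
    rw [hτ.mul, hta, mul_assoc, hy, mul_zero]
  -- the ranges of left multiplication by `a` and `a^2` agree
  have h1 : LinearMap.ker (LinearMap.mulLeft ℚ (a * a)) = LinearMap.ker (LinearMap.mulLeft ℚ a) := by
    ext y
    simp only [LinearMap.mem_ker, LinearMap.mulLeft_apply]
    constructor
    · intro h; exact hker y (by rw [← mul_assoc]; exact h)
    · intro h; rw [mul_assoc, h, mul_zero]
  have h2 : LinearMap.range (LinearMap.mulLeft ℚ (a * a)) ≤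
      LinearMap.range (LinearMap.mulLeft ℚ a) := by
    rintro _ ⟨y, rfl⟩
    exact ⟨a * y, by simp only [LinearMap.mulLeft_apply, mul_assoc]⟩
  have h3 : Module.finrank ℚ (LinearMap.range (LinearMap.mulLeft ℚ (a * a))) =
      Module.finrank ℚ (LinearMap.range (LinearMap.mulLeft ℚ a)) := by
    have e1 := LinearMap.finrank_range_add_finrank_ker (LinearMap.mulLeft ℚ (a * a))
    have e2 := LinearMap.finrank_range_add_finrank_ker (LinearMap.mulLeft ℚ a)
    rw [h1] at e1
    omega
  have h4 := Submodule.eq_of_le_of_finrank_eq h2 h3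
  have h5 : a ∈ LinearMap.range (LinearMap.mulLeft ℚ (a * a)) := by
    rw [h4]
    exact ⟨1, by simp⟩
  obtain ⟨q, hq⟩ := h5
  rw [LinearMap.mulLeft_apply] at hq
  have hq' : τ q * (a * a) = a := by
    have := congrArg τ hq
    rwa [hτ.mul, hτ.mul, hta] at this
  have hqa : a * q * a = a := by
    calc a * q * a = (τ q * (a * a)) * q * a := by rw [hq']
      _ = τ q * ((a * a) * q) * a := by noncomm_ring
      _ = τ q * (a * a) := by rw [hq]; noncomm_ring
      _ = a := hq'
  refine ⟨q * τ x, ?_⟩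
  have h6 : x - x * (q * τ x) * x = 0 := by
    apply hτ.pos'
    have e1 : x - x * (q * τ x) * x = x * (1 - q * a) := by rw [ha]; noncomm_ring
    rw [e1, hτ.mul]
    have e2 : τ (1 - q * a) * τ x * (x * (1 - q * a)) = τ (1 - q * a) * (a - a * q * a) := by
      rw [ha]; noncomm_ring
    rw [e2, hqa, sub_self, mul_zero]
  exact (sub_eq_zero.1 h6).symm

/-- Two idempotents with the same multiplicities are equivalent. -/
theorem IsInv.eqv {e f : R} (he : e * e = e) (hf : f * f = f)
    (h : ∀ t : R, t * t = t → nn t e = nn t f) : Eqv e f := by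
  classical
  -- choose an element of maximal rank in `f R e`
  let rk : R → ℕ := fun x => Module.finrank ℚ (LinearMap.range (LinearMap.mulLeft ℚ x))
  obtain ⟨x, ⟨hx1, hx2⟩, hmax⟩ : ∃ x : R, (f * x = x ∧ x * e = x) ∧
      ∀ y : R, (f * y = y ∧ y * e = y) → rk y ≤ rk x := by
    have hb : ∃ n, ∀ y : R, (f * y = y ∧ y * e = y) → rk y ≤ n :=
      ⟨Module.finrank ℚ R, fun y _ => Submodule.finrank_le _⟩
    have hP : ∃ m, ∃ y : R, (f * y = y ∧ y * e = y) ∧ rk y = m :=
      ⟨rk 0, 0, ⟨by rw [mul_zero], by rw [zero_mul]⟩, rfl⟩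
    obtain ⟨n, hn⟩ := hb
    set m := Nat.findGreatest (fun m => ∃ y : R, (f * y = y ∧ y * e = y) ∧ rk y = m) n with hm
    have hspec : ∃ y : R, (f * y = y ∧ y * e = y) ∧ rk y = m := by
      obtain ⟨m0, y, hy, hy'⟩ := hP
      exact Nat.findGreatest_spec (P := fun m => ∃ y : R, (f * y = y ∧ y * e = y) ∧ rk y = m)
        (hy' ▸ hn y hy) ⟨y, hy, hy'⟩
    obtain ⟨y, hy, hy'⟩ := hspec
    refine ⟨y, hy, fun z hz => ?_⟩
    rw [hy']
    exact Nat.le_findGreatest (hn z hz) ⟨z, hz, rfl⟩
  obtain ⟨z₀, hz₀⟩ := hτ.regular x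
  set z := e * z₀ * f with hz
  have hxz : x * z * x = x := by
    calc x * z * x = (x * e) * z₀ * (f * x) := by rw [hz]; noncomm_ring
      _ = x := by rw [hx1, hx2, hz₀]
  have hez : e * z = z := by rw [hz, ← mul_assoc, ← mul_assoc, he]
  have hzf : z * f = z := by rw [hz, mul_assoc, hf]
  set e₁ := z * x with he₁
  set f₁ := x * z with hf₁
  set z' := z * x * z with hz'
  have hxz' : x * z' * x = x := by
    calc x * z' * x = (x * z * x) * z * x := by rw [hz']; noncomm_ring
      _ = x := by rw [hxz, hxz]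
  have he₁1 : e₁ * e₁ = e₁ := by
    calc e₁ * e₁ = z * (x * z * x) := by rw [he₁]; noncomm_ring
      _ = e₁ := by rw [hxz]
  have hf₁1 : f₁ * f₁ = f₁ := by
    calc f₁ * f₁ = (x * z * x) * z := by rw [hf₁]; noncomm_ring
      _ = f₁ := by rw [hxz]
  have hee₁ : e * e₁ = e₁ := by rw [he₁, ← mul_assoc, hez]
  have he₁e : e₁ * e = e₁ := by rw [he₁, mul_assoc, hx2]
  have hff₁ : f * f₁ = f₁ := by rw [hf₁, ← mul_assoc, hx1]
  have hf₁f : f₁ * f = f₁ := by rw [hf₁, mul_assoc, hzf]
  have hxe₁ : x * e₁ = x := by rw [he₁, ← mul_assoc, hxz]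
  have hf₁x : f₁ * x = x := by rw [hf₁, hxz]
  have heqv1 : Eqv e₁ f₁ := by
    refine ⟨x, z', hf₁x, hxe₁, ?_, ?_, ?_, ?_⟩
    · calc e₁ * z' = z * (x * z * x) * z := by rw [he₁, hz']; noncomm_ring
        _ = z' := by rw [hxz]
    · calc z' * f₁ = z * (x * z * x) * z := by rw [hf₁, hz']; noncomm_ring
        _ = z' := by rw [hxz]
    · calc z' * x = z * (x * z * x) := by rw [hz']; noncomm_ring
        _ = e₁ := by rw [hxz]
    · calc x * z' = (x * z * x) * z := by rw [hz']; noncomm_ring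
        _ = f₁ := by rw [hxz]
  set e₂ := e - e₁ with he₂
  set f₂ := f - f₁ with hf₂
  have he₂2 : e₂ * e₂ = e₂ := by
    rw [he₂, mul_sub, sub_mul, sub_mul, he, hee₁, he₁e, he₁1]; abel
  have hf₂2 : f₂ * f₂ = f₂ := by
    rw [hf₂, mul_sub, sub_mul, sub_mul, hf, hff₁, hf₁f, hf₁1]; abel
  have he₂₁ : e₂ * e₁ = 0 := by rw [he₂, sub_mul, hee₁, he₁1, sub_self]
  have he₁₂ : e₁ * e₂ = 0 := by rw [he₂, mul_sub, he₁e, he₁1, sub_self]
  have hf₂₁ : f₂ * f₁ = 0 := by rw [hf₂, sub_mul, hff₁, hf₁1, sub_self]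
  have hf₁₂ : f₁ * f₂ = 0 := by rw [hf₂, mul_sub, hf₁f, hf₁1, sub_self]
  -- `f₂ R e₂ = 0`
  have hzero : ∀ y : R, f₂ * y = y → y * e₂ = y → y = 0 := by
    intro y hy1 hy2
    by_contra hy0
    have hfy : f * y = y := by
      rw [← hy1, ← mul_assoc]
      congr 1
      rw [hf₂, mul_sub, hf, hff₁]
    have hye : y * e = y := by
      rw [← hy2, mul_assoc]
      congr 1
      rw [he₂, sub_mul, he, he₁e]
    have hle := hmax (x + y) ⟨by rw [mul_add, hx1, hfy], by rw [add_mul, hx2, hye]⟩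
    have hye₁ : y * e₁ = 0 := by rw [← hy2, mul_assoc, he₂₁, mul_zero]
    have hxe₂ : x * e₂ = 0 := by rw [← hxe₁, mul_assoc, he₁₂, mul_zero]
    have hlt : rk x < rk (x + y) := by
      refine Submodule.finrank_lt_finrank_of_lt ?_
      refine lt_of_le_of_ne ?_ ?_
      · rintro _ ⟨r, rfl⟩
        refine ⟨e₁ * r, ?_⟩
        simp only [LinearMap.mulLeft_apply]
        rw [← mul_assoc, add_mul, hxe₁, hye₁, add_zero]
      · intro heq
        have hy : y ∈ LinearMap.range (LinearMap.mulLeft ℚ x) := by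
          rw [heq]
          refine ⟨e₂, ?_⟩
          simp only [LinearMap.mulLeft_apply]
          rw [add_mul, hxe₂, hy2, zero_add]
        obtain ⟨r, hr⟩ := hy
        rw [LinearMap.mulLeft_apply] at hr
        apply hy0
        rw [← hy1, ← hr, ← hf₁x, ← mul_assoc, ← mul_assoc, hf₂₁, zero_mul, zero_mul]
    omega
  have hsum1 : ∀ t : R, t * t = t → nn t e = nn t e₁ + nn t e₂ := by
    intro t ht
    rw [← nn_add he₁1 he₂2 ht he₁₂ he₂₁]
    congr 1
    rw [he₂]; abel
  have hsum2 : ∀ t : R, t * t = t → nn t f = nn t f₁ + nn t f₂ := by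
    intro t ht
    rw [← nn_add hf₁1 hf₂2 ht hf₁₂ hf₂₁]
    congr 1
    rw [hf₂]; abel
  have h22 : ∀ t : R, t * t = t → nn t e₂ = nn t f₂ := by
    intro t ht
    have := h t ht
    rw [hsum1 t ht, hsum2 t ht, nn_eq he₁1 hf₁1 ht heqv1] at this
    omega
  have he₂0 : e₂ = 0 := by
    have h1 := h22 e₂ he₂2
    have h2 : corner f₂ e₂ = ⊥ := by
      rw [eq_bot_iff]
      intro y hy
      obtain ⟨h3, h4⟩ := (mem_corner hf₂2 he₂2).1 hy
      exact (Submodule.mem_bot ℚ).2 (hzero y h3 h4)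
    have h3 : nn e₂ e₂ = 0 := by rw [h1, nn, h2, finrank_bot]
    have h4 : corner e₂ e₂ = ⊥ := Submodule.finrank_eq_zero.1 h3
    have h5 : e₂ ∈ corner e₂ e₂ := (mem_corner he₂2 he₂2).2 ⟨he₂2, he₂2⟩
    rw [h4] at h5
    exact (Submodule.mem_bot ℚ).1 h5
  have hf₂0 : f₂ = 0 := by
    have h1 := h22 f₂ hf₂2
    rw [he₂0] at h1
    have h2 : corner (0 : R) f₂ = ⊥ := by
      rw [eq_bot_iff]
      intro y hy
      obtain ⟨h3, _⟩ := (mem_corner (by rw [mul_zero]) hf₂2).1 hy
      rw [Submodule.mem_bot, ← h3, zero_mul]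
    have h3 : nn f₂ f₂ = 0 := by rw [← h1, nn, h2, finrank_bot]
    have h4 : corner f₂ f₂ = ⊥ := Submodule.finrank_eq_zero.1 h3
    have h5 : f₂ ∈ corner f₂ f₂ := (mem_corner hf₂2 hf₂2).2 ⟨hf₂2, hf₂2⟩
    rw [h4] at h5
    exact (Submodule.mem_bot ℚ).1 h5
  have h1 : e = e₁ := sub_eq_zero.1 he₂0
  have h2 : f = f₁ := sub_eq_zero.1 hf₂0
  rw [h1, h2]
  exact heqv1

/-- Sylvester's law of inertia. -/
theorem IsInv.sylvester {p q p' q' U V : R} (hp : p * p = p) (hq : q * q = q) (hpq : p * q = 0)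
    (hqp : q * p = 0) (hp' : p' * p' = p') (hq' : q' * q' = q') (hpq' : p' * q' = 0)
    (hqp' : q' * p' = 0) (htp' : τ p' = p') (htq' : τ q' = q')
    (hU1 : (p' + q') * U = U) (hU2 : U * (p + q) = U)
    (hV1 : (p + q) * V = V) (hV2 : V * (p' + q') = V) (hVU : V * U = p + q)
    (hUV : U * V = p' + q') (hiso : τ U * (p' - q') * U = p - q) {t : R} (ht : t * t = t) :
    nn t p = nn t p' ∧ nn t q = nn t q' := by
  have h1 : nn t p ≤ nn t p' := by
    refine nn_le hp hp' ht (p' * U) (by rw [← mul_assoc, hp']) fun x hx _ h0 => ?_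
    have hqx : q * x = 0 := by rw [← hx, ← mul_assoc, hqp, zero_mul]
    have hUx : U * x = q' * (U * x) := by
      calc U * x = (p' + q') * U * x := by rw [hU1]
        _ = p' * U * x + q' * (U * x) := by noncomm_ring
        _ = q' * (U * x) := by rw [h0, zero_add]
    refine hτ.pos x (q' * (U * x)) ?_
    have e1 : τ x * x = τ x * ((p - q) * x) := by rw [sub_mul, hx, hqx, sub_zero]
    have e2 : τ x * ((p - q) * x) = τ x * τ U * ((p' - q') * (U * x)) := by
      rw [← hiso]; noncomm_ring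
    have e3 : (p' - q') * (U * x) = -(q' * (U * x)) := by
      rw [sub_mul, ← mul_assoc p', h0, zero_sub]
    have e4 : τ (q' * (U * x)) * (q' * (U * x)) = τ x * τ U * (q' * (U * x)) := by
      rw [hτ.mul, hτ.mul, htq']
      calc τ x * τ U * q' * (q' * (U * x)) = τ x * τ U * ((q' * q') * (U * x)) := by
            noncomm_ring
        _ = _ := by rw [hq']
    rw [e1, e2, e3, e4, mul_neg, neg_add_cancel]
  have h2 : nn t q ≤ nn t q' := by
    refine nn_le hq hq' ht (q' * U) (by rw [← mul_assoc, hq']) fun x hx _ h0 => ?_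
    have hpx : p * x = 0 := by rw [← hx, ← mul_assoc, hpq, zero_mul]
    have hUx : U * x = p' * (U * x) := by
      calc U * x = (p' + q') * U * x := by rw [hU1]
        _ = p' * (U * x) + q' * U * x := by noncomm_ring
        _ = p' * (U * x) := by rw [h0, add_zero]
    refine hτ.pos x (p' * (U * x)) ?_
    have e1 : τ x * x = -(τ x * ((p - q) * x)) := by rw [sub_mul, hx, hpx, zero_sub, mul_neg, neg_neg]
    have e2 : τ x * ((p - q) * x) = τ x * τ U * ((p' - q') * (U * x)) := by
      rw [← hiso]; noncomm_ring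
    have e3 : (p' - q') * (U * x) = p' * (U * x) := by
      rw [sub_mul, ← mul_assoc q', h0, sub_zero]
    have e4 : τ (p' * (U * x)) * (p' * (U * x)) = τ x * τ U * (p' * (U * x)) := by
      rw [hτ.mul, hτ.mul, htp']
      calc τ x * τ U * p' * (p' * (U * x)) = τ x * τ U * ((p' * p') * (U * x)) := by
            noncomm_ring
        _ = _ := by rw [hp']
    rw [e1, e2, e3, e4, neg_add_cancel]
  have hs : (p + q) * (p + q) = p + q := by
    rw [mul_add, add_mul, add_mul, hp, hq, hpq, hqp, add_zero, zero_add]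
  have hs' : (p' + q') * (p' + q') = p' + q' := by
    rw [mul_add, add_mul, add_mul, hp', hq', hpq', hqp', add_zero, zero_add]
  have h3 : nn t (p + q) = nn t (p' + q') :=
    nn_eq hs hs' ht ⟨U, V, hU1, hU2, hV1, hV2, hVU, hUV⟩
  rw [nn_add hp hq ht hpq hqp, nn_add hp' hq' ht hpq' hqp'] at h3
  omega

end Pool.Agent.Y111.OR
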