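import Pool.Agent.TH133.Base

/-!
# The category of Chow correspondences of all degrees, with its filtration by the degree
-/

open CategoryTheory AlgebraicGeometry

universe u v w

namespace Pool.Agent.Y111.OR

open Pool.Agent.H914 Pool.Agent.H914.VarClass Pool.Agent.H914.VarClass.Obj Pool.Agent.W492.BB
  Pool.Agent.W550.Corr Pool.Agent.TH133

variable {k : Type u} [Field k] {𝒱 : VarClass k}

/-- The objects of the category of correspondences. -/
structure CC (C : TheoryData.{u, v, 0} 𝒱 ℚ) where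
  /-- the variety -/
  X : 𝒱.Obj

variable {C : TheoryData.{u, v, 0} 𝒱 ℚ} [hC : IsChowProj C]

noncomputable instance : Category (CC C) where
  Hom a b := C.A (a.X.prod b.X)
  id a := dg C a.X
  comp {a b c} f g := C.comp (X := a.X) (Y := b.X) (Z := c.X) f g
  id_comp {a b} f := dg_comp C (X := a.X) (Y := b.X) f
  comp_id {a b} f := comp_dg C (X := a.X) (Y := b.X) f
  assoc {a b c d} f g h := comp_assoc C (X := a.X) (Y := b.X) (Z := c.X) (W := d.X) f g h

noncomputable instance (a b : CC C) : AddCommGroup (a ⟶ b) :=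
  inferInstanceAs (AddCommGroup (C.A (a.X.prod b.X)))

noncomputable instance : Preadditive (CC C) where
  homGroup _ _ := inferInstance
  add_comp a b c f g h := add_comp C (X := a.X) (Y := b.X) (Z := c.X) f g h
  comp_add a b c f g h := comp_add C (X := a.X) (Y := b.X) (Z := c.X) f g h

noncomputable instance (a b : CC C) : Module ℚ (a ⟶ b) :=
  inferInstanceAs (Module ℚ (C.A (a.X.prod b.X)))

noncomputable instance : Linear ℚ (CC C) where
  homModule _ _ := inferInstance
  smul_comp a b c r f g := by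
    change compL C (X := a.X) (Y := b.X) (Z := c.X) (r • f) g =
      r • compL C (X := a.X) (Y := b.X) (Z := c.X) f g
    rw [map_smul, LinearMap.smul_apply]
  comp_smul a b c f r g := by
    change compL C (X := a.X) (Y := b.X) (Z := c.X) f (r • g) =
      r • compL C (X := a.X) (Y := b.X) (Z := c.X) f g
    rw [map_smul]

/-- The correspondences of degree `n` from `a` to `b`. -/
noncomputable def G (a b : CC C) (n : ℤ) : Submodule ℚ (a ⟶ b) := C.gr (a.X.prod b.X) (a.X.dim + n)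

/-- The sums of correspondences of degrees at least `n` from `a` to `b`. -/
noncomputable def Fi (a b : CC C) (n : ℤ) : Submodule ℚ (a ⟶ b) := ⨆ i : {i : ℤ // n ≤ i}, G a b i

lemma G_le (a b : CC C) {n i : ℤ} (h : n ≤ i) : G a b i ≤ Fi a b n :=
  le_iSup (fun i : {i : ℤ // n ≤ i} => G a b i) ⟨i, h⟩

lemma Fi_anti (a b : CC C) {n m : ℤ} (h : n ≤ m) : Fi a b m ≤ Fi a b n :=
  iSup_le fun i => G_le a b (h.trans i.2)

lemma G_comp {a b c : CC C} {n m : ℤ} {f : a ⟶ b} {g : b ⟶ c} (hf : f ∈ G a b n)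
    (hg : g ∈ G b c m) : f ≫ g ∈ G a c (n + m) :=
  comp_mem C (X := a.X) (Y := b.X) (Z := c.X) hf hg

lemma Fi_comp {a b c : CC C} {n m : ℤ} {f : a ⟶ b} {g : b ⟶ c} (hf : f ∈ Fi a b n)
    (hg : g ∈ Fi b c m) : f ≫ g ∈ Fi a c (n + m) := by
  revert g
  refine Submodule.iSup_induction (fun i : {i : ℤ // n ≤ i} => G a b i)
    (motive := fun f => ∀ {g : b ⟶ c}, g ∈ Fi b c m → f ≫ g ∈ Fi a c (n + m)) hf ?_ ?_ ?_
  · intro i f hf g hg
    refine Submodule.iSup_induction (fun j : {j : ℤ // m ≤ j} => G b c j)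
      (motive := fun g => f ≫ g ∈ Fi a c (n + m)) hg ?_ ?_ ?_
    · intro j g hg
      exact G_le a c (add_le_add i.2 j.2) (G_comp hf hg)
    · rw [Limits.comp_zero]; exact Submodule.zero_mem _
    · intro g g' h h'
      rw [Preadditive.comp_add]; exact Submodule.add_mem _ h h'
  · intro g _
    rw [Limits.zero_comp]; exact Submodule.zero_mem _
  · intro f f' h h' g hg
    rw [Preadditive.add_comp]; exact Submodule.add_mem _ (h hg) (h' hg)

lemma G_iSup (a b : CC C) : ⨆ n : ℤ, G a b n = ⊤ := by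
  have h := (C.isInternal (a.X.prod b.X)).submodule_iSup_eq_top
  rw [eq_top_iff]
  rw [← h]
  refine iSup_le fun i => ?_
  refine le_trans ?_ (le_iSup (fun n => G a b n) (i - a.X.dim))
  change _ ≤ C.gr (a.X.prod b.X) (a.X.dim + (i - a.X.dim))
  rw [add_sub_cancel]

lemma G_indep (a b : CC C) : iSupIndep (fun n : ℤ => G a b n) := by
  have h := (C.isInternal (a.X.prod b.X)).submodule_iSupIndep
  exact h.comp (f := fun n : ℤ => (a.X.dim : ℤ) + n) (add_right_injective _)

/-- A correspondence of degree `n` which is a sum of correspondences of degrees greater than `n`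
vanishes. -/
lemma eq_zero_of_G_Fi {a b : CC C} {n : ℤ} {f : a ⟶ b} (h : f ∈ G a b n)
    (h' : f ∈ Fi a b (n + 1)) : f = 0 := by
  have h1 := G_indep a b n
  rw [Submodule.disjoint_def] at h1
  refine h1 f h ?_
  have h2 : Fi a b (n + 1) ≤ ⨆ j, ⨆ (_ : j ≠ n), G a b j := by
    refine iSup_le fun i => ?_
    refine le_trans ?_ (le_iSup₂ (f := fun j (_ : j ≠ n) => G a b j) i.1 ?_)
    · exact le_rfl
    · have := i.2
      omega
  exact h2 h'

lemma Fi_succ {a b : CC C} {n : ℤ} {f : a ⟶ b} (h : f ∈ Fi a b n) :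
    ∃ f₀ ∈ G a b n, f - f₀ ∈ Fi a b (n + 1) := by
  have h1 : Fi a b n ≤ G a b n ⊔ Fi a b (n + 1) := by
    refine iSup_le fun i => ?_
    rcases eq_or_lt_of_le i.2 with h0 | h0
    · rw [← h0]; exact le_sup_left
    · exact (G_le a b (by omega)).trans le_sup_right
  obtain ⟨f₀, hf₀, f₁, hf₁, rfl⟩ := Submodule.mem_sup.1 (h1 h)
  exact ⟨f₀, hf₀, by rw [add_sub_cancel_left]; exact hf₁⟩

lemma id_mem (a : CC C) : 𝟙 a ∈ G a a 0 := by
  change dg C a.X ∈ C.gr (a.X.prod a.X) (a.X.dim + 0)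
  rw [add_zero]
  exact dg_mem C a.X

lemma G_eq_zero {a b : CC C} {n : ℤ} (hn : (b.X.dim : ℤ) < n) {f : a ⟶ b} (h : f ∈ G a b n) :
    f = 0 := by
  refine hC.gr_top (a.X.prod b.X) (a.X.dim + n) f h ?_
  rw [dim_prod]
  push_cast
  omega

/-- If two mutually inverse correspondences have only components of nonnegative degree, then their
components of degree zero are mutually inverse. -/
lemma inv_zero {a b : CC C} {f : a ⟶ b} {g : b ⟶ a} {f₀ : a ⟶ b} {g₀ : b ⟶ a}
    (hg : g ∈ Fi b a 0)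
    (hf₀ : f₀ ∈ G a b 0) (hf₁ : f - f₀ ∈ Fi a b 1) (hg₀ : g₀ ∈ G b a 0)
    (hg₁ : g - g₀ ∈ Fi b a 1) (h : f ≫ g = 𝟙 a) : f₀ ≫ g₀ = 𝟙 a := by
  have h1 : 𝟙 a - f₀ ≫ g₀ = (f - f₀) ≫ g + f₀ ≫ (g - g₀) := by
    rw [Preadditive.sub_comp, Preadditive.comp_sub, h]
    abel
  have h2 : 𝟙 a - f₀ ≫ g₀ = 0 := by
    apply eq_zero_of_G_Fi (n := 0)
    · exact Submodule.sub_mem _ (id_mem a) (by simpa using G_comp hf₀ hg₀)
    · rw [h1]
      refine Submodule.add_mem _ ?_ ?_
      · simpa using Fi_comp hf₁ hg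
      · simpa using Fi_comp (G_le a b (le_refl 0) hf₀) hg₁
  rw [sub_eq_zero] at h2
  exact h2.symm

end Pool.Agent.Y111.OR
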