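import Pool.Agent.Y111.OR.Side

/-!
# Comparison of the components of two graded objects with a duality: the theorem
-/

namespace Pool.Agent.Y111.OR

open Finset

section arith

lemma rho_nat {d : ℕ} {n r n' r' : ℕ → ℕ} (h0 : r 0 = n 0) (h1 : r 1 = n 1)
    (hs : ∀ i, i + 2 ≤ d → n (i + 2) = r (i + 2) + r i) (h0' : r' 0 = n' 0) (h1' : r' 1 = n' 1)
    (hs' : ∀ i, i + 2 ≤ d → n' (i + 2) = r' (i + 2) + r' i) (i : ℕ) :
    i ≤ d → (∀ j ≤ i, Even (j + i) → n j = n' j) → r i = r' i := by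
  induction i using Nat.strong_induction_on with
  | _ i ih =>
    intro hi hj
    match i, ih, hi, hj with
    | 0, _, _, hj => rw [h0, h0', hj 0 le_rfl ⟨0, rfl⟩]
    | 1, _, _, hj => rw [h1, h1', hj 1 le_rfl ⟨1, rfl⟩]
    | i + 2, ih, hi, hj =>
      have e1 := ih i (by omega) (by omega) (fun j hj' hp => hj j (by omega) (by
        obtain ⟨a, ha⟩ := hp; exact ⟨a + 1, by omega⟩))
      have e2 := hs i hi
      have e3 := hs' i hi
      have e4 := hj (i + 2) le_rfl ⟨i + 2, rfl⟩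
      omega

lemma low_nat (f : ℕ → ℕ) (e : ℕ) : ∑ i ∈ (range (e + 2)).filter (fun i => Even (i + (e + 2))),
    f i = ∑ i ∈ (range e).filter (fun i => Even (i + e)), f i + f e := by
  rw [range_add_one, filter_insert, if_neg, range_add_one, filter_insert, if_pos,
    sum_insert, add_comm]
  · congr 1
    refine sum_congr ?_ fun _ _ => rfl
    ext i
    simp only [mem_filter, mem_range]
    constructor
    · rintro ⟨h1, h2⟩; exact ⟨h1, by obtain ⟨a, ha⟩ := h2; exact ⟨a - 1, by omega⟩⟩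
    · rintro ⟨h1, h2⟩; exact ⟨h1, by obtain ⟨a, ha⟩ := h2; exact ⟨a + 1, by omega⟩⟩
  · simp
  · exact ⟨e + 1, by omega⟩
  · rintro ⟨a, ha⟩; omega

lemma mid_nat {d : ℕ} {n r n' r' : ℕ → ℕ} {m m' : ℕ} (h0 : r 0 = n 0) (h1 : r 1 = n 1)
    (hs : ∀ i, i + 2 ≤ d → n (i + 2) = r (i + 2) + r i) (h0' : r' 0 = n' 0) (h1' : r' 1 = n' 1)
    (hs' : ∀ i, i + 2 ≤ d → n' (i + 2) = r' (i + 2) + r' i) (hm : n d = r d + m)
    (hm' : n' d = r' d + m') (hlow : ∀ i, i + 3 ≤ d → Even (i + d) → n i = n' i)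
    (hA : ∑ i ∈ (range d).filter (fun i => Even (i + d)), n i + r d =
      ∑ i ∈ (range d).filter (fun i => Even (i + d)), n' i + r' d)
    (hB : ∑ i ∈ (range d).filter (fun i => Even (i + d)), n i + m =
      ∑ i ∈ (range d).filter (fun i => Even (i + d)), n' i + m') :
    (∀ i, i + 2 = d → n i = n' i) ∧ n d = n' d := by
  match d, hs, hs', hm, hm', hlow, hA, hB with
  | 0, _, _, hm, hm', _, hA, hB =>
    simp only [range_zero, filter_empty, sum_empty, zero_add] at hA hB
    exact ⟨fun i hi => by omega, by omega⟩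
  | 1, _, _, hm, hm', _, hA, hB =>
    have e : (range 1).filter (fun i => Even (i + 1)) = ∅ := by decide
    rw [e] at hA hB
    simp only [sum_empty, zero_add] at hA hB
    exact ⟨fun i hi => by omega, by omega⟩
  | e + 2, hs, hs', hm, hm', hlow, hA, hB =>
    rw [low_nat, low_nat] at hA hB
    have hsum : ∑ i ∈ (range e).filter (fun i => Even (i + e)), n i =
        ∑ i ∈ (range e).filter (fun i => Even (i + e)), n' i := by
      refine sum_congr rfl fun i hi => ?_
      simp only [mem_filter, mem_range] at hi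
      obtain ⟨h2, a, ha⟩ := hi
      exact hlow i (by omega) ⟨a + 1, by omega⟩
    rw [hsum] at hA hB
    have e1 := hs e le_rfl
    have e2 := hs' e le_rfl
    have key : n e = n' e ∧ r e = r' e := by
      rcases e with _ | e
      · omega
      rcases e with _ | e
      · have : n (0 + 1) = r (0 + 1) := h1.symm
        have : n' (0 + 1) = r' (0 + 1) := h1'.symm
        omega
      · have e3 := rho_nat h0 h1 hs h0' h1' hs' e (by omega) (fun j hj hp =>
          hlow j (by omega) (by obtain ⟨a, ha⟩ := hp; exact ⟨a + 2, by omega⟩))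
        have e4 : n (e + 1 + 1) = r (e + 1 + 1) + r e := hs e (by omega)
        have e5 : n' (e + 1 + 1) = r' (e + 1 + 1) + r' e := hs' e (by omega)
        omega
    refine ⟨fun i hi => ?_, by omega⟩
    have : i = e := by omega
    rw [this]; exact key.1

lemma double_nat {d : ℕ} {f : ℕ → ℕ} (hf : ∀ i ≤ 2 * d, f i = f (2 * d - i)) :
    ∑ i ∈ (range (2 * d + 1)).filter (fun i => Even (i + (d + 1))), f i =
      2 * ∑ i ∈ (range d).filter (fun i => Even (i + (d + 1))), f i := by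
  have h1 : (range (2 * d + 1)).filter (fun i => Even (i + (d + 1))) =
      ((range d).filter (fun i => Even (i + (d + 1)))) ∪
        ((Ico (d + 1) (2 * d + 1)).filter (fun i => Even (i + (d + 1)))) := by
    ext i
    simp only [mem_filter, mem_range, mem_union, mem_Ico]
    constructor
    · rintro ⟨h1, h2⟩
      rcases lt_trichotomy i d with h | h | h
      · exact Or.inl ⟨h, h2⟩
      · subst h; obtain ⟨a, ha⟩ := h2; omega
      · exact Or.inr ⟨⟨h, h1⟩, h2⟩
    · rintro (⟨h1, h2⟩ | ⟨⟨h1, h2⟩, h3⟩)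
      · exact ⟨by omega, h2⟩
      · exact ⟨h2, h3⟩
  rw [h1, sum_union]
  · have h2 : ∑ i ∈ (Ico (d + 1) (2 * d + 1)).filter (fun i => Even (i + (d + 1))), f i =
      ∑ i ∈ (range d).filter (fun i => Even (i + (d + 1))), f i := ?_
    · rw [h2]; ring
    refine sum_nbij' (fun i : ℕ => 2 * d - i) (fun i : ℕ => 2 * d - i) ?_ ?_ ?_ ?_ ?_
    · intro i hi
      simp only [mem_filter, mem_range, mem_Ico] at *
      refine ⟨by omega, ?_⟩
      obtain ⟨r, hr⟩ := hi.2
      exact ⟨2 * d + 1 - r, by omega⟩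
    · intro i hi
      simp only [mem_filter, mem_range, mem_Ico] at *
      refine ⟨by omega, ?_⟩
      obtain ⟨r, hr⟩ := hi.2
      exact ⟨2 * d + 1 - r, by omega⟩
    · intro i hi
      simp only [mem_filter, mem_Ico] at hi
      omega
    · intro i hi
      simp only [mem_filter, mem_range] at hi
      omega
    · intro i hi
      simp only [mem_filter, mem_Ico] at hi
      exact hf i (by omega)
  · rw [disjoint_left]
    intro i hi hi'
    simp only [mem_filter, mem_range, mem_Ico] at hi hi'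
    omega

lemma odd_nat {d : ℕ} {n n' : ℕ → ℕ} (hf : ∀ i ≤ 2 * d, n i = n (2 * d - i))
    (hf' : ∀ i ≤ 2 * d, n' i = n' (2 * d - i))
    (hlow : ∀ i, i + 3 ≤ d → Even (i + (d + 1)) → n i = n' i)
    (hO : ∑ i ∈ (range (2 * d + 1)).filter (fun i => Even (i + (d + 1))), n i =
      ∑ i ∈ (range (2 * d + 1)).filter (fun i => Even (i + (d + 1))), n' i) :
    ∀ i, i + 1 = d → n i = n' i := by
  rintro i rfl
  rw [double_nat hf, double_nat hf'] at hO
  have h1 : ∀ f : ℕ → ℕ, ∑ j ∈ (range (i + 1)).filter (fun j => Even (j + (i + 1 + 1))), f j =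
      f i + ∑ j ∈ (range i).filter (fun j => Even (j + (i + 1 + 1))), f j := by
    intro f
    rw [range_add_one, filter_insert, if_pos, sum_insert]
    · simp
    · exact ⟨i + 1, by omega⟩
  rw [h1, h1] at hO
  have hsum : ∑ j ∈ (range i).filter (fun j => Even (j + (i + 1 + 1))), n j =
      ∑ j ∈ (range i).filter (fun j => Even (j + (i + 1 + 1))), n' j := by
    refine sum_congr rfl fun j hj => ?_
    simp only [mem_filter, mem_range] at hj
    obtain ⟨h2, a, ha⟩ := hj
    exact hlow j (by omega) ⟨a, by omega⟩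
  omega

end arith

variable {R : Type*} [Ring R] [Algebra ℚ R] [FiniteDimensional ℚ R] {τ : R → R}
  {d : ℕ} {π ρ π' ρ' : ℕ → R} {β β' : R}

omit [Algebra ℚ R] [FiniteDimensional ℚ R] in
lemma IsInv.sum (hτ : IsInv τ) {ι : Type*} (s : Finset ι) (f : ι → R) :
    τ (∑ i ∈ s, f i) = ∑ i ∈ s, τ (f i) := map_sum (AddMonoidHom.mk' τ hτ.add) f s

omit [FiniteDimensional ℚ R] in
lemma IsInv.smul (hτ : IsInv τ) (c : ℚ) (x : R) : τ (c • x) = c • τ x :=
  map_rat_smul (AddMonoidHom.mk' τ hτ.add) c x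

/-- **Comparison theorem.** -/
theorem compare (hτ : IsInv τ) (S : Side τ d π ρ β) (S' : Side τ d π' ρ' β') {U V : R}
    (hU1 : parSum π' d d * U = U) (hU2 : U * parSum π d d = U) (hV1 : parSum π d d * V = V)
    (hV2 : V * parSum π' d d = V) (hVU : V * U = parSum π d d) (hUV : U * V = parSum π' d d)
    (hiso : τ U * β' * U = β) (hodd : Eqv (parSum π d (d + 1)) (parSum π' d (d + 1)))
    (c : ℕ) (hlow : ∀ i, i + 3 ≤ d → Even (i + c) → Eqv (π i) (π' i)) :
    ∀ i ≤ 2 * d, Even (i + c) → Eqv (π i) (π' i) := by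
  intro i hi hic
  refine hτ.eqv (S.idem i) (S'.idem i) fun t ht => ?_
  -- the eigenspaces of `β`
  have mk : ∀ {π ρ : ℕ → R} {β : R}, Side τ d π ρ β →
      ((2⁻¹ : ℚ) • (parSum π d d - β)) * ((2⁻¹ : ℚ) • (parSum π d d - β)) =
        (2⁻¹ : ℚ) • (parSum π d d - β) ∧
      ((2⁻¹ : ℚ) • (parSum π d d + β)) * ((2⁻¹ : ℚ) • (parSum π d d - β)) = 0 ∧
      ((2⁻¹ : ℚ) • (parSum π d d - β)) * ((2⁻¹ : ℚ) • (parSum π d d + β)) = 0 ∧
      τ ((2⁻¹ : ℚ) • (parSum π d d + β)) = (2⁻¹ : ℚ) • (parSum π d d + β) ∧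
      τ ((2⁻¹ : ℚ) • (parSum π d d - β)) = (2⁻¹ : ℚ) • (parSum π d d - β) := by
    intro π ρ β S
    have hEE : parSum π d d * parSum π d d = parSum π d d := by
      rw [parSum, sum_mul_sum_idem S.idem S.orth, inter_self]
    have hτE : τ (parSum π d d) = parSum π d d := by
      rw [parSum, hτ.sum]
      exact sum_congr rfl fun i _ => S.star_pi i
    refine ⟨?_, ?_, ?_, ?_, ?_⟩
    · rw [smul_mul_smul_comm, mul_sub, sub_mul, sub_mul, hEE, S.left, S.right, S.sq]; module
    · rw [smul_mul_smul_comm, mul_sub, add_mul, add_mul, hEE, S.left, S.right, S.sq]; module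
    · rw [smul_mul_smul_comm, mul_add, sub_mul, sub_mul, hEE, S.left, S.right, S.sq]; module
    · rw [hτ.smul, hτ.add, hτE, S.star_beta]
    · rw [hτ.smul, hτ.sub, hτE, S.star_beta]
  obtain ⟨a1, a2, a3, a4, a5⟩ := mk S
  obtain ⟨b1, b2, b3, b4, b5⟩ := mk S'
  have hpq : ∀ x y : R, (2⁻¹ : ℚ) • (x + y) + (2⁻¹ : ℚ) • (x - y) = x := by intro x y; module
  have hpq' : ∀ x y : R, (2⁻¹ : ℚ) • (x + y) - (2⁻¹ : ℚ) • (x - y) = y := by intro x y; module
  have syl := hτ.sylvester (p := (2⁻¹ : ℚ) • (parSum π d d + β))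
    (q := (2⁻¹ : ℚ) • (parSum π d d - β)) (p' := (2⁻¹ : ℚ) • (parSum π' d d + β'))
    (q' := (2⁻¹ : ℚ) • (parSum π' d d - β')) (U := U) (V := V) S.plus_idem a1 a2 a3 S'.plus_idem
    b1 b2 b3 b4 b5 (by rw [hpq, hU1]) (by rw [hpq, hU2]) (by rw [hpq, hV1]) (by rw [hpq, hV2])
    (by rw [hpq, hVU]) (by rw [hpq, hUV]) (by rw [hpq', hpq', hiso]) ht
  obtain ⟨hA, hB⟩ := syl
  rw [S.nn_plus ht, S'.nn_plus ht, S.nn_low d ht, S'.nn_low d ht] at hA
  rw [S.nn_minus ht, S'.nn_minus ht, S.nn_low d ht, S'.nn_low d ht] at hB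
  have hmid : ∀ {π ρ : ℕ → R} {β : R}, Side τ d π ρ β →
      nn t (π d) = nn t (ρ d) + nn t (π d - ρ d) := by
    intro π ρ β S
    have h1 : (π d - ρ d) * (π d - ρ d) = π d - ρ d := by
      rw [mul_sub, sub_mul, sub_mul, S.idem, S.rho_left _ le_rfl, S.rho_right _ le_rfl,
        S.rho_idem _ le_rfl]
      abel
    rw [← nn_add (S.rho_idem _ le_rfl) h1 ht]
    · congr 1; abel
    · rw [mul_sub, S.rho_right _ le_rfl, S.rho_idem _ le_rfl, sub_self]
    · rw [sub_mul, S.rho_left _ le_rfl, S.rho_idem _ le_rfl, sub_self]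
  have hlow' : ∀ i, i + 3 ≤ d → Even (i + c) → nn t (π i) = nn t (π' i) := fun i hi hic =>
    nn_eq (S.idem i) (S'.idem i) ht (hlow i hi hic)
  have hall : ∀ i ≤ d, Even (i + c) → nn t (π i) = nn t (π' i) := by
    rcases Nat.even_or_odd (c + d) with hcd | hcd
    · obtain ⟨k1, k2⟩ := mid_nat (n := fun i => nn t (π i)) (r := fun i => nn t (ρ i))
        (n' := fun i => nn t (π' i)) (r' := fun i => nn t (ρ' i)) (congrArg (nn t) S.rho_zero)
        (congrArg (nn t) S.rho_one) (fun i hi => S.nn_step ht hi) (congrArg (nn t) S'.rho_zero)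
        (congrArg (nn t) S'.rho_one) (fun i hi => S'.nn_step ht hi) (hmid S) (hmid S')
        (fun i hi hid => hlow' i hi (by
          obtain ⟨a, ha⟩ := hcd
          obtain ⟨b, hb⟩ := hid
          rw [Nat.even_iff]
          omega)) hA hB
      intro i hi hic
      obtain ⟨a, ha⟩ := hcd
      obtain ⟨b, hb⟩ := hic
      rcases Nat.lt_or_ge (i + 2) d with h1 | h1
      · exact hlow' i h1 ⟨b, hb⟩
      · rcases eq_or_lt_of_le hi with h2 | h2
        · rw [h2]; exact k2
        · exact k1 i (by omega)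
    · have hEE : ∀ {π ρ : ℕ → R} {β : R}, Side τ d π ρ β →
          parSum π d (d + 1) * parSum π d (d + 1) = parSum π d (d + 1) := by
        intro π ρ β S
        rw [parSum, sum_mul_sum_idem S.idem S.orth, inter_self]
      have hO := nn_eq (hEE S) (hEE S') ht hodd
      rw [S.nn_par _ ht, S'.nn_par _ ht] at hO
      have k3 := odd_nat (n := fun i => nn t (π i)) (n' := fun i => nn t (π' i))
        (fun i hi => S.nn_dual ht hi) (fun i hi => S'.nn_dual ht hi)
        (fun i hi hid => hlow' i hi (by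
          obtain ⟨a, ha⟩ := hcd
          obtain ⟨b, hb⟩ := hid
          rw [Nat.even_iff]
          omega)) hO
      intro i hi hic
      obtain ⟨a, ha⟩ := hcd
      obtain ⟨b, hb⟩ := hic
      rcases Nat.lt_or_ge (i + 2) d with h1 | h1
      · exact hlow' i h1 ⟨b, hb⟩
      · exact k3 i (by omega)
  rcases le_or_gt i d with h1 | h1
  · exact hall i h1 hic
  · rw [S.nn_dual ht hi, S'.nn_dual ht hi]
    refine hall _ (by omega) ?_
    obtain ⟨b, hb⟩ := hic
    rw [Nat.even_iff]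
    omega

end Pool.Agent.Y111.OR
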