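import Pool.Agent.Y111.OR.Ring

/-!
# The isometry defined by a Mukai vector, and the comparison of the components
-/

open CategoryTheory AlgebraicGeometry Finset

universe u v w

namespace Pool.Agent.Y111.OR

open Pool.Agent.H914 Pool.Agent.H914.VarClass Pool.Agent.H914.VarClass.Obj Pool.Agent.W492.BB
  Pool.Agent.W550.Corr Pool.Agent.TH133

set_option linter.unusedSectionVars false

section map

variable {R R' : Type*} [Ring R] [Algebra ℚ R] [Ring R'] [Algebra ℚ R'] {τ : R → R}
  {τ' : R' → R'} {d : ℕ} {π ρ : ℕ → R} {β : R}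

lemma Eqv.map (e : R →ₗ[ℚ] R') (he : ∀ x y, e (x * y) = e x * e y) {x y : R} (h : Eqv x y) :
    Eqv (e x) (e y) := by
  obtain ⟨a, b, h1, h2, h3, h4, h5, h6⟩ := h
  exact ⟨e a, e b, by rw [← he, h1], by rw [← he, h2], by rw [← he, h3], by rw [← he, h4],
    by rw [← he, h5], by rw [← he, h6]⟩

lemma parSum_map (e : R →ₗ[ℚ] R') (d c : ℕ) (π : ℕ → R) :
    parSum (fun i => e (π i)) d c = e (parSum π d c) := by
  rw [parSum, parSum, map_sum]

lemma Side.map (e : R →ₗ[ℚ] R') (he : ∀ x y, e (x * y) = e x * e y) (S : Side τ d π ρ β)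
    (hπ : ∀ i, τ' (e (π i)) = e (π i)) (hβ : τ' (e β) = e β) :
    Side τ' d (fun i => e (π i)) (fun i => e (ρ i)) (e β) where
  idem i := by rw [← he, S.idem]
  orth i j hij := by rw [← he, S.orth i j hij, map_zero]
  dual i hi := (S.dual i hi).map e he
  rho_idem i hi := by rw [← he, S.rho_idem i hi]
  rho_left i hi := by rw [← he, S.rho_left i hi]
  rho_right i hi := by rw [← he, S.rho_right i hi]
  rho_zero := by rw [S.rho_zero]
  rho_one := by rw [S.rho_one]
  rho_step i hi := by rw [← map_sub]; exact (S.rho_step i hi).map e he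
  sq := by rw [← he, S.sq, parSum_map]
  left := by rw [parSum_map, ← he, S.left]
  right := by rw [parSum_map, ← he, S.right]
  swap i hi h := by rw [← he, ← he, S.swap i hi h]
  mid := by rw [← he, S.mid, map_sub, map_smul]
  star_pi := hπ
  star_beta := hβ

end map

section dop

variable {V : Type*} [AddCommGroup V] [Module ℚ V] {gr : ℤ → Submodule ℚ V} {d : ℕ}
  {L S : Module.End ℚ V} {π : ℕ → Module.End ℚ V}

/-- The operator `(-1)^(j/2)` on the degree `j`. -/
def dop (d : ℕ) (π : ℕ → Module.End ℚ V) : Module.End ℚ V :=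
  ∑ i ∈ range (2 * d + 1), ((-1 : ℚ) ^ (i / 2)) • π i

lemma dop_apply (hπ : IsPi gr π) {i : ℕ} (hi : i ≤ 2 * d) {x : V} (hx : x ∈ gr i) :
    dop d π x = ((-1 : ℚ) ^ (i / 2)) • x := by
  have h1 : dop d π = ∑ j ∈ range (2 * d + 1), (((-1 : ℚ) ^ (j / 2)) • (1 : Module.End ℚ V)) *
      π j := by
    rw [dop]
    refine sum_congr rfl fun j _ => ?_
    rw [smul_mul_assoc, one_mul]
  rw [h1, hπ.sum_apply _ _ i x hx, if_pos (by rw [mem_range]; omega), LinearMap.smul_apply,
    Module.End.one_apply]

lemma dop_sq (h : IsLef gr d L) (hπ : IsPi gr π) (x : V) : dop d π (dop d π x) = x := by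
  have h1 : dop d π * dop d π = 1 := by
    refine ext_nat h fun i hi x hx => ?_
    rw [Module.End.mul_apply, dop_apply hπ hi hx, map_smul, dop_apply hπ hi hx, smul_smul,
      neg_one_sq_pow, one_smul, Module.End.one_apply]
  exact congrArg (fun f => f x) h1

lemma bet_eq (h : IsLef gr d L) (hS : IsStar gr d L S) (hπ : IsPi gr π) (x : V) :
    bet d S π x = (eps d * (-1) ^ (d / 2)) • S (dop d π (parSum π d d x)) := by
  have h1 : bet d S π = (eps d * (-1) ^ (d / 2)) • (S * (dop d π * parSum π d d)) := by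
    refine ext_nat h fun i hi x hx => ?_
    rw [LinearMap.smul_apply, Module.End.mul_apply, Module.End.mul_apply,
      bet_apply h hS hπ hi hx, par_apply h hS hπ d hi hx]
    by_cases he : Even (i + d)
    · rw [if_pos he, if_pos he, dop_apply hπ hi hx, map_smul, smul_smul, sg]
    · rw [if_neg he, if_neg he, map_zero, map_zero, smul_zero]
  rw [h1]
  rfl

lemma star_bet (h : IsLef gr d L) (hS : IsStar gr d L S) (hπ : IsPi gr π) (x : V) :
    S (bet d S π x) = (eps d * (-1) ^ (d / 2)) • dop d π (parSum π d d x) := by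
  rw [bet_eq h hS hπ, map_smul]
  congr 1
  exact congrArg (fun f => f (dop d π (parSum π d d x))) (star_sq h hS)

end dop

variable {k : Type u} [Field k] {𝒱 : VarClass k} {C : TheoryData.{u, v, 0} 𝒱 ℚ}
  [hC : IsChowProj C] {H : WeilTheoryData.{u, v, 0} C ℚ} [hH : IsWeilProj H] {X Y Z : 𝒱.Obj}

section one

variable {hX : C.A X} {σX : C.A (X.prod X)} {πX : ℕ → C.A (X.prod X)}
  {BX : H.A X →ₗ[ℚ] H.A X →ₗ[ℚ] ℝ}

/-- The Kunneth projectors as operators. -/
noncomputable def pj (H : WeilTheoryData.{u, v, 0} C ℚ) (πX : ℕ → C.A (X.prod X)) (i : ℕ) :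
    Module.End ℚ (H.A X) := opr H (πX i)

/-- The Lefschetz involution as an operator. -/
noncomputable def so (H : WeilTheoryData.{u, v, 0} C ℚ) (σX : C.A (X.prod X)) :
    Module.End ℚ (H.A X) := opr H σX

/-- The multiplication by a divisor class. -/
noncomputable def lo (H : WeilTheoryData.{u, v, 0} C ℚ) (hX : C.A X) :
    Module.End ℚ (H.A X) := LinearMap.mulLeft ℚ (H.cl hX)

variable (LX : LefschetzB H X hX σX πX)

include LX

lemma LefschetzB.isPi : IsPi (H.gr X) (pj H πX) := ⟨LX.pi_self, LX.pi_ne⟩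

lemma LefschetzB.isLef' : IsLef (H.gr X) X.dim (lo H hX) := LX.isLef

lemma LefschetzB.isStar' : IsStar (H.gr X) X.dim (lo H hX) (so H σX) := LX.isStar

omit LX in
lemma lo_mem : lo H hX ∈ algX H X := ⟨C.mulCorr hX, (opr_mulCorr H hX).symm⟩
omit LX in
lemma so_mem : so H σX ∈ algX H X := ⟨σX, rfl⟩
omit LX in
lemma pj_mem (i : ℕ) : pj H πX i ∈ algX H X := ⟨πX i, rfl⟩

/-- The transpose of the Kunneth projector `π i` is `π (2 d - i)`. -/
lemma LefschetzB.tp_pj [FiniteDimensional ℚ (H.A X)] {i : ℕ} (hi : i ≤ 2 * X.dim) :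
    opr H (tp C (πX i)) = pj H πX (2 * X.dim - i) := by
  refine ext_nat LX.isLef' fun j hj x hx => ?_
  rw [← sub_eq_zero]
  apply right_nondeg (H := H)
  intro a
  rw [mul_sub, map_sub, ← tr_opr, sub_eq_zero]
  have h2 : a ∈ ⨆ i, H.gr X i := by
    rw [(H.isInternal X).submodule_iSup_eq_top]; trivial
  refine Submodule.iSup_induction (H.gr X) (motive := fun a => H.tr X (opr H (πX i) a * x) =
    H.tr X (a * pj H πX (2 * X.dim - i) x)) h2 ?_ ?_ ?_
  · intro l a ha
    by_cases hl : l = i
    · subst hl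
      rw [LX.pi_self i a ha]
      by_cases hji : j = 2 * X.dim - i
      · subst hji
        rw [LX.isPi.self _ x hx]
      · rw [LX.isPi.ne _ j (by exact_mod_cast hji) x hx, mul_zero, map_zero]
        exact cup_eq_zero H ha hx (by push_cast; omega)
    · rw [LX.pi_ne i l hl a ha, zero_mul, map_zero]
      by_cases hji : j = 2 * X.dim - i
      · subst hji
        rw [LX.isPi.self _ x hx]
        exact (cup_eq_zero H ha hx (by push_cast [Nat.cast_sub hi]; omega)).symm
      · rw [LX.isPi.ne _ j (by exact_mod_cast hji) x hx, mul_zero, map_zero]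
  · rw [map_zero, zero_mul, zero_mul]
  · intro a b ha hb
    rw [map_add, add_mul, add_mul, map_add, map_add, ha, hb]

lemma LefschetzB.star_pj {i : ℕ} (hi : i ≤ 2 * X.dim) (x : H.A X) :
    so H σX (pj H πX (2 * X.dim - i) (so H σX x)) = pj H πX i x := by
  have h1 : so H σX * pj H πX (2 * X.dim - i) * so H σX = pj H πX i := by
    refine ext_nat LX.isLef' fun j hj x hx => ?_
    simp only [Module.End.mul_apply]
    have hs := star_mem' LX.isLef' LX.isStar' LX.isPi hj hx
    by_cases hji : j = i
    · subst hji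
      rw [LX.isPi.self _ _ hs, LX.isPi.self _ _ hx]
      exact LX.star_sq' x
    · rw [LX.isPi.ne i j (by exact_mod_cast hji) x hx,
        LX.isPi.ne (2 * X.dim - i) ((2 * X.dim - j : ℕ) : ℤ) (by norm_cast; omega) _ hs, map_zero]
  exact congrArg (fun f => f x) h1

variable (hXX : AdjF H σX σX BX BX)

include hXX

lemma adj_star [FiniteDimensional ℚ (H.A X)] (a b : H.A X) :
    BX (so H σX a) b = BX a (so H σX b) := by
  have := hXX σX a b
  rw [LX.opr_tp_sigma, LX.star_sq'] at this
  exact this

lemma adj_pj [FiniteDimensional ℚ (H.A X)] (i : ℕ) (a b : H.A X) :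
    BX (pj H πX i a) b = BX a (pj H πX i b) := by
  by_cases hi : i ≤ 2 * X.dim
  · have := hXX (πX i) a b
    rw [LX.tp_pj hi] at this
    rw [← LX.star_pj hi b]
    exact this
  · have h0 : pj H πX i = 0 := by
      refine ext_nat LX.isLef' fun j hj x hx => ?_
      rw [LX.isPi.ne i j (by exact_mod_cast (by omega : j ≠ i)) x hx, LinearMap.zero_apply]
    rw [h0, LinearMap.zero_apply, LinearMap.zero_apply, map_zero, map_zero, LinearMap.zero_apply]

lemma adj_par [FiniteDimensional ℚ (H.A X)] (c : ℕ) (a b : H.A X) :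
    BX (parSum (pj H πX) X.dim c a) b = BX a (parSum (pj H πX) X.dim c b) := by
  rw [parSum, LinearMap.sum_apply, LinearMap.sum_apply, map_sum, map_sum, LinearMap.sum_apply]
  exact sum_congr rfl fun i _ => adj_pj LX hXX i a b

lemma adj_dop [FiniteDimensional ℚ (H.A X)] (a b : H.A X) :
    BX (dop X.dim (pj H πX) a) b = BX a (dop X.dim (pj H πX) b) := by
  rw [dop, LinearMap.sum_apply, LinearMap.sum_apply, map_sum, map_sum, LinearMap.sum_apply]
  refine sum_congr rfl fun i _ => ?_
  rw [LinearMap.smul_apply, LinearMap.smul_apply, map_smul, map_smul, LinearMap.smul_apply,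
    adj_pj LX hXX]

/-- The operator `β` is self-adjoint. -/
lemma adj_bet [FiniteDimensional ℚ (H.A X)] (a b : H.A X) :
    BX (bet X.dim (so H σX) (pj H πX) a) b = BX a (bet X.dim (so H σX) (pj H πX) b) := by
  -- `β = c S D E`, and the adjoint `c E D S` is the inverse of `β` on the image of `E`
  have h1 : ∀ x : H.A X, (eps X.dim * (-1) ^ (X.dim / 2)) • parSum (pj H πX) X.dim X.dim
      (dop X.dim (pj H πX) (so H σX x)) = bet X.dim (so H σX) (pj H πX) x := by
    have h2 : (eps X.dim * (-1) ^ (X.dim / 2)) • (parSum (pj H πX) X.dim X.dim *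
        (dop X.dim (pj H πX) * so H σX)) = bet X.dim (so H σX) (pj H πX) := by
      refine ext_nat LX.isLef' fun j hj x hx => ?_
      have hs := star_mem' LX.isLef' LX.isStar' LX.isPi hj hx
      rw [LinearMap.smul_apply, Module.End.mul_apply, Module.End.mul_apply,
        dop_apply LX.isPi (by omega) hs, map_smul,
        par_apply LX.isLef' LX.isStar' LX.isPi X.dim (by omega) hs,
        bet_apply LX.isLef' LX.isStar' LX.isPi hj hx]
      by_cases he : Even (j + X.dim)
      · rw [if_pos he, if_pos (even_dual LX.isLef' LX.isStar' LX.isPi hj he), smul_smul]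
        congr 1
        have h3 := sg_dual hj he
        have h4 : sg X.dim j * sg X.dim j = 1 := by
          rw [sg]
          calc eps X.dim * (-1) ^ (X.dim / 2) * (-1) ^ (j / 2) *
                (eps X.dim * (-1) ^ (X.dim / 2) * (-1) ^ (j / 2)) =
              (eps X.dim * eps X.dim) * ((-1) ^ (X.dim / 2) * (-1) ^ (X.dim / 2)) *
                ((-1) ^ (j / 2) * (-1) ^ (j / 2)) := by ring
            _ = 1 := by rw [eps_mul_self, neg_one_sq_pow, neg_one_sq_pow]; ring
        have h5 : sg X.dim (2 * X.dim - j) = sg X.dim j := by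
          calc sg X.dim (2 * X.dim - j) = sg X.dim (2 * X.dim - j) * (sg X.dim j * sg X.dim j) := by
                rw [h4, mul_one]
            _ = sg X.dim j := by rw [← mul_assoc, h3, one_mul]
        exact h5
      · rw [if_neg he, if_neg, smul_zero, smul_zero]
        intro h6
        apply he
        have := even_dual LX.isLef' LX.isStar' LX.isPi (i := 2 * X.dim - j) (by omega) h6
        rwa [show 2 * X.dim - (2 * X.dim - j) = j by omega] at this
    intro x
    rw [← h2]
    rfl
  rw [bet_eq LX.isLef' LX.isStar' LX.isPi, map_smul, LinearMap.smul_apply, adj_star LX hXX,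
    adj_dop LX hXX, adj_par LX hXX, ← map_smul, h1]

end one

end Pool.Agent.Y111.OR
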