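import Pool.Agent.TH133.Defs

/-!
# Kernels relative to a base: definitions
-/

open CategoryTheory AlgebraicGeometry

universe u v w

namespace Pool.Agent.Y111.OR

open Pool.Agent.H914 Pool.Agent.H914.VarClass Pool.Agent.H914.VarClass.Obj Pool.Agent.W492.BB
  Pool.Agent.W550.Corr Pool.Agent.TH133

variable {k : Type u} [Field k] {𝒱 : VarClass k}

/-- The (mixed) class `v` on `X × X'` has the properties of the Mukai vector
`ch(E) √td(X × X')` of a kernel `E` supported on the fibre product `X ×_B X'` of two flat
morphisms `f : X ⟶ B` and `f' : X' ⟶ B` with one-dimensional fibres: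

* `lead`: `v` is the sum of a multiple of the class `f'^* ∘ f_*` of `X ×_B X'`, which has
  codimension `dim X - 1`, and of a class with components of codimension at least `dim X`;
* `lin`: `v ∘ f^* = (c · ) ∘ f'^*` for some class `c` on `X'` (the image of `X ×_B X'` in
  `B × X'` is the graph of `f'`);
* `colin`: `f'_* ∘ v = f_* ∘ (e · )` for some class `e` on `X` (the image of `X ×_B X'` in
  `X × B` is the graph of `f`). -/
structure IsRelative (C : TheoryData.{u, v, 0} 𝒱 ℚ) {X X' B : 𝒱.Obj} (f : X ⟶ B) (f' : X' ⟶ B)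
    (v : C.A (X.prod X')) : Prop where
  lead : ∃ r : ℚ, v - r • C.comp (C.graph f) (C.cograph f') ∈
    ⨆ i : {i : ℤ // (X.dim : ℤ) ≤ i}, C.gr (X.prod X') i
  lin : ∃ c : C.A X', C.comp (C.cograph f) v = C.comp (C.cograph f') (C.mulCorr c)
  colin : ∃ e : C.A X, C.comp v (C.graph f') = C.comp (C.mulCorr e) (C.graph f)

end Pool.Agent.Y111.OR
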