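import Pool.Agent.Y111.OR.Rel
import Pool.Agent.Y111.OR.Defs

/-!
# Relative Fourier-Mukai partners with one-dimensional fibres have isomorphic Chow motives
-/

open CategoryTheory AlgebraicGeometry

universe u v w

namespace Pool.Agent.Y111.OR

open Pool.Agent.H914 Pool.Agent.H914.VarClass Pool.Agent.H914.VarClass.Obj Pool.Agent.W492.BB
  Pool.Agent.W550.Corr Pool.Agent.TH133

variable {k : Type u} [Field k] {𝒱 : VarClass k} {C : TheoryData.{u, v, 0} 𝒱 ℚ}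
  [hC : IsChowProj C] {X Y B : 𝒱.Obj}

lemma comp_graph (Γ : C.A (X.prod Y)) (f : Y ⟶ B) :
    C.comp Γ (C.graph f) = C.push (prodMap (𝟙 X) f) Γ := by
  rw [comp_eq_extR, extR_graph]

lemma cograph_comp (f : X ⟶ B) (Γ : C.A (X.prod Y)) :
    C.comp (C.cograph f) Γ = C.push (prodMap f (𝟙 Y)) Γ := by
  rw [TheoryData.comp, TheoryData.cograph, C.base_fst, ← C.proj_left, ← C.push_comp,
    map_one, mul_one, ← C.pull_comp]
  have e1 : prodMap (Obj.lift f (𝟙 X)) (𝟙 Y) ≫ t13 B X Y = prodMap f (𝟙 Y) := by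
    apply Pool.Agent.W550.Corr.prod_ext <;> simp [t13]
  have e2 : prodMap (Obj.lift f (𝟙 X)) (𝟙 Y) ≫ t23 B X Y = 𝟙 _ := by
    apply Pool.Agent.W550.Corr.prod_ext <;> simp [t23]
  rw [e1, e2, C.pull_id]

lemma comp_mulCorr (Γ : C.A (X.prod Y)) (c : C.A Y) :
    C.comp Γ (C.mulCorr c) = C.pull (snd X Y) c * Γ := by
  rw [comp_eq_extR, TheoryData.extR, TheoryData.mulCorr, C.base_snd, ← C.proj_right,
    ← C.push_comp, ← C.pull_comp]
  have e1 : prodMap (𝟙 X) (Obj.lift (𝟙 Y) (𝟙 Y)) ≫ u12 X Y Y = 𝟙 _ := by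
    apply Pool.Agent.W550.Corr.prod_ext <;> simp [u12]
  have e2 : prodMap (𝟙 X) (Obj.lift (𝟙 Y) (𝟙 Y)) ≫ u13 X Y Y = 𝟙 _ := by
    apply Pool.Agent.W550.Corr.prod_ext <;> simp [u13]
  rw [e1, e2, C.pull_id, C.push_id]

lemma cograph_mulCorr (f : X ⟶ B) (c : C.A X) :
    C.comp (C.cograph f) (C.mulCorr c) = C.push (Obj.lift f (𝟙 X)) c := by
  rw [comp_mulCorr, TheoryData.cograph, ← C.proj_left, mul_one, ← C.pull_comp, lift_snd,
    C.pull_id]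

/-- `f_* ∘ (c · ) ∘ f^*` is the multiplication by `f_* c`. -/
lemma cograph_mulCorr_graph (f : X ⟶ B) (c : C.A X) :
    C.comp (C.comp (C.cograph f) (C.mulCorr c)) (C.graph f) = C.mulCorr (C.push f c) := by
  rw [cograph_mulCorr, comp_graph, ← C.push_comp, TheoryData.mulCorr, ← C.push_comp]
  congr 1
  have e1 : Obj.lift f (𝟙 X) ≫ prodMap (𝟙 B) f = f ≫ Obj.lift (𝟙 B) (𝟙 B) := by
    apply Pool.Agent.W550.Corr.prod_ext <;> simp
  rw [e1]

omit hC in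
lemma mulCorr_one : C.mulCorr (1 : C.A X) = dg C X := rfl

omit hC in
lemma mulCorr_smul (q : ℚ) (c : C.A X) : C.mulCorr (q • c) = q • C.mulCorr c :=
  map_smul (C.push (Obj.lift (𝟙 X) (𝟙 X))) q c

/-- The multiplication by `c`, as a morphism. -/
noncomputable def mu (c : C.A X) : (⟨X⟩ : CC C) ⟶ ⟨X⟩ := C.mulCorr c

lemma mu_mem {i : ℤ} {c : C.A X} (hc : c ∈ C.gr X i) : mu c ∈ G (⟨X⟩ : CC C) ⟨X⟩ i := by
  have h := C.push_mem (Obj.lift (𝟙 X) (𝟙 X)) hc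
  have e1 : i + 1 * (((X.prod X).dim : ℤ) - (X.dim : ℤ)) = X.dim + i := by
    rw [dim_prod]; push_cast; ring
  rwa [e1] at h

lemma mu_add (c c' : C.A X) : mu (c + c') = mu c + mu c' :=
  map_add (C.push (Obj.lift (𝟙 X) (𝟙 X))) c c'

lemma exists_scalar (c : C.A X) : ∃ α : ℚ, mu c - α • 𝟙 (⟨X⟩ : CC C) ∈
    Fi (⟨X⟩ : CC C) ⟨X⟩ 1 := by
  have h2 : c ∈ ⨆ i, C.gr X i := by
    rw [(C.isInternal X).submodule_iSup_eq_top]; trivial
  refine Submodule.iSup_induction (C.gr X) (motive := fun c => ∃ α : ℚ, mu c -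
    α • 𝟙 (⟨X⟩ : CC C) ∈ Fi (⟨X⟩ : CC C) ⟨X⟩ 1) h2 ?_ ?_ ?_
  · intro i c hc
    rcases lt_trichotomy i 0 with h0 | h0 | h0
    · rw [C.gr_neg X i h0, Submodule.mem_bot] at hc
      refine ⟨0, ?_⟩
      rw [hc, zero_smul, sub_zero]
      have : mu (0 : C.A X) = 0 := map_zero (C.push (Obj.lift (𝟙 X) (𝟙 X)))
      rw [this]
      exact Submodule.zero_mem _
    · subst h0
      obtain ⟨q, rfl⟩ := hC.gr_zero X c hc
      refine ⟨q, ?_⟩
      have : mu (q • (1 : C.A X)) = q • 𝟙 (⟨X⟩ : CC C) := mulCorr_smul q 1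
      rw [this, sub_self]
      exact Submodule.zero_mem _
    · refine ⟨0, ?_⟩
      rw [zero_smul, sub_zero]
      exact G_le _ _ (by omega) (mu_mem hc)
  · refine ⟨0, ?_⟩
    have : mu (0 : C.A X) = 0 := map_zero (C.push (Obj.lift (𝟙 X) (𝟙 X)))
    rw [zero_smul, sub_zero, this]
    exact Submodule.zero_mem _
  · rintro c c' ⟨α, hα⟩ ⟨β, hβ⟩
    refine ⟨α + β, ?_⟩
    have : mu (c + c') - (α + β) • 𝟙 (⟨X⟩ : CC C) = (mu c - α • 𝟙 _) + (mu c' - β • 𝟙 _) := by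
      rw [mu_add]; module
    rw [this]
    exact Submodule.add_mem _ hα hβ

/-- The graph and its transpose, as morphisms. -/
noncomputable def gs (f : X ⟶ B) : (⟨X⟩ : CC C) ⟶ ⟨B⟩ := C.graph f
/-- The graph and its transpose, as morphisms. -/
noncomputable def gp (f : X ⟶ B) : (⟨B⟩ : CC C) ⟶ ⟨X⟩ := C.cograph f

lemma gs_mem (f : X ⟶ B) (h : X.dim = B.dim + 1) : gs (C := C) f ∈ G _ _ (-1) := by
  have h1 := C.push_mem (Obj.lift (𝟙 X) f) (C.one_mem X)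
  have e1 : (0 : ℤ) + 1 * (((X.prod B).dim : ℤ) - (X.dim : ℤ)) = X.dim + (-1) := by
    rw [dim_prod]; push_cast; rw [h]; push_cast; ring
  rwa [e1] at h1

lemma gp_mem (f : X ⟶ B) : gp (C := C) f ∈ G _ _ 0 := by
  have h1 := C.push_mem (Obj.lift f (𝟙 X)) (C.one_mem X)
  have e1 : (0 : ℤ) + 1 * (((B.prod X).dim : ℤ) - (X.dim : ℤ)) = B.dim + 0 := by
    rw [dim_prod]; push_cast; ring
  rwa [e1] at h1

lemma push_one_eq_zero (f : X ⟶ B) (h : X.dim = B.dim + 1) : C.push f 1 = 0 := by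
  have h1 := C.push_mem f (C.one_mem X)
  rw [C.gr_neg B _ (by rw [h]; push_cast; omega)] at h1
  exact (Submodule.mem_bot _).1 h1

lemma gp_gs (f : X ⟶ B) (h : X.dim = B.dim + 1) : gp (C := C) f ≫ gs f = 0 := by
  have h1 := cograph_mulCorr_graph (C := C) f 1
  rw [mulCorr_one, comp_dg, push_one_eq_zero f h] at h1
  have h2 : C.mulCorr (0 : C.A B) = 0 := map_zero (C.push (Obj.lift (𝟙 B) (𝟙 B)))
  rw [h2] at h1
  exact h1

lemma gp_mu_gs (f : X ⟶ B) {ξ : C.A X} {q : ℚ} (hq : C.push f ξ = q • 1) :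
    gp f ≫ mu ξ ≫ gs f = q • 𝟙 (⟨B⟩ : CC C) := by
  have h1 := cograph_mulCorr_graph (C := C) f ξ
  rw [hq, mulCorr_smul] at h1
  rw [← Category.assoc]
  exact h1

lemma exists_push (f : X ⟶ B) (h : X.dim = B.dim + 1) {ξ : C.A X} (hξ : C.Deg 1 ξ) :
    ∃ q : ℚ, C.push f ξ = q • 1 := by
  have h1 := C.push_mem f hξ
  have e1 : (1 : ℤ) + 1 * ((B.dim : ℤ) - (X.dim : ℤ)) = 0 := by rw [h]; push_cast; ring
  rw [e1] at h1
  exact hC.gr_zero B _ h1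

theorem main {X X' B : 𝒱.Obj} (f : X ⟶ B) (f' : X' ⟶ B) (hX : X.dim = B.dim + 1)
    (hX' : X'.dim = B.dim + 1) {ξ : C.A X} (hξ : C.Deg 1 ξ) (hξ1 : C.down f ξ ≠ 0)
    {ξ' : C.A X'} (hξ' : C.Deg 1 ξ') (hξ1' : C.down f' ξ' ≠ 0) {v : C.A (X.prod X')}
    {w : C.A (X'.prod X)} (hv : IsRelative C f f' v) (hw : IsRelative C f' f w)
    (hvw : C.comp v w = dg C X) (hwv : C.comp w v = dg C X') :
    ∃ (Z : C.A (X.prod X')) (Z' : C.A (X'.prod X)), C.Deg X.dim Z ∧ C.Deg X.dim Z' ∧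
      C.comp Z Z' = dg C X ∧ C.comp Z' Z = dg C X' ∧ C.comp (C.cograph f) Z = C.cograph f' := by
  obtain ⟨q, hq⟩ := exists_push f hX hξ
  obtain ⟨q', hq'⟩ := exists_push f' hX' hξ'
  have hq0 : q ≠ 0 := by
    rintro rfl
    rw [zero_smul] at hq
    exact hξ1 hq
  have hq0' : q' ≠ 0 := by
    rintro rfl
    rw [zero_smul] at hq'
    exact hξ1' hq'
  have hB : 𝟙 (⟨B⟩ : CC C) ≠ 0 := by
    intro h0
    have h1 : C.act (dg C B) (1 : C.A B) = 1 := act_dg C 1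
    have h2 : dg C B = 0 := h0
    rw [h2, C.act_zero] at h1
    apply hξ1
    change C.push f ξ = 0
    rw [hq, ← h1, smul_zero]
  have hm1 := gp_mu_gs (C := C) f hq
  have hm1' := gp_mu_gs (C := C) f' hq'
  set a : CC C := ⟨X⟩ with ha
  set b : CC C := ⟨X'⟩ with hb
  set V : a ⟶ b := v with hV
  set W : b ⟶ a := w with hW
  obtain ⟨r, hr⟩ := hv.lead
  obtain ⟨r', hr'⟩ := hw.lead
  obtain ⟨c, hc⟩ := hv.lin
  obtain ⟨c', hc'⟩ := hw.lin
  obtain ⟨e', he'⟩ := hw.colin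
  obtain ⟨α, hα⟩ := exists_scalar (C := C) c
  obtain ⟨α', hα'⟩ := exists_scalar (C := C) c'
  obtain ⟨β, hβ⟩ := exists_scalar (C := C) e'
  have hle : ∀ (a b : CC C), ⨆ i : {i : ℤ // (a.X.dim : ℤ) ≤ i}, C.gr (a.X.prod b.X) i ≤
      Fi a b 0 := by
    intro a b
    refine iSup_le fun i => ?_
    refine le_trans ?_ (G_le a b (n := 0) (i := i - a.X.dim) (by have := i.2; omega))
    change _ ≤ C.gr (a.X.prod b.X) (a.X.dim + (i - a.X.dim))
    rw [add_sub_cancel]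
  have h1 : V - r • (gs f ≫ gp f') ∈ Fi a b 0 := hle a b hr
  have h2 : W - r' • (gs f' ≫ gp f) ∈ Fi b a 0 := hle b a hr'
  have h3 : gp f ≫ V - α • gp f' ∈ Fi _ b 1 := by
    have e1 : gp f ≫ V = gp f' ≫ mu c := hc
    have e2 : gp f ≫ V - α • gp f' = gp f' ≫ (mu c - α • 𝟙 b) := by
      rw [e1, Preadditive.comp_sub, Linear.comp_smul, Category.comp_id]
    rw [e2]
    have := Fi_comp (G_le _ _ (le_refl 0) (gp_mem (C := C) f')) hα
    rwa [zero_add] at this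
  have h4 : gp f' ≫ W - α' • gp f ∈ Fi _ a 1 := by
    have e1 : gp f' ≫ W = gp f ≫ mu c' := hc'
    have e2 : gp f' ≫ W - α' • gp f = gp f ≫ (mu c' - α' • 𝟙 a) := by
      rw [e1, Preadditive.comp_sub, Linear.comp_smul, Category.comp_id]
    rw [e2]
    have := Fi_comp (G_le _ _ (le_refl 0) (gp_mem (C := C) f)) hα'
    rwa [zero_add] at this
  have h5 : W ≫ gs f - β • gs f' ∈ Fi b _ 0 := by
    have e1 : W ≫ gs f = mu e' ≫ gs f' := he'
    have e2 : W ≫ gs f - β • gs f' = (mu e' - β • 𝟙 b) ≫ gs f' := by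
      rw [e1, Preadditive.sub_comp, Linear.smul_comp, Category.id_comp]
    rw [e2]
    have := Fi_comp hβ (G_le _ _ (le_refl (-1)) (gs_mem (C := C) f' hX'))
    rwa [show (1 : ℤ) + -1 = 0 by norm_num] at this
  have hne : gs (C := C) f' ≫ gp f' ≠ 0 := by
    intro h0
    have e1 : (gp f' ≫ mu ξ' ≫ gs f') ≫ (gp f' ≫ mu ξ' ≫ gs f') =
        (gp f' ≫ mu ξ') ≫ (gs f' ≫ gp f') ≫ (mu ξ' ≫ gs f') := by
      simp only [Category.assoc]
    rw [h0, Limits.zero_comp, Limits.comp_zero, hm1', Linear.smul_comp, Linear.comp_smul,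
      Category.id_comp, smul_smul] at e1
    rcases smul_eq_zero.1 e1 with h6 | h6
    · exact mul_ne_zero hq0' hq0' h6
    · exact hB h6
  have hf1 : gp f ≫ (q⁻¹ • mu ξ) ≫ gs f = 𝟙 (⟨B⟩ : CC C) := by
    rw [Linear.smul_comp, Linear.comp_smul, hm1, smul_smul, inv_mul_cancel₀ hq0, one_smul]
  obtain ⟨Z, hZ, Z', hZ', hZ1, hZ2, hZ3⟩ := relative_iso (a := a) (b := b) (gs_mem (C := C) f hX)
    (gp_mem (C := C) f) (gs_mem (C := C) f' hX') (gp_mem (C := C) f')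
    (Submodule.smul_mem _ q⁻¹ (mu_mem (C := C) hξ)) (gp_gs f hX) hf1 (gp_gs f' hX') hne h1 h3 h2
    h4 h5 hvw hwv
  refine ⟨Z, Z', ?_, ?_, hZ1, hZ2, hZ3⟩
  · have h6 : Z ∈ C.gr (X.prod X') (X.dim + 0) := hZ
    rwa [add_zero] at h6
  · have h6 : Z' ∈ C.gr (X'.prod X) (X'.dim + 0) := hZ'
    rw [add_zero, hX', ← hX] at h6
    exact h6

end Pool.Agent.Y111.OR
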