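import Pool.Agent.TH133.Defs

/-!
# Hard Lefschetz, the Lefschetz involution, and Hodge forms
-/

open CategoryTheory AlgebraicGeometry

universe u v w

namespace Pool.Agent.Y111.OR

open Pool.Agent.H914 Pool.Agent.H914.VarClass Pool.Agent.H914.VarClass.Obj Pool.Agent.W492.BB
  Pool.Agent.W550.Corr Pool.Agent.TH133

variable {k : Type u} [Field k] {𝒱 : VarClass k}

/-- The action on cohomology of an algebraic correspondence (of any degree). -/
noncomputable def cact {C : TheoryData.{u, v, 0} 𝒱 ℚ} (H : WeilTheoryData.{u, v, 0} C ℚ)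
    {X Y : 𝒱.Obj} (Γ : C.A (X.prod Y)) (a : H.A X) : H.A Y := H.act (H.cl Γ) a

/-- The cohomology class `h^n a`. -/
noncomputable def lpow {C : TheoryData.{u, v, 0} 𝒱 ℚ} (H : WeilTheoryData.{u, v, 0} C ℚ)
    {X : 𝒱.Obj} (h : C.A X) (n : ℕ) (a : H.A X) : H.A X := H.cl h ^ n * a

/-- The class `a` is primitive of degree `k` for the divisor class `h` on `X`. -/
def IsPrimitive {C : TheoryData.{u, v, 0} 𝒱 ℚ} (H : WeilTheoryData.{u, v, 0} C ℚ)
    {X : 𝒱.Obj} (h : C.A X) (k : ℕ) (a : H.A X) : Prop :=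
  k ≤ X.dim ∧ H.Deg k a ∧ lpow H h (X.dim - k + 1) a = 0

/-- The hard Lefschetz theorem for the divisor class `h` on `X`. -/
structure HardLefschetz {C : TheoryData.{u, v, 0} 𝒱 ℚ} (H : WeilTheoryData.{u, v, 0} C ℚ)
    (X : 𝒱.Obj) (h : C.A X) : Prop where
  deg : C.Deg 1 h
  inj : ∀ (i : ℕ) (a : H.A X), i ≤ X.dim → H.Deg i a → lpow H h (X.dim - i) a = 0 → a = 0
  surj : ∀ (i : ℕ) (b : H.A X), i ≤ X.dim → H.Deg (2 * X.dim - i) b →
    ∃ a : H.A X, H.Deg i a ∧ lpow H h (X.dim - i) a = b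

/-- The class `σ ∈ CH(X × X)` (of mixed degree) acts on cohomology as the Lefschetz involution
`h^j a ↦ (-1)^(k(k-1)/2) h^(dim X - k - j) a`, for `a` primitive of degree `k`. -/
def IsLefschetzInvolution {C : TheoryData.{u, v, 0} 𝒱 ℚ} (H : WeilTheoryData.{u, v, 0} C ℚ)
    (X : 𝒱.Obj) (h : C.A X) (σ : C.A (X.prod X)) : Prop :=
  ∀ (k j : ℕ) (a : H.A X), IsPrimitive H h k a → j ≤ X.dim - k →
    cact H σ (lpow H h j a) = (-1 : ℚ) ^ (k * (k - 1) / 2) • lpow H h (X.dim - k - j) a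

/-- The classes `π i ∈ CH(X × X)` induce the Kunneth projectors. -/
def IsKunneth {C : TheoryData.{u, v, 0} 𝒱 ℚ} (H : WeilTheoryData.{u, v, 0} C ℚ)
    (X : 𝒱.Obj) (π : ℕ → C.A (X.prod X)) : Prop :=
  ∀ (i : ℕ) (l : ℤ) (a : H.A X), H.Deg l a → cact H (π i) a = if l = i then a else 0

/-- The Lefschetz standard conjecture: the Lefschetz involution and the Kunneth projectors are
algebraic (the second follows from the first). -/
def LefschetzConj {C : TheoryData.{u, v, 0} 𝒱 ℚ} (H : WeilTheoryData.{u, v, 0} C ℚ)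
    (X : 𝒱.Obj) (h : C.A X) : Prop :=
  (∃ σ : C.A (X.prod X), IsLefschetzInvolution H X h σ) ∧
    ∃ π : ℕ → C.A (X.prod X), IsKunneth H X π

/-- Real-valued biadditive forms `form X` on the cohomology of every variety `X`, for which the
transpose of an algebraic correspondence is its adjoint. The main example is the form
`∫_X a J(b)`, for the Weil operator `J`, multiplication by `i^(q-p)` on `H^{p,q}`: it commutes
with the action of algebraic correspondences. -/
structure HodgeForm {C : TheoryData.{u, v, 0} 𝒱 ℚ} (H : WeilTheoryData.{u, v, 0} C ℚ) where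
  form : ∀ X : 𝒱.Obj, H.A X → H.A X → ℝ
  add_left : ∀ (X : 𝒱.Obj) (a a' b : H.A X), form X (a + a') b = form X a b + form X a' b
  add_right : ∀ (X : 𝒱.Obj) (a b b' : H.A X), form X a (b + b') = form X a b + form X a b'
  adj : ∀ (X Y : 𝒱.Obj) (Γ : C.A (X.prod Y)) (a : H.A X) (b : H.A Y),
    form Y (cact H Γ a) b = form X a (cact H (tp C Γ) b)

/-- The Hodge-Riemann bilinear relations, for the variety `X` and the divisor class `h`:
`(-1)^(k(k-1)/2) S(h^(dim X - k) a, a) > 0` for every non-zero primitive class `a` of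
degree `k`. -/
def HodgeForm.Riemann {C : TheoryData.{u, v, 0} 𝒱 ℚ} {H : WeilTheoryData.{u, v, 0} C ℚ}
    (S : HodgeForm H) (X : 𝒱.Obj) (h : C.A X) : Prop :=
  ∀ (k : ℕ) (a : H.A X), IsPrimitive H h k a → a ≠ 0 →
    0 < (-1 : ℝ) ^ (k * (k - 1) / 2) * S.form X (lpow H h (X.dim - k) a) a

/-- The class `v = v_0 + v_1 + ⋯ + v_(2d)` on `X × Y`, where `v_i` has codimension `i`, has the
properties of the Mukai vector `ch(E) √td(X × Y)` of the kernel `E` of an equivalence between the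
derived categories of `X` and `Y`, of dimension `d`: the correspondence `v` is invertible, and its
inverse is `(-1)^d` times the transpose of the dual class `v_0 - v_1 + v_2 - ⋯` (this is the Mukai
vector of the kernel `E^∨ ⊗ ω [d]` of the inverse equivalence, since
`E ⊗ p^* ω_X ≅ E ⊗ q^* ω_Y`). -/
structure IsMukaiVector (C : TheoryData.{u, v, 0} 𝒱 ℚ) (X Y : 𝒱.Obj)
    (v : ℕ → C.A (X.prod Y)) : Prop where
  deg : ∀ i : ℕ, C.Deg i (v i)
  left : C.comp (∑ i ∈ Finset.range (2 * X.dim + 1), v i)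
    (∑ i ∈ Finset.range (2 * X.dim + 1), (-1 : ℚ) ^ (i + X.dim) • tp C (v i)) = dg C X
  right : C.comp (∑ i ∈ Finset.range (2 * X.dim + 1), (-1 : ℚ) ^ (i + X.dim) • tp C (v i))
    (∑ i ∈ Finset.range (2 * X.dim + 1), v i) = dg C Y

/-- The homological motives `h^i(X)` and `h^i(Y)` are isomorphic: there are correspondences of
degree zero between `X` and `Y` inducing mutually inverse isomorphisms between `H^i(X)` and
`H^i(Y)`. -/
def MotiveIsoAt {C : TheoryData.{u, v, 0} 𝒱 ℚ} (H : WeilTheoryData.{u, v, 0} C ℚ) (X Y : 𝒱.Obj)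
    (i : ℕ) : Prop :=
  ∃ (Γ : C.A (X.prod Y)) (Δ : C.A (Y.prod X)), C.Deg X.dim Γ ∧ C.Deg Y.dim Δ ∧
    (∀ a : H.A X, H.Deg i a → cact H Δ (cact H Γ a) = a) ∧
    (∀ b : H.A Y, H.Deg i b → cact H Γ (cact H Δ b) = b)

/-- The homological motives of `X` and `Y` are isomorphic. -/
def MotiveIso {C : TheoryData.{u, v, 0} 𝒱 ℚ} (H : WeilTheoryData.{u, v, 0} C ℚ) (X Y : 𝒱.Obj) :
    Prop :=
  ∃ (Γ : C.A (X.prod Y)) (Δ : C.A (Y.prod X)), C.Deg X.dim Γ ∧ C.Deg Y.dim Δ ∧
    (∀ a : H.A X, cact H Δ (cact H Γ a) = a) ∧ (∀ b : H.A Y, cact H Γ (cact H Δ b) = b)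

/-- The Chow motives of `X` and `Y` are isomorphic. -/
def ChowMotiveIso (C : TheoryData.{u, v, 0} 𝒱 ℚ) (X Y : 𝒱.Obj) : Prop :=
  ∃ (Z : C.A (X.prod Y)) (Z' : C.A (Y.prod X)), C.Deg X.dim Z ∧ C.Deg Y.dim Z' ∧
    C.comp Z Z' = dg C X ∧ C.comp Z' Z = dg C Y

/-- The composition powers of a self-correspondence. -/
noncomputable def corPow (C : TheoryData.{u, v, 0} 𝒱 ℚ) {X : 𝒱.Obj} (n : C.A (X.prod X)) :
    ℕ → C.A (X.prod X)
  | 0 => dg C X
  | m + 1 => C.comp (corPow C n m) n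

/-- The homologically trivial self-correspondences of degree zero of `X` are nilpotent (a
consequence of the finite-dimensionality of the Chow motive of `X` in the sense of Kimura). -/
def NilpotentKernel {C : TheoryData.{u, v, 0} 𝒱 ℚ} (H : WeilTheoryData.{u, v, 0} C ℚ)
    (X : 𝒱.Obj) : Prop :=
  ∀ n : C.A (X.prod X), C.Deg X.dim n → H.cl n = 0 → ∃ N : ℕ, corPow C n N = 0

end Pool.Agent.Y111.OR
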