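import Pool.Agent.Y111.OR.Thm

/-!
# From homological motives to Chow motives
-/

open CategoryTheory AlgebraicGeometry Finset

universe u v w

namespace Pool.Agent.Y111.OR

open Pool.Agent.H914 Pool.Agent.H914.VarClass Pool.Agent.H914.VarClass.Obj Pool.Agent.W492.BB
  Pool.Agent.W550.Corr Pool.Agent.TH133

set_option linter.unusedSectionVars false

variable {k : Type u} [Field k] {𝒱 : VarClass k}

/-- The homologically trivial self-correspondences of degree zero of `X` are nilpotent (a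
consequence of the finite-dimensionality of the Chow motive of `X` in the sense of Kimura). -/
def HomNilpotent {C : TheoryData.{u, v, 0} 𝒱 ℚ} [IsChowProj C] (H : WeilTheoryData.{u, v, 0} C ℚ)
    (X : 𝒱.Obj) : Prop :=
  ∀ n : Cor C X, C.Deg (X := X.prod X) X.dim n → H.cl (X := X.prod X) n = 0 → IsNilpotent n

/-- The Chow motives of `X` and `Y` are isomorphic. -/
def ChowIso (C : TheoryData.{u, v, 0} 𝒱 ℚ) (X Y : 𝒱.Obj) : Prop :=
  ∃ (Z : C.A (X.prod Y)) (Z' : C.A (Y.prod X)), C.Deg X.dim Z ∧ C.Deg Y.dim Z' ∧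
    C.comp Z Z' = dg C X ∧ C.comp Z' Z = dg C Y

/-- The homological motives of `X` and `Y` are isomorphic. -/
def HomIso {C : TheoryData.{u, v, 0} 𝒱 ℚ} (H : WeilTheoryData.{u, v, 0} C ℚ) (X Y : 𝒱.Obj) :
    Prop :=
  ∃ (Z : C.A (X.prod Y)) (Z' : C.A (Y.prod X)), C.Deg X.dim Z ∧ C.Deg Y.dim Z' ∧
    (∀ a : H.A X, H.act (H.cl Z') (H.act (H.cl Z) a) = a) ∧
    (∀ b : H.A Y, H.act (H.cl Z) (H.act (H.cl Z') b) = b)

variable {C : TheoryData.{u, v, 0} 𝒱 ℚ}
  [hC : IsChowProj C] {H : WeilTheoryData.{u, v, 0} C ℚ} [hH : IsWeilProj H] {X Y Z : 𝒱.Obj}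

/-- A self-correspondence of degree zero acting as the identity on cohomology is invertible. -/
lemma exists_inverse (hn : HomNilpotent H X) {p : C.A (X.prod X)} (hp : C.Deg X.dim p)
    (h1 : ∀ a : H.A X, opr H p a = a) : ∃ r : C.A (X.prod X), C.Deg X.dim r ∧
      C.comp p r = dg C X ∧ C.comp r p = dg C X := by
  set P : Cor C X := p with hP
  have hP0 : P ∈ cor0 C X := hp
  have h2 : H.cl (X := X.prod X) (1 - P : Cor C X) = 0 := by
    apply eq_zero_of_act H
    intro a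
    have h3 : opr H (dg C X - p) a = 0 := by
      rw [opr_sub, opr_dg, LinearMap.sub_apply, LinearMap.id_apply, h1, sub_self]
    exact h3
  have h3 : (1 - P : Cor C X) ∈ cor0 C X := (cor0 C X).sub_mem (cor0 C X).one_mem hP0
  obtain ⟨N, hN⟩ := hn (1 - P) h3 h2
  set r : Cor C X := ∑ i ∈ range N, (1 - P) ^ i with hr
  have hr0 : r ∈ cor0 C X := (cor0 C X).sum_mem fun i _ => (cor0 C X).pow_mem h3 i
  have e1 : r * P = 1 := by
    have := geom_sum_mul_neg (1 - P) N
    rw [hN, sub_zero, sub_sub_cancel] at this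
    exact this
  have e2 : P * r = 1 := by
    have := mul_neg_geom_sum (1 - P) N
    rw [hN, sub_zero, sub_sub_cancel] at this
    exact this
  exact ⟨r, hr0, e1, e2⟩

theorem chowIso_of_homIso (hX : HomNilpotent H X) (hY : HomNilpotent H Y) (hd : Y.dim = X.dim)
    (h : HomIso H X Y) : ChowIso C X Y := by
  obtain ⟨Γ, Δ, hΓ, hΔ, h1, h2⟩ := h
  have m1 : C.Deg X.dim (C.comp Γ Δ) := by
    have := comp_mem C (X := X) (Y := Y) (Z := X) (e := 0) (e' := 0) (Γ := Γ) (Δ := Δ)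
      (by rw [add_zero]; exact hΓ) (by rw [add_zero]; exact hΔ)
    rwa [add_zero, add_zero] at this
  have m2 : C.Deg Y.dim (C.comp Δ Γ) := by
    have := comp_mem C (X := Y) (Y := X) (Z := Y) (e := 0) (e' := 0) (Γ := Δ) (Δ := Γ)
      (by rw [add_zero]; exact hΔ) (by rw [add_zero]; exact hΓ)
    rwa [add_zero, add_zero] at this
  obtain ⟨r, hr, hr1, _⟩ := exists_inverse hX m1 (fun a => by
    rw [opr_comp]; exact h1 a)
  obtain ⟨q, _, _, hq2⟩ := exists_inverse hY m2 (fun a => by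
    rw [opr_comp]; exact h2 a)
  have e1 : C.comp Γ (C.comp Δ r) = dg C X := by rw [← comp_assoc, hr1]
  have e2 : C.comp (C.comp q Δ) Γ = dg C Y := by rw [comp_assoc, hq2]
  have e3 : C.comp q Δ = C.comp Δ r := by
    calc C.comp q Δ = C.comp (C.comp q Δ) (dg C X) := (comp_dg C _).symm
      _ = C.comp (C.comp q Δ) (C.comp Γ (C.comp Δ r)) := by rw [e1]
      _ = C.comp (C.comp (C.comp q Δ) Γ) (C.comp Δ r) := (comp_assoc C _ _ _).symm
      _ = C.comp Δ r := by rw [e2, dg_comp]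
  refine ⟨Γ, C.comp Δ r, hΓ, ?_, e1, by rw [← e3, e2]⟩
  have := comp_mem C (X := Y) (Y := X) (Z := X) (e := 0) (e' := 0) (Γ := Δ) (Δ := r)
    (by rw [add_zero]; exact hΔ) (by rw [add_zero]; exact hr)
  rwa [add_zero, add_zero] at this

end Pool.Agent.Y111.OR
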