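import Pool.Agent.Y111.OR.HDef
import Pool.Agent.Y111.OR.Lift

/-!
# Hodge forms and the Hodge-Riemann relations
-/

open CategoryTheory AlgebraicGeometry Finset

universe u v w

namespace Pool.Agent.Y111.OR

open Pool.Agent.H914 Pool.Agent.H914.VarClass Pool.Agent.H914.VarClass.Obj Pool.Agent.W492.BB
  Pool.Agent.W550.Corr Pool.Agent.TH133

set_option linter.unusedSectionVars false

variable {k : Type u} [Field k] {𝒱 : VarClass k}

section dec

variable {V : Type*} [AddCommGroup V] [Module ℚ V] {gr : ℤ → Submodule ℚ V} {d : ℕ}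
  {L : V →ₗ[ℚ] V}

lemma Prim.zero {k : ℕ} (hk : k ≤ d) : Prim gr d L k 0 :=
  ⟨hk, Submodule.zero_mem _, map_zero _⟩

lemma Prim.add {k : ℕ} {a b : V} (ha : Prim gr d L k a) (hb : Prim gr d L k b) :
    Prim gr d L k (a + b) :=
  ⟨ha.1, Submodule.add_mem _ ha.2.1 hb.2.1, by rw [map_add, ha.2.2, hb.2.2, add_zero]⟩

lemma Prim.smul {k : ℕ} {a : V} (c : ℚ) (ha : Prim gr d L k a) : Prim gr d L k (c • a) :=
  ⟨ha.1, Submodule.smul_mem _ _ ha.2.1, by rw [map_smul, ha.2.2, smul_zero]⟩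

/-- The index set of the Lefschetz decomposition. -/
def ix (d : ℕ) : Finset (ℕ × ℕ) := (range (d + 1) ×ˢ range (d + 1)).filter fun p => p.2 ≤ d - p.1

/-- Every class has a Lefschetz decomposition. -/
lemma exists_dec (h : IsLef gr d L) (x : V) : ∃ a : ℕ × ℕ → V,
    (∀ p ∈ ix d, Prim gr d L p.1 (a p)) ∧ x = ∑ p ∈ ix d, (L ^ p.2) (a p) := by
  classical
  have hzero : ∃ a : ℕ × ℕ → V, (∀ p ∈ ix d, Prim gr d L p.1 (a p)) ∧
      (0 : V) = ∑ p ∈ ix d, (L ^ p.2) (a p) := by
    refine ⟨fun _ => 0, fun p hp => Prim.zero ?_, by simp⟩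
    simp only [ix, mem_filter, mem_product, mem_range] at hp
    omega
  have hadd : ∀ x y : V, (∃ a : ℕ × ℕ → V, (∀ p ∈ ix d, Prim gr d L p.1 (a p)) ∧
      x = ∑ p ∈ ix d, (L ^ p.2) (a p)) → (∃ a : ℕ × ℕ → V,
      (∀ p ∈ ix d, Prim gr d L p.1 (a p)) ∧ y = ∑ p ∈ ix d, (L ^ p.2) (a p)) →
      ∃ a : ℕ × ℕ → V, (∀ p ∈ ix d, Prim gr d L p.1 (a p)) ∧
        x + y = ∑ p ∈ ix d, (L ^ p.2) (a p) := by
    rintro x y ⟨a, ha, rfl⟩ ⟨b, hb, rfl⟩
    refine ⟨fun p => a p + b p, fun p hp => (ha p hp).add (hb p hp), ?_⟩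
    rw [← sum_add_distrib]
    exact sum_congr rfl fun p _ => (map_add _ _ _).symm
  have h2 : x ∈ ⨆ i, gr i := by rw [h.top]; trivial
  refine Submodule.iSup_induction gr (motive := fun x => ∃ a : ℕ × ℕ → V,
    (∀ p ∈ ix d, Prim gr d L p.1 (a p)) ∧ x = ∑ p ∈ ix d, (L ^ p.2) (a p)) h2 ?_ hzero hadd
  intro i
  refine h.ind i ?_ hzero hadd ?_
  · intro k j a ha hj _
    have hk := ha.1
    have hmem : (k, j) ∈ ix d := by
      simp only [ix, mem_filter, mem_product, mem_range]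
      omega
    refine ⟨fun p => if p = (k, j) then a else 0, ?_, ?_⟩
    · intro p hp
      by_cases h1 : p = (k, j)
      · simp only [if_pos h1]
        rw [h1]; exact ha
      · simp only [if_neg h1]
        refine Prim.zero ?_
        simp only [ix, mem_filter, mem_product, mem_range] at hp
        omega
    · rw [sum_eq_single (k, j)]
      · simp
      · intro p _ hp
        simp [hp]
      · exact fun h' => absurd hmem h'
  · rintro c x ⟨a, ha, rfl⟩
    refine ⟨fun p => c • a p, fun p hp => (ha p hp).smul c, ?_⟩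
    rw [smul_sum]
    exact sum_congr rfl fun p _ => (map_smul _ _ _).symm

end dec

variable {C : TheoryData.{u, v, 0} 𝒱 ℚ}
  [hC : IsChowProj C] {H : WeilTheoryData.{u, v, 0} C ℚ} [hH : IsWeilProj H] {X Y Z : 𝒱.Obj}

/-- The bilinear form of a Hodge form. -/
noncomputable def HodgeForm.bil (S : HodgeForm H) (X : 𝒱.Obj) : H.A X →ₗ[ℚ] H.A X →ₗ[ℚ] ℝ :=
  (AddMonoidHom.mk' (fun a => (AddMonoidHom.mk' (fun b => S.form X a b)
    (S.add_right X a)).toRatLinearMap) (fun a a' => by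
      ext b
      exact S.add_left X a a' b)).toRatLinearMap

lemma HodgeForm.bil_apply (S : HodgeForm H) (a b : H.A X) : S.bil X a b = S.form X a b := rfl

/-- The form `S(a, σ b)`. -/
noncomputable def HodgeForm.pos (S : HodgeForm H) (σX : C.A (X.prod X)) :
    H.A X →ₗ[ℚ] H.A X →ₗ[ℚ] ℝ := (S.bil X).compl₂ (opr H σX)

lemma HodgeForm.pos_apply (S : HodgeForm H) (σX : C.A (X.prod X)) (a b : H.A X) :
    S.pos σX a b = S.form X a (opr H σX b) := rfl

lemma HodgeForm.adj' (S : HodgeForm H) (Γ : C.A (X.prod Y)) (a : H.A X) (b : H.A Y) :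
    S.form Y (opr H Γ a) b = S.form X a (opr H (tp C Γ) b) := S.adj X Y Γ a b

section hodge

variable (S : HodgeForm H) {hX : C.A X} {σX : C.A (X.prod X)} {πX : ℕ → C.A (X.prod X)}
  {hY : C.A Y} {σY : C.A (Y.prod Y)} {πY : ℕ → C.A (Y.prod Y)}
  (LX : LefschetzB H X hX σX πX) (LY : LefschetzB H Y hY σY πY)

include LX in
/-- The adjoint of an algebraic correspondence for the positive forms. -/
lemma HodgeForm.adjF : AdjF H σX σY (S.pos σX) (S.pos σY) := by
  intro Γ a b
  rw [S.pos_apply, S.pos_apply, S.adj', LX.star_sq']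

include LX in
lemma HodgeForm.deg [FiniteDimensional ℚ (H.A X)] {i : ℤ} {j : ℕ} {a b : H.A X}
    (ha : a ∈ H.gr X i) (hb : b ∈ H.gr X j) (hij : i + j ≠ 2 * X.dim) : S.form X a b = 0 := by
  have h1 : opr H (tp C (πX j)) a = 0 := by
    apply right_nondeg (H := H)
    intro x
    rw [← tr_opr]
    have := LX.pi_mem j x
    exact cup_eq_zero H this ha (by omega)
  have h2 : S.form X a (opr H (πX j) b) = S.form X (opr H (tp C (πX j)) a) b := by
    rw [S.adj', tp_tp]
  rw [LX.pi_self j b hb] at h2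
  rw [h2, h1]
  have := LinearMap.map_zero₂ (S.bil X) b
  exact this

include LX in
lemma HodgeForm.lo_adj [FiniteDimensional ℚ (H.A X)] (a b : H.A X) :
    S.form X (lo H hX a) b = S.form X a (lo H hX b) := by
  have h1 : lo H hX = opr H (C.mulCorr hX) := (opr_mulCorr H hX).symm
  have h2 : opr H (tp C (C.mulCorr hX)) = lo H hX := by
    ext b
    rw [← sub_eq_zero]
    apply right_nondeg (H := H)
    intro a
    rw [mul_sub, map_sub, ← tr_opr, ← h1, lo, LinearMap.mulLeft_apply, LinearMap.mulLeft_apply,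
      H.cl_central, mul_assoc, sub_self]
  conv_lhs => rw [h1]
  rw [S.adj', h2]

include LX in
lemma HodgeForm.lo_pow_adj [FiniteDimensional ℚ (H.A X)] (n : ℕ) (a b : H.A X) :
    S.form X ((lo H hX ^ n) a) b = S.form X a ((lo H hX ^ n) b) := by
  induction n generalizing a b with
  | zero => rfl
  | succ n ih =>
    rw [pow_succ, Module.End.mul_apply, ih, S.lo_adj LX, ← Module.End.mul_apply, ← pow_succ',
      pow_succ]

include LX in
/-- The form `S(a, σ b)` is positive definite. -/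
lemma HodgeForm.pos_pos [FiniteDimensional ℚ (H.A X)] (hR : S.Riemann X hX) (x : H.A X)
    (hx : x ≠ 0) : 0 < S.pos σX x x := by
  classical
  have hL : ∀ (n : ℕ) (a : H.A X), (lo H hX ^ n) a = H.cl hX ^ n * a := by
    intro n a
    rw [lo, LinearMap.pow_mulLeft, LinearMap.mulLeft_apply]
  have hsmul : ∀ (q : ℚ) (a b : H.A X), S.form X a (q • b) = q • S.form X a b := by
    intro q a b
    have := (S.bil X a).map_smul q b
    exact this
  have hzr : ∀ a : H.A X, S.form X a 0 = 0 := fun a => (S.bil X a).map_zero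
  have hzl : ∀ b : H.A X, S.form X 0 b = 0 := fun b => LinearMap.map_zero₂ (S.bil X) b
  -- the value on `L^j a` and `L^j' a'`
  have hval : ∀ (j : ℕ) (a : H.A X) (k' j' : ℕ) (a' : H.A X),
      Prim (H.gr X) X.dim (lo H hX) k' a' → j' ≤ X.dim - k' →
      S.pos σX ((lo H hX ^ j) a) ((lo H hX ^ j') a') =
        (-1 : ℝ) ^ (k' * (k' - 1) / 2) *
          S.form X ((lo H hX ^ (j + (X.dim - k' - j'))) a) a' := by
    intro j a k' j' a' ha' hj'
    have hs := LX.isStar' k' j' a' ha' hj'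
    rw [S.pos_apply]
    change S.form X _ (so H σX ((lo H hX ^ j') a')) = _
    rw [hs, hsmul, ← S.lo_pow_adj LX, ← Module.End.mul_apply, ← pow_add, add_comm j,
      Rat.smul_def, eps]
    push_cast
    rfl
  -- orthogonality
  have horth : ∀ p ∈ ix X.dim, ∀ p' ∈ ix X.dim, p ≠ p' → ∀ a a' : H.A X,
      Prim (H.gr X) X.dim (lo H hX) p.1 a → Prim (H.gr X) X.dim (lo H hX) p'.1 a' →
      S.pos σX ((lo H hX ^ p.2) a) ((lo H hX ^ p'.2) a') = 0 := by
    rintro ⟨k, j⟩ hp ⟨k', j'⟩ hp' hne a a' ha ha'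
    simp only [ix, mem_filter, mem_product, mem_range] at hp hp'
    simp only at ha ha'
    rw [hval j a k' j' a' ha' hp'.2]
    have h0 : S.form X ((lo H hX ^ (j + (X.dim - k' - j'))) a) a' = 0 := by
      by_cases hkj : k + 2 * j = k' + 2 * j'
      · have hkk : k ≠ k' := by
          rintro rfl
          apply hne
          have : j = j' := by omega
          rw [this]
        rcases Nat.lt_or_gt_of_ne hkk with h1 | h1
        · rw [S.lo_pow_adj LX,
            show j + (X.dim - k' - j') = (j + (X.dim - k' - j') - (X.dim - k' + 1)) +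
              (X.dim - k' + 1) by omega, pow_add, Module.End.mul_apply, ha'.2.2, map_zero, hzr]
        · rw [show j + (X.dim - k' - j') = (j + (X.dim - k' - j') - (X.dim - k + 1)) +
              (X.dim - k + 1) by omega, pow_add, Module.End.mul_apply, ha.2.2, map_zero, hzl]
      · have hmem := LX.isLef'.deg_pow (j + (X.dim - k' - j')) k a ha.2.1
        refine S.deg LX hmem ha'.2.1 ?_
        intro h3
        apply hkj
        have h4 : ((X.dim - k' - j' : ℕ) : ℤ) = X.dim - k' - j' := by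
          rw [Nat.cast_sub hp'.2, Nat.cast_sub (by omega)]
        push_cast [h4] at h3
        have : (k : ℤ) + 2 * j = k' + 2 * j' := by linarith
        exact_mod_cast this
    rw [h0, mul_zero]
  have hdiag : ∀ p ∈ ix X.dim, ∀ a : H.A X, Prim (H.gr X) X.dim (lo H hX) p.1 a → a ≠ 0 →
      0 < S.pos σX ((lo H hX ^ p.2) a) ((lo H hX ^ p.2) a) := by
    rintro ⟨k, j⟩ hp a ha ha0
    simp only [ix, mem_filter, mem_product, mem_range] at hp
    simp only at ha
    rw [hval j a k j a ha hp.2, show j + (X.dim - k - j) = X.dim - k by omega, hL]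
    refine hR k a ⟨ha.1, ha.2.1, ?_⟩ ha0
    have := ha.2.2
    rw [hL] at this
    exact this
  obtain ⟨a, ha, hxa⟩ := exists_dec LX.isLef' x
  have hexp : S.pos σX x x = ∑ p ∈ ix X.dim,
      S.pos σX ((lo H hX ^ p.2) (a p)) ((lo H hX ^ p.2) (a p)) := by
    conv_lhs => rw [hxa]
    rw [map_sum]
    refine sum_congr rfl fun p hp => ?_
    rw [map_sum, LinearMap.sum_apply, sum_eq_single p]
    · intro p' hp' hpp
      exact horth p' hp' p hp hpp _ _ (ha p' hp') (ha p hp)
    · exact fun h => absurd hp h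
  have hnn : ∀ p ∈ ix X.dim,
      0 ≤ S.pos σX ((lo H hX ^ p.2) (a p)) ((lo H hX ^ p.2) (a p)) := by
    intro p hp
    by_cases h0 : a p = 0
    · simp [h0]
    · exact (hdiag p hp (a p) (ha p hp) h0).le
  rw [hexp]
  refine lt_of_le_of_ne (sum_nonneg hnn) fun h0 => hx ?_
  have h1 := (sum_eq_zero_iff_of_nonneg hnn).1 h0.symm
  rw [hxa]
  refine sum_eq_zero fun p hp => ?_
  have h2 : a p = 0 := by
    by_contra h3
    exact (hdiag p hp (a p) (ha p hp) h3).ne' (h1 p hp)
  rw [h2, map_zero]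

include LX LY in
/-- **Main theorem.** -/
theorem main_par [FiniteDimensional ℚ (H.A X)] [FiniteDimensional ℚ (H.A Y)]
    (hRX : S.Riemann X hX) (hRY : S.Riemann Y hY) (hd : Y.dim = X.dim)
    {v : ℕ → C.A (X.prod Y)} (hv : IsMukai C X Y v) (e : ℕ)
    (hlow : ∀ i : ℕ, 1 ≤ i → i + 3 ≤ X.dim → Even (i + e) → IsoAt H X Y i) (i : ℕ)
    (hie : Even (i + e)) : IsoAt H X Y i := by
  rcases le_or_gt i (2 * X.dim) with hi | hi
  · exact isoAt_of_low LX LY hd (S.adjF LX) (S.adjF LX) (S.adjF LY) (S.adjF LY)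
      (S.pos_pos LX hRX) (S.pos_pos LY hRY) hv e hlow i hi hie
  · refine ⟨0, 0, Submodule.zero_mem _, Submodule.zero_mem _, fun a ha => ?_, fun b hb => ?_⟩
    · have h1 : a ∈ H.gr X (i : ℤ) := ha
      rw [gr_high H _ (by exact_mod_cast hi), Submodule.mem_bot] at h1
      rw [map_zero, H.act_zero, h1]
    · have h1 : b ∈ H.gr Y (i : ℤ) := hb
      rw [gr_high H _ (by rw [hd]; exact_mod_cast hi), Submodule.mem_bot] at h1
      rw [map_zero, H.act_zero, h1]

include LX LY in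
theorem main_hom (hd : Y.dim = X.dim) (h : ∀ i : ℕ, IsoAt H X Y i) : HomIso H X Y := by
  obtain ⟨Γ, Δ, h1, h2, h3, h4⟩ := hom_iso_of_isoAt LX LY hd fun i _ => h i
  exact ⟨Γ, Δ, h1, by rw [hd]; exact h2, h3, h4⟩

end hodge

lemma homNilpotent_of (h : NilpotentKernel H X) : HomNilpotent H X := by
  intro n hn h0
  obtain ⟨N, hN⟩ := h n hn h0
  have h1 : ∀ m : ℕ, corPow C (X := X) n m = n ^ m := by
    intro m
    induction m with
    | zero => rfl
    | succ m ih =>
      rw [corPow, ih, pow_succ']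
      rfl
  exact ⟨N, by rw [← h1, hN]; rfl⟩

/-- The Lefschetz data used in the proofs. -/
lemma exists_lefschetzB {h : C.A X} (h1 : HardLefschetz H X h) (h2 : LefschetzConj H X h) :
    ∃ (σ : C.A (X.prod X)) (π : ℕ → C.A (X.prod X)), LefschetzB H X h σ π := by
  obtain ⟨⟨σ, hσ⟩, π, hπ⟩ := h2
  exact ⟨σ, π, h1.deg, h1.inj, h1.surj, fun k j a hk hj ha h0 => hσ k j a ⟨hk, ha, h0⟩ hj, hπ⟩


/-- **Main theorem**, in the form of the final statement. -/
theorem main_final (S : HodgeForm H) (hdim : Y.dim = X.dim) [FiniteDimensional ℚ (H.A X)]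
    [FiniteDimensional ℚ (H.A Y)] {h : C.A X} {h' : C.A Y}
    (hLX : HardLefschetz H X h) (hLY : HardLefschetz H Y h')
    (hBX : LefschetzConj H X h) (hBY : LefschetzConj H Y h')
    (hRX : S.Riemann X h) (hRY : S.Riemann Y h')
    {v : ℕ → C.A (X.prod Y)} (hv : IsMukaiVector C X Y v) :
    (∀ e : ℕ, (∀ i : ℕ, 1 ≤ i → i + 3 ≤ X.dim → Even (i + e) → MotiveIsoAt H X Y i) →
      ∀ i : ℕ, Even (i + e) → MotiveIsoAt H X Y i) ∧
    ((∀ i : ℕ, 1 ≤ i → i + 3 ≤ X.dim → MotiveIsoAt H X Y i) →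
      MotiveIso H X Y ∧
        (NilpotentKernel H X → NilpotentKernel H Y → ChowMotiveIso C X Y)) := by
  obtain ⟨σ, π, LX⟩ := exists_lefschetzB hLX hBX
  obtain ⟨σ', π', LY⟩ := exists_lefschetzB hLY hBY
  have hpar := main_par S LX LY hRX hRY hdim (v := v) ⟨hv.deg, hv.left, hv.right⟩
  refine ⟨hpar, fun hlow => ?_⟩
  have hmain : HomIso H X Y := main_hom LX LY hdim fun i =>
    hpar i (fun j h1 h2 _ => hlow j h1 h2) i ⟨i, rfl⟩
  exact ⟨hmain, fun hNX hNY =>
    chowIso_of_homIso (homNilpotent_of hNX) (homNilpotent_of hNY) hdim hmain⟩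

end Pool.Agent.Y111.OR
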