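import Mathlib

/-!
# The Lefschetz decomposition and the involution `L^j a ↦ ± L^(d-k-j) a`
-/

namespace Pool.Agent.Y111.OR

variable {V : Type*} [AddCommGroup V] [Module ℚ V]

/-- The sign `(-1)^(k(k-1)/2)`. -/
def eps (k : ℕ) : ℚ := (-1) ^ (k * (k - 1) / 2)

lemma eps_mul_self (k : ℕ) : eps k * eps k = 1 := by
  rw [eps, ← mul_pow]; simp

lemma eps_add_two (k : ℕ) : eps (k + 2) = -eps k := by
  have h : (k + 2) * (k + 2 - 1) / 2 = k * (k - 1) / 2 + (2 * k + 1) := by
    rcases k with _ | k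
    · rfl
    · have h1 : (k + 1 + 2) * (k + 1 + 2 - 1) = (k + 1) * (k + 1 - 1) + 2 * (2 * (k + 1) + 1) := by
        have e1 : k + 1 + 2 - 1 = k + 2 := rfl
        have e2 : k + 1 - 1 = k := rfl
        rw [e1, e2]; ring
      rw [h1]
      omega
  rw [eps, eps, h, pow_add, pow_succ, pow_mul]
  simp

lemma eps_add_two_mul (k j : ℕ) : eps (k + 2 * j) = (-1) ^ j * eps k := by
  induction j with
  | zero => simp
  | succ j ih =>
    rw [show k + 2 * (j + 1) = k + 2 * j + 2 by ring, eps_add_two, ih, pow_succ]; ring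

/-- A graded vector space with a hard Lefschetz operator `L`, of degree two, centred at `d`. -/
structure IsLef (gr : ℤ → Submodule ℚ V) (d : ℕ) (L : V →ₗ[ℚ] V) : Prop where
  top : ⨆ i, gr i = ⊤
  bot : ∀ i : ℤ, (i < 0 ∨ 2 * d < i) → gr i = ⊥
  deg : ∀ (i : ℤ) (x : V), x ∈ gr i → L x ∈ gr (i + 2)
  inj : ∀ i : ℕ, i ≤ d → ∀ x ∈ gr i, (L ^ (d - i)) x = 0 → x = 0
  surj : ∀ i : ℕ, i ≤ d → ∀ y ∈ gr (2 * d - i), ∃ x ∈ gr i, (L ^ (d - i)) x = y

/-- The class `a` is primitive of degree `k`. -/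
def Prim (gr : ℤ → Submodule ℚ V) (d : ℕ) (L : V →ₗ[ℚ] V) (k : ℕ) (a : V) : Prop :=
  k ≤ d ∧ a ∈ gr k ∧ (L ^ (d - k + 1)) a = 0

variable {gr : ℤ → Submodule ℚ V} {d : ℕ} {L : V →ₗ[ℚ] V}

namespace IsLef

variable (h : IsLef gr d L)

include h

lemma deg_pow (j : ℕ) (i : ℤ) (x : V) (hx : x ∈ gr i) : (L ^ j) x ∈ gr (i + 2 * j) := by
  induction j with
  | zero => simpa using hx
  | succ j ih =>
    rw [pow_succ', Module.End.mul_apply]
    have := h.deg _ _ ih
    rwa [show i + 2 * (j : ℤ) + 2 = i + 2 * ((j + 1 : ℕ) : ℤ) by push_cast; ring] at this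

/-- The classes `L^j a`, `a` primitive of degree `k`, `k + 2 j = i`, `j ≤ d - k`. -/
lemma mem_span_low (i : ℕ) (hi : i ≤ d) : ∀ x ∈ gr i, x ∈ Submodule.span ℚ
    {y | ∃ (k j : ℕ) (a : V), Prim gr d L k a ∧ j ≤ d - k ∧ k + 2 * j = i ∧ y = (L ^ j) a} := by
  induction i using Nat.strong_induction_on with
  | _ i ih =>
    intro x hx
    by_cases h2 : 2 ≤ i
    · have hy : (L ^ (d - i + 1)) x ∈ gr (2 * d - (i - 2 : ℕ)) := by
        have := h.deg_pow (d - i + 1) i x hx
        have e : (i : ℤ) + 2 * ((d - i + 1 : ℕ) : ℤ) = 2 * d - ((i - 2 : ℕ) : ℤ) := by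
          push_cast [Nat.cast_sub hi, Nat.cast_sub h2]; ring
        rwa [e] at this
      obtain ⟨y, hy1, hy2⟩ := h.surj (i - 2) (by omega) _ hy
      have e1 : d - (i - 2) = (d - i + 1) + 1 := by omega
      have hLy : L y ∈ gr i := by
        have := h.deg _ _ hy1
        have e : ((i - 2 : ℕ) : ℤ) + 2 = i := by push_cast [Nat.cast_sub h2]; ring
        rwa [e] at this
      have hprim : Prim gr d L i (x - L y) := by
        refine ⟨hi, Submodule.sub_mem _ hx hLy, ?_⟩
        rw [map_sub, ← hy2, e1, pow_succ L (d - i + 1), Module.End.mul_apply, sub_self]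
      have hx' : x = (x - L y) + L y := by abel
      rw [hx']
      refine Submodule.add_mem _ (Submodule.subset_span ⟨i, 0, x - L y, hprim, Nat.zero_le _,
        by omega, by simp⟩) ?_
      have h3 := ih (i - 2) (by omega) (by omega) y hy1
      refine Submodule.span_induction (p := fun y _ => L y ∈ Submodule.span ℚ
        {y | ∃ (k j : ℕ) (a : V), Prim gr d L k a ∧ j ≤ d - k ∧ k + 2 * j = i ∧ y = (L ^ j) a})
        ?_ ?_ ?_ ?_ h3
      · rintro _ ⟨k, j, a, ha, hj, hkj, rfl⟩
        refine Submodule.subset_span ⟨k, j + 1, a, ha, ?_, by omega, ?_⟩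
        · have := ha.1; omega
        · rw [pow_succ', Module.End.mul_apply]
      · rw [map_zero]; exact Submodule.zero_mem _
      · intro y z _ _ hy hz
        rw [map_add]; exact Submodule.add_mem _ hy hz
      · intro c y _ hy
        rw [map_smul]; exact Submodule.smul_mem _ _ hy
    · refine Submodule.subset_span ⟨i, 0, x, ⟨hi, hx, ?_⟩, Nat.zero_le _, by omega, by simp⟩
      have := h.deg_pow (d - i + 1) i x hx
      rw [h.bot _ (Or.inr (by push_cast [Nat.cast_sub hi]; omega))] at this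
      exact (Submodule.mem_bot _).1 this

lemma mem_span (i : ℤ) : ∀ x ∈ gr i, x ∈ Submodule.span ℚ
    {y | ∃ (k j : ℕ) (a : V), Prim gr d L k a ∧ j ≤ d - k ∧ ((k + 2 * j : ℕ) : ℤ) = i ∧
      y = (L ^ j) a} := by
  intro x hx
  rcases lt_or_ge i 0 with h0 | h0
  · rw [h.bot i (Or.inl h0)] at hx
    rw [(Submodule.mem_bot _).1 hx]; exact Submodule.zero_mem _
  obtain ⟨n, rfl⟩ := Int.eq_ofNat_of_zero_le h0
  rcases le_or_gt n d with h1 | h1
  · have := h.mem_span_low n h1 x hx
    refine Submodule.span_mono ?_ this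
    rintro _ ⟨k, j, a, ha, hj, hkj, rfl⟩
    exact ⟨k, j, a, ha, hj, by exact_mod_cast hkj, rfl⟩
  rcases le_or_gt n (2 * d) with h2 | h2
  · have hx' : x ∈ gr (2 * d - (2 * d - n : ℕ)) := by
      have e : (2 * (d : ℤ)) - ((2 * d - n : ℕ) : ℤ) = n := by
        push_cast [Nat.cast_sub h2]; ring
      rw [e]; exact hx
    obtain ⟨y, hy, rfl⟩ := h.surj (2 * d - n) (by omega) x hx'
    have h3 := h.mem_span_low (2 * d - n) (by omega) y hy
    refine Submodule.span_induction (p := fun y _ => (L ^ (d - (2 * d - n))) y ∈ Submodule.span ℚ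
        {y | ∃ (k j : ℕ) (a : V), Prim gr d L k a ∧ j ≤ d - k ∧ ((k + 2 * j : ℕ) : ℤ) = n ∧
          y = (L ^ j) a}) ?_ ?_ ?_ ?_ h3
    · rintro _ ⟨k, j, a, ha, hj, hkj, rfl⟩
      have := ha.1
      refine Submodule.subset_span ⟨k, d - (2 * d - n) + j, a, ha, by omega, ?_, ?_⟩
      · norm_cast; omega
      · rw [pow_add, Module.End.mul_apply]
    · rw [map_zero]; exact Submodule.zero_mem _
    · intro y z _ _ hy hz
      rw [map_add]; exact Submodule.add_mem _ hy hz
    · intro c y _ hy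
      rw [map_smul]; exact Submodule.smul_mem _ _ hy
  · rw [h.bot _ (Or.inr (by exact_mod_cast h2))] at hx
    rw [(Submodule.mem_bot _).1 hx]; exact Submodule.zero_mem _

/-- Induction on the classes of degree `i`. -/
lemma ind (i : ℤ) {p : V → Prop} (hp : ∀ (k j : ℕ) (a : V), Prim gr d L k a → j ≤ d - k →
    ((k + 2 * j : ℕ) : ℤ) = i → p ((L ^ j) a)) (h0 : p 0) (hadd : ∀ x y, p x → p y → p (x + y))
    (hsmul : ∀ (c : ℚ) x, p x → p (c • x)) : ∀ x ∈ gr i, p x := by
  intro x hx
  refine Submodule.span_induction (p := fun x _ => p x) ?_ h0 (fun x y _ _ => hadd x y)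
    (fun c x _ => hsmul c x) (h.mem_span i x hx)
  rintro _ ⟨k, j, a, ha, hj, hi, rfl⟩
  exact hp k j a ha hj hi

/-- Two linear maps agreeing on the classes `L^j a` agree. -/
lemma ext {M : Type*} [AddCommGroup M] [Module ℚ M] {f g : V →ₗ[ℚ] M}
    (hfg : ∀ (k j : ℕ) (a : V), Prim gr d L k a → j ≤ d - k → f ((L ^ j) a) = g ((L ^ j) a)) :
    f = g := by
  have h1 : ∀ i, gr i ≤ LinearMap.eqLocus f g := fun i x hx =>
    h.ind i (p := fun x => f x = g x) (fun k j a ha hj _ => hfg k j a ha hj)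
      (by rw [map_zero, map_zero]) (fun x y hx hy => by rw [map_add, map_add, hx, hy])
      (fun c x hx => by rw [map_smul, map_smul, hx]) x hx
  have h2 : (⊤ : Submodule ℚ V) ≤ LinearMap.eqLocus f g := by
    rw [← h.top]; exact iSup_le h1
  ext x
  exact h2 (Submodule.mem_top : x ∈ ⊤)

lemma ext_deg {M : Type*} [AddCommGroup M] [Module ℚ M] {f g : V →ₗ[ℚ] M}
    (hfg : ∀ (i : ℤ) (x : V), x ∈ gr i → f x = g x) : f = g := by
  have h2 : (⊤ : Submodule ℚ V) ≤ LinearMap.eqLocus f g := by
    rw [← h.top]; exact iSup_le fun i x hx => hfg i x hx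
  ext x
  exact h2 (Submodule.mem_top : x ∈ ⊤)

end IsLef

/-- The operator `S` maps `L^j a` to `± L^(d-k-j) a`, for `a` primitive of degree `k`. -/
def IsStar (gr : ℤ → Submodule ℚ V) (d : ℕ) (L S : V →ₗ[ℚ] V) : Prop :=
  ∀ (k j : ℕ) (a : V), Prim gr d L k a → j ≤ d - k →
    S ((L ^ j) a) = eps k • (L ^ (d - k - j)) a

variable {S : V →ₗ[ℚ] V} (h : IsLef gr d L) (hS : IsStar gr d L S)

include h hS

lemma star_sq : S ∘ₗ S = LinearMap.id := by
  refine h.ext fun k j a ha hj => ?_
  rw [LinearMap.comp_apply, hS k j a ha hj, map_smul, hS k (d - k - j) a ha (Nat.sub_le _ _),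
    smul_smul, eps_mul_self, one_smul, LinearMap.id_apply,
    show d - k - (d - k - j) = j by omega]

lemma star_deg (i : ℤ) (x : V) (hx : x ∈ gr i) : S x ∈ gr (2 * d - i) := by
  refine h.ind i (p := fun x => S x ∈ gr (2 * d - i)) ?_ ?_ ?_ ?_ x hx
  · intro k j a ha hj hi
    rw [hS k j a ha hj]
    refine Submodule.smul_mem _ _ ?_
    have h1 := h.deg_pow (d - k - j) k a ha.2.1
    have e : (k : ℤ) + 2 * ((d - k - j : ℕ) : ℤ) = 2 * d - i := by
      rw [← hi]
      have h2 := ha.1
      have h3 : ((d - k - j : ℕ) : ℤ) = d - k - j := by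
        rw [Nat.cast_sub hj, Nat.cast_sub h2]
      rw [h3]; push_cast; ring
    rwa [e] at h1
  · rw [map_zero]; exact Submodule.zero_mem _
  · intro x y hx hy
    rw [map_add]; exact Submodule.add_mem _ hx hy
  · intro c x hx
    rw [map_smul]; exact Submodule.smul_mem _ _ hx

/-- The operator `Λ = S L S` lowers the exponent of `L`. -/
lemma lam_succ {k j : ℕ} {a : V} (ha : Prim gr d L k a) (hj : j + 1 ≤ d - k) :
    S (L (S ((L ^ (j + 1)) a))) = (L ^ j) a := by
  rw [hS k (j + 1) a ha hj, map_smul, map_smul, ← Module.End.mul_apply (f := L), ← pow_succ',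
    hS k (d - k - (j + 1) + 1) a ha (by omega), smul_smul, eps_mul_self, one_smul,
    show d - k - (d - k - (j + 1) + 1) = j by omega]

lemma lam_zero {k : ℕ} {a : V} (ha : Prim gr d L k a) : S (L (S a)) = 0 := by
  have h1 : S a = eps k • (L ^ (d - k)) a := by
    have := hS k 0 a ha (Nat.zero_le _)
    simpa using this
  rw [h1, map_smul, map_smul, ← Module.End.mul_apply (f := L), ← pow_succ', ha.2.2, map_zero,
    smul_zero]

/-- `Λ L` is the identity below the middle degree. -/
lemma lam_L {i : ℤ} (hi : i < d) (x : V) (hx : x ∈ gr i) : S (L (S (L x))) = x := by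
  refine h.ind i (p := fun x => S (L (S (L x))) = x) ?_ ?_ ?_ ?_ x hx
  · intro k j a ha hj hkj
    rw [← Module.End.mul_apply (f := L) (g := L ^ j), ← pow_succ']
    exact lam_succ h hS ha (by have := ha.1; omega)
  · simp only [map_zero]
  · intro x y hx hy
    simp only [map_add, hx, hy]
  · intro c x hx
    simp only [map_smul, hx]

/-- The projectors `ρ i` onto the sum of the `L^j P^(i-2j)` with `j` even. -/
def rho (π : ℕ → (V →ₗ[ℚ] V)) (L Λ : V →ₗ[ℚ] V) : ℕ → (V →ₗ[ℚ] V)
  | 0 => π 0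
  | 1 => π 1
  | (i + 2) => π (i + 2) - L ∘ₗ rho π L Λ i ∘ₗ Λ ∘ₗ π (i + 2)

lemma rho_apply {π : ℕ → (V →ₗ[ℚ] V)} (hπ : ∀ (i : ℕ) (x : V), x ∈ gr i → π i x = x) (i : ℕ) :
    i ≤ d → ∀ (k j : ℕ) (a : V), Prim gr d L k a → k + 2 * j = i →
      rho π L (S ∘ₗ L ∘ₗ S) i ((L ^ j) a) = if Even j then (L ^ j) a else 0 := by
  induction i using Nat.strong_induction_on with
  | _ i ih =>
    intro hi k j a ha hkj
    have hmem : (L ^ j) a ∈ gr (i : ℤ) := by
      have := h.deg_pow j k a ha.2.1
      rwa [show (k : ℤ) + 2 * (j : ℤ) = (i : ℤ) by rw [← hkj]; push_cast; ring] at this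
    match i, hi, ih, hkj, hmem with
    | 0, _, _, hkj, hmem =>
      have hj : j = 0 := by omega
      subst hj
      rw [rho, hπ 0 _ hmem]; simp
    | 1, _, _, hkj, hmem =>
      have hj : j = 0 := by omega
      subst hj
      rw [rho, hπ 1 _ hmem]; simp
    | i + 2, hi, ih, hkj, hmem =>
      rw [rho, LinearMap.sub_apply, LinearMap.comp_apply, LinearMap.comp_apply,
        LinearMap.comp_apply, hπ (i + 2) _ hmem, LinearMap.comp_apply, LinearMap.comp_apply]
      rcases j with _ | j
      · rw [pow_zero, Module.End.one_apply, lam_zero h hS ha, map_zero, map_zero, sub_zero]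
        simp
      · rw [lam_succ h hS ha (by have := ha.1; omega), ih i (by omega) (by omega) k j a ha
          (by omega)]
        by_cases hj : Even j
        · rw [if_pos hj, if_neg (by rw [Nat.even_add_one]; simpa using hj),
            ← Module.End.mul_apply, ← pow_succ', sub_self]
        · rw [if_neg hj, if_pos (by rw [Nat.even_add_one]; exact hj), map_zero, sub_zero]

/-- On the middle degree, `S` is the difference of `ρ` and its complement, up to a sign. -/
lemma star_middle {π : ℕ → (V →ₗ[ℚ] V)} (hπ : ∀ (i : ℕ) (x : V), x ∈ gr i → π i x = x) (x : V)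
    (hx : x ∈ gr (d : ℤ)) :
    eps d • S x = (2 : ℚ) • rho π L (S ∘ₗ L ∘ₗ S) d x - x := by
  refine h.ind d (p := fun x => eps d • S x = (2 : ℚ) • rho π L (S ∘ₗ L ∘ₗ S) d x - x)
    ?_ ?_ ?_ ?_ x hx
  · intro k j a ha hj hkj
    have hkj' : k + 2 * j = d := by exact_mod_cast hkj
    rw [hS k j a ha hj, rho_apply h hS hπ d le_rfl k j a ha hkj',
      show d - k - j = j by omega, smul_smul]
    have he : eps d = (-1) ^ j * eps k := by rw [← hkj', eps_add_two_mul]
    rw [he, mul_assoc, eps_mul_self, mul_one]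
    by_cases hj : Even j
    · rw [if_pos hj, hj.neg_one_pow]; module
    · rw [if_neg hj, (Nat.not_even_iff_odd.1 hj).neg_one_pow]; module
  · simp
  · intro x y hx hy
    simp only [map_add, smul_add, hx, hy]; module
  · intro c x hx
    rw [map_smul, map_smul, smul_comm, hx]; module

/-- The involution `S` is self-adjoint for a pairing for which `L` is self-adjoint. -/
lemma star_adj {P : V →ₗ[ℚ] V →ₗ[ℚ] ℚ} (hP : ∀ x y, P (L x) y = P x (L y))
    (hdeg : ∀ (i j : ℤ) (x y : V), x ∈ gr i → y ∈ gr j → i + j ≠ 2 * d → P x y = 0) (x y : V) :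
    P (S x) y = P x (S y) := by
  have hPp : ∀ (n : ℕ) (x y : V), P ((L ^ n) x) y = P x ((L ^ n) y) := by
    intro n
    induction n with
    | zero => intro x y; simp
    | succ n ih =>
      intro x y
      rw [pow_succ, Module.End.mul_apply, ih, hP, ← Module.End.mul_apply, ← pow_succ', pow_succ]
  have key : ∀ (k j : ℕ) (a : V), Prim gr d L k a → j ≤ d - k → ∀ (k' j' : ℕ) (a' : V),
      Prim gr d L k' a' → j' ≤ d - k' → P (S ((L ^ j) a)) ((L ^ j') a') =
        P ((L ^ j) a) (S ((L ^ j') a')) := by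
    intro k j a ha hj k' j' a' ha' hj'
    have hk := ha.1
    have hk' := ha'.1
    rw [hS k j a ha hj, hS k' j' a' ha' hj', map_smul, LinearMap.smul_apply, map_smul, hPp, hPp,
      ← Module.End.mul_apply, ← pow_add, ← Module.End.mul_apply, ← pow_add]
    by_cases hkj : k + 2 * j = k' + 2 * j'
    · by_cases hkk : k = k'
      · subst hkk
        have hjj : j = j' := by omega
        subst hjj
        rw [show d - k - j + j = j + (d - k - j) by omega]
      · have e : d - k - j + j' = j + (d - k' - j') := by omega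
        rw [e]
        have h0 : P a ((L ^ (j + (d - k' - j'))) a') = 0 := by
          rcases Nat.lt_or_gt_of_ne hkk with h1 | h1
          · have e2 : j + (d - k' - j') = (j + (d - k' - j') - (d - k' + 1)) + (d - k' + 1) := by
              omega
            rw [e2, pow_add, Module.End.mul_apply, ha'.2.2, map_zero, map_zero]
          · have e2 : j + (d - k' - j') = (j + (d - k' - j') - (d - k + 1)) + (d - k + 1) := by
              omega
            rw [← hPp, e2, pow_add, Module.End.mul_apply, ha.2.2, map_zero, map_zero,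
              LinearMap.zero_apply]
        rw [h0, smul_zero, smul_zero]
    · have h1 : P a ((L ^ (d - k - j + j')) a') = 0 := by
        refine hdeg k _ a _ ha.2.1 (h.deg_pow _ _ _ ha'.2.1) ?_
        intro h2
        apply hkj
        have h3 : ((d - k - j : ℕ) : ℤ) = d - k - j := by
          rw [Nat.cast_sub hj, Nat.cast_sub hk]
        push_cast [h3] at h2
        have : (k : ℤ) + 2 * j = k' + 2 * j' := by linarith
        exact_mod_cast this
      have h1' : P a ((L ^ (j + (d - k' - j'))) a') = 0 := by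
        refine hdeg k _ a _ ha.2.1 (h.deg_pow _ _ _ ha'.2.1) ?_
        intro h2
        apply hkj
        have h3 : ((d - k' - j' : ℕ) : ℤ) = d - k' - j' := by
          rw [Nat.cast_sub hj', Nat.cast_sub hk']
        push_cast [h3] at h2
        have : (k : ℤ) + 2 * j = k' + 2 * j' := by linarith
        exact_mod_cast this
      rw [h1, h1', smul_zero, smul_zero]
  have h1 : P.comp S = P.compl₂ S := by
    refine h.ext fun k j a ha hj => ?_
    refine h.ext fun k' j' a' ha' hj' => ?_
    rw [LinearMap.comp_apply, LinearMap.compl₂_apply]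
    exact key k j a ha hj k' j' a' ha' hj'
  have h2 := congrArg (fun f => f x y) h1
  simpa using h2

end Pool.Agent.Y111.OR
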