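import Pool.Agent.Y111.OR.DEq

/-!
# Derived equivalences and homological motives
-/

open CategoryTheory AlgebraicGeometry Finset

universe u v w

namespace Pool.Agent.Y111.OR

open Pool.Agent.H914 Pool.Agent.H914.VarClass Pool.Agent.H914.VarClass.Obj Pool.Agent.W492.BB
  Pool.Agent.W550.Corr Pool.Agent.TH133

set_option linter.unusedSectionVars false

variable {k : Type u} [Field k] {𝒱 : VarClass k}

/-- The class `v = v_0 + v_1 + ⋯ + v_(2d)` on `X × Y`, where `v_i` has codimension `i`, has the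
properties of the Mukai vector `ch(E) √td(X × Y)` of the kernel `E` of an equivalence between the
derived categories of `X` and `Y`, of dimension `d`: the correspondence `v` is invertible, and its
inverse is `(-1)^d` times the transpose of the dual class `v_0 - v_1 + v_2 - ⋯` (this is the Mukai
vector of the kernel `E^∨ ⊗ ω [d]` of the inverse equivalence, since
`E ⊗ p^* ω_X ≅ E ⊗ q^* ω_Y`). -/
structure IsMukai (C : TheoryData.{u, v, 0} 𝒱 ℚ) (X Y : 𝒱.Obj) (v : ℕ → C.A (X.prod Y)) : Prop where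
  deg : ∀ i : ℕ, C.Deg i (v i)
  left : C.comp (∑ i ∈ range (2 * X.dim + 1), v i)
    (∑ i ∈ range (2 * X.dim + 1), (-1 : ℚ) ^ (i + X.dim) • tp C (v i)) = dg C X
  right : C.comp (∑ i ∈ range (2 * X.dim + 1), (-1 : ℚ) ^ (i + X.dim) • tp C (v i))
    (∑ i ∈ range (2 * X.dim + 1), v i) = dg C Y

variable {C : TheoryData.{u, v, 0} 𝒱 ℚ}
  [hC : IsChowProj C] {H : WeilTheoryData.{u, v, 0} C ℚ} [hH : IsWeilProj H] {X Y Z : 𝒱.Obj}

section main

variable {hX : C.A X} {σX : C.A (X.prod X)} {πX : ℕ → C.A (X.prod X)} {hY : C.A Y}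
  {σY : C.A (Y.prod Y)} {πY : ℕ → C.A (Y.prod Y)}
  {BX : H.A X →ₗ[ℚ] H.A X →ₗ[ℚ] ℝ} {BY : H.A Y →ₗ[ℚ] H.A Y →ₗ[ℚ] ℝ}
  (LX : LefschetzB H X hX σX πX) (LY : LefschetzB H Y hY σY πY) (hd : Y.dim = X.dim)
  {v : ℕ → C.A (X.prod Y)} (hv : IsMukai C X Y v)

/-- The operator of the Mukai vector. -/
noncomputable def fo (H : WeilTheoryData.{u, v, 0} C ℚ) (v : ℕ → C.A (X.prod Y)) :
    H.A X →ₗ[ℚ] H.A Y := opr H (∑ i ∈ range (2 * X.dim + 1), v i)

/-- The operator of the inverse. -/
noncomputable def go (H : WeilTheoryData.{u, v, 0} C ℚ) (v : ℕ → C.A (X.prod Y)) :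
    H.A Y →ₗ[ℚ] H.A X :=
  opr H (∑ i ∈ range (2 * X.dim + 1), (-1 : ℚ) ^ (i + X.dim) • tp C (v i))

/-- The operator of the transpose. -/
noncomputable def fto (H : WeilTheoryData.{u, v, 0} C ℚ) (v : ℕ → C.A (X.prod Y)) :
    H.A Y →ₗ[ℚ] H.A X := opr H (tp C (∑ i ∈ range (2 * X.dim + 1), v i))

include hv

lemma go_fo (x : H.A X) : go H v (fo H v x) = x := by
  have h1 := opr_comp H (∑ i ∈ range (2 * X.dim + 1), v i)
    (∑ i ∈ range (2 * X.dim + 1), (-1 : ℚ) ^ (i + X.dim) • tp C (v i))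
  rw [hv.left, opr_dg] at h1
  exact (congrArg (fun f => f x) h1).symm

lemma fo_go (y : H.A Y) : fo H v (go H v y) = y := by
  have h1 := opr_comp H (∑ i ∈ range (2 * X.dim + 1), (-1 : ℚ) ^ (i + X.dim) • tp C (v i))
    (∑ i ∈ range (2 * X.dim + 1), v i)
  rw [hv.right, opr_dg] at h1
  exact (congrArg (fun f => f y) h1).symm

include hd LX LY

/-- The inverse is `D ∘ vᵗ ∘ D`. -/
lemma go_eq (y : H.A Y) :
    go H v y = dop X.dim (pj H πX) (fto H v (dop X.dim (pj H πY) y)) := by
  have h1 : go H v = dop X.dim (pj H πX) ∘ₗ fto H v ∘ₗ dop X.dim (pj H πY) := by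
    have LY' := LY.isLef'
    rw [hd] at LY'
    refine ext_nat LY' fun j hj y hy => ?_
    simp only [LinearMap.comp_apply]
    rw [dop_apply LY.isPi hj hy, map_smul, map_smul, go, fto, tp_sum, opr_sum, opr_sum,
      LinearMap.sum_apply, LinearMap.sum_apply, map_sum, smul_sum]
    refine sum_congr rfl fun i _ => ?_
    rw [opr_smul, LinearMap.smul_apply]
    have hmem : opr H (tp C (v i)) y ∈ H.gr X ((j : ℤ) + 2 * ((i : ℤ) - X.dim)) := by
      refine opr_mem H (e := (i : ℤ) - X.dim) ?_ hy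
      rw [hd, add_sub_cancel]
      exact tp_mem C (hv.deg i)
    rcases lt_or_ge ((j : ℤ) + 2 * ((i : ℤ) - X.dim)) 0 with h0 | h0
    · rw [H.gr_neg X _ h0, Submodule.mem_bot] at hmem
      rw [hmem, map_zero, smul_zero, smul_zero]
    rcases le_or_gt ((j : ℤ) + 2 * ((i : ℤ) - X.dim)) (2 * X.dim) with h1 | h1
    · obtain ⟨m, hm⟩ := Int.eq_ofNat_of_zero_le h0
      rw [hm] at hmem h1
      rw [dop_apply LX.isPi (i := m) (by exact_mod_cast h1) hmem, smul_smul]
      congr 1
      have e2 : m + 2 * X.dim = j + 2 * i := by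
        have : (m : ℤ) + 2 * X.dim = j + 2 * i := by rw [← hm]; ring
        exact_mod_cast this
      have e3 : j / 2 + m / 2 + 2 * X.dim = (i + X.dim) + 2 * (j / 2) := by omega
      have e4 : ((-1 : ℚ)) ^ (j / 2 + m / 2 + 2 * X.dim) = (-1) ^ ((i + X.dim) + 2 * (j / 2)) := by
        rw [e3]
      rw [pow_add _ _ (2 * X.dim), pow_mul, pow_add _ (i + X.dim), pow_mul] at e4
      simp only [even_two, Even.neg_pow, one_pow, mul_one] at e4
      rw [← e4, pow_add]
    · rw [gr_high H _ h1, Submodule.mem_bot] at hmem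
      rw [hmem, map_zero, smul_zero, smul_zero]
  exact congrArg (fun f => f y) h1

/-- The transpose of the Mukai vector, on the image of `D`. -/
lemma fto_fo (x : H.A X) :
    fto H v (dop X.dim (pj H πY) (fo H v x)) = dop X.dim (pj H πX) x := by
  have h1 := go_eq LX LY hd hv (fo H v x)
  rw [go_fo hv] at h1
  conv_rhs => rw [h1]
  rw [dop_sq LX.isLef' LX.isPi]

/-- The Mukai vector preserves the parity of the degree. -/
lemma fo_par (c : ℕ) (x : H.A X) : fo H v (parSum (pj H πX) X.dim c x) =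
    parSum (pj H πY) X.dim c (fo H v x) := by
  have h1 : fo H v ∘ₗ parSum (pj H πX) X.dim c = parSum (pj H πY) X.dim c ∘ₗ fo H v := by
    refine ext_nat LX.isLef' fun j hj x hx => ?_
    rw [LinearMap.comp_apply, LinearMap.comp_apply,
      par_apply LX.isLef' LX.isStar' LX.isPi c hj hx]
    have key : parSum (pj H πY) X.dim c (fo H v x) =
        if Even (j + c) then fo H v x else 0 := by
      rw [fo, opr_sum, LinearMap.sum_apply, map_sum]
      have h2 : ∀ i ∈ range (2 * X.dim + 1), parSum (pj H πY) X.dim c (opr H (v i) x) =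
          if Even (j + c) then opr H (v i) x else 0 := by
        intro i _
        have hmem : opr H (v i) x ∈ H.gr Y ((j : ℤ) + 2 * ((i : ℤ) - X.dim)) := by
          refine opr_mem H (e := (i : ℤ) - X.dim) ?_ hx
          rw [add_sub_cancel]
          exact hv.deg i
        rcases lt_or_ge ((j : ℤ) + 2 * ((i : ℤ) - X.dim)) 0 with h0 | h0
        · rw [H.gr_neg Y _ h0, Submodule.mem_bot] at hmem
          rw [hmem, map_zero]; simp
        rcases le_or_gt ((j : ℤ) + 2 * ((i : ℤ) - X.dim)) (2 * X.dim) with h1 | h1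
        · obtain ⟨m, hm⟩ := Int.eq_ofNat_of_zero_le h0
          rw [hm] at hmem h1
          have LY' := LY.isLef'
          have LYs := LY.isStar'
          rw [hd] at LY' LYs
          rw [par_apply LY' LYs LY.isPi c (i := m) (by exact_mod_cast h1) hmem]
          have e2 : m + 2 * X.dim = j + 2 * i := by
            have : (m : ℤ) + 2 * X.dim = j + 2 * i := by rw [← hm]; ring
            exact_mod_cast this
          have e3 : Even (m + c) ↔ Even (j + c) := by
            rw [Nat.even_iff, Nat.even_iff]; omega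
          simp only [e3]
        · rw [gr_high H _ (by rw [hd]; exact h1), Submodule.mem_bot] at hmem
          rw [hmem, map_zero]; simp
      rw [sum_congr rfl h2]
      split_ifs <;> simp
    rw [key]
    split_ifs <;> simp
  exact congrArg (fun f => f x) h1

lemma go_par (c : ℕ) (y : H.A Y) : go H v (parSum (pj H πY) X.dim c y) =
    parSum (pj H πX) X.dim c (go H v y) := by
  have h1 := fo_par LX LY hd hv c (go H v y)
  rw [fo_go hv] at h1
  rw [← h1, go_fo hv]

/-- The Mukai vector is an isometry. -/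
lemma fo_isometry [FiniteDimensional ℚ (H.A X)] [FiniteDimensional ℚ (H.A Y)]
    (hXX : AdjF H σX σX BX BX) (hXY : AdjF H σX σY BX BY) (x y : H.A X) :
    BY (fo H v (parSum (pj H πX) X.dim X.dim x)) (bet X.dim (so H σY) (pj H πY)
      (fo H v (parSum (pj H πX) X.dim X.dim y))) = BX x (bet X.dim (so H σX) (pj H πX) y) := by
  have LY' := LY.isLef'
  have LYs := LY.isStar'
  rw [hd] at LY' LYs
  have h1 := hXY (∑ i ∈ range (2 * X.dim + 1), v i) (parSum (pj H πX) X.dim X.dim x)
    (bet X.dim (so H σY) (pj H πY) (fo H v (parSum (pj H πX) X.dim X.dim y)))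
  have h2 : opr H σY (bet X.dim (so H σY) (pj H πY) (fo H v (parSum (pj H πX) X.dim X.dim y))) =
      (eps X.dim * (-1) ^ (X.dim / 2)) • dop X.dim (pj H πY)
        (parSum (pj H πY) X.dim X.dim (fo H v (parSum (pj H πX) X.dim X.dim y))) :=
    star_bet LY' LYs LY.isPi _
  have hEE : parSum (pj H πX) X.dim X.dim (parSum (pj H πX) X.dim X.dim y) =
      parSum (pj H πX) X.dim X.dim y := by
    have h3 : parSum (pj H πX) X.dim X.dim * parSum (pj H πX) X.dim X.dim =
        parSum (pj H πX) X.dim X.dim := by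
      rw [parSum, sum_mul_sum_idem (pi_idem LX.isLef' LX.isPi)
        (pi_orth LX.isLef' LX.isPi), inter_self]
    exact congrArg (fun f => f y) h3
  rw [h2, ← fo_par LX LY hd hv, hEE, map_smul] at h1
  have h3 := fto_fo LX LY hd hv (parSum (pj H πX) X.dim X.dim y)
  rw [fto] at h3
  rw [h3, map_smul] at h1
  have h4 : BX (parSum (pj H πX) X.dim X.dim x) (bet X.dim (so H σX) (pj H πX) y) =
      BX x (bet X.dim (so H σX) (pj H πX) y) := by
    rw [adj_par LX hXX]
    congr 1
    exact congrArg (fun f => f y) (bet_left LX.isLef' LX.isStar' LX.isPi)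
  rw [← h4, bet_eq LX.isLef' LX.isStar' LX.isPi]
  exact h1

end main

end Pool.Agent.Y111.OR
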