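import Pool.Agent.TH133.Base
import Pool.Agent.Y111.OR.Lef
import Pool.Agent.Y111.OR.Cmp

/-!
# Algebraic operators on cohomology
-/

open CategoryTheory AlgebraicGeometry

universe u v w

namespace Pool.Agent.Y111.OR

open Pool.Agent.H914 Pool.Agent.H914.VarClass Pool.Agent.H914.VarClass.Obj Pool.Agent.W492.BB
  Pool.Agent.W550.Corr Pool.Agent.TH133

set_option linter.unusedSectionVars false

variable {k : Type u} [Field k] {𝒱 : VarClass k} {C : TheoryData.{u, v, 0} 𝒱 ℚ}
  [hC : IsChowProj C] (H : WeilTheoryData.{u, v, 0} C ℚ) [hH : IsWeilProj H] {X Y Z : 𝒱.Obj}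

/-- The operator on cohomology defined by an algebraic correspondence (of any degree). -/
noncomputable def opr (Γ : C.A (X.prod Y)) : H.A X →ₗ[ℚ] H.A Y := H.actL (H.cl Γ)

/-- The operator `f` is algebraic. -/
def IsAlg (f : H.A X →ₗ[ℚ] H.A Y) : Prop := ∃ Γ : C.A (X.prod Y), f = opr H Γ

lemma opr_apply (Γ : C.A (X.prod Y)) (a : H.A X) : opr H Γ a = H.act (H.cl Γ) a := rfl

lemma opr_add (Γ Δ : C.A (X.prod Y)) : opr H (Γ + Δ) = opr H Γ + opr H Δ := by
  ext a
  rw [LinearMap.add_apply, opr_apply, opr_apply, opr_apply, map_add, H.act_add]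

lemma opr_sub (Γ Δ : C.A (X.prod Y)) : opr H (Γ - Δ) = opr H Γ - opr H Δ := by
  ext a
  rw [LinearMap.sub_apply, opr_apply, opr_apply, opr_apply, map_sub, H.act_sub]

lemma opr_zero : opr H (0 : C.A (X.prod Y)) = 0 := by
  ext a
  rw [opr_apply, map_zero, H.act_zero, LinearMap.zero_apply]

lemma opr_smul (q : ℚ) (Γ : C.A (X.prod Y)) : opr H (q • Γ) = q • opr H Γ := by
  ext a
  rw [LinearMap.smul_apply, opr_apply, opr_apply, map_rat_smul (H.cl) q Γ]
  have := congrArg (fun f => f a) (map_smul (actB H.toTheoryData (X := X) (Y := Y)) q (H.cl Γ))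
  exact this

lemma opr_sum {ι : Type*} (s : Finset ι) (Γ : ι → C.A (X.prod Y)) :
    opr H (∑ i ∈ s, Γ i) = ∑ i ∈ s, opr H (Γ i) := by
  classical
  induction s using Finset.induction_on with
  | empty => rw [Finset.sum_empty, Finset.sum_empty, opr_zero]
  | insert a s ha ih => rw [Finset.sum_insert ha, Finset.sum_insert ha, opr_add, ih]

lemma opr_comp (Γ : C.A (X.prod Y)) (Δ : C.A (Y.prod Z)) :
    opr H (C.comp Γ Δ) = opr H Δ ∘ₗ opr H Γ := by
  ext a
  have h1 : H.cl (C.comp Γ Δ) = H.comp (H.cl Γ) (H.cl Δ) := by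
    rw [TheoryData.comp, TheoryData.comp, H.cl_push, map_mul, H.cl_pull, H.cl_pull]
  rw [LinearMap.comp_apply, opr_apply, opr_apply, opr_apply, h1, H.act_comp]

lemma opr_dg : opr H (dg C X) = LinearMap.id := by
  ext a
  have h1 : H.cl (dg C X) = dg H.toTheoryData X := by
    rw [dg, dg, TheoryData.graph, TheoryData.graph, H.cl_push, map_one]
  rw [opr_apply, h1, act_dg, LinearMap.id_apply]

lemma opr_mulCorr (c : C.A X) : opr H (C.mulCorr c) = LinearMap.mulLeft ℚ (H.cl c) := by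
  ext a
  have h1 : H.cl (C.mulCorr c) = H.mulCorr (H.cl c) := by
    rw [TheoryData.mulCorr, TheoryData.mulCorr, H.cl_push]
  rw [opr_apply, h1, H.act_mulCorr, LinearMap.mulLeft_apply]

lemma opr_mem {e m : ℤ} {Γ : C.A (X.prod Y)} (hΓ : Γ ∈ C.gr (X.prod Y) (X.dim + e)) {a : H.A X}
    (ha : a ∈ H.gr X m) : opr H Γ a ∈ H.gr Y (m + 2 * e) := actH_mem H hΓ ha

/-- The action of the transpose is adjoint for the cup product pairing. -/
lemma tr_opr (Γ : C.A (X.prod Y)) (a : H.A X) (b : H.A Y) :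
    H.tr Y (opr H Γ a * b) = H.tr X (a * opr H (tp C Γ) b) := by
  rw [opr_apply, opr_apply, H.act_apply, H.act_apply, ← H.proj_right, H.tr_push, ← H.proj_left,
    H.tr_push, tp, H.cl_pull]
  have e1 : H.pull (snd Y X) a = H.pull (sw Y X) (H.pull (fst X Y) a) := by
    rw [← H.pull_comp]
    congr 1
    simp [sw]
  have e2 : H.pull (fst Y X) b = H.pull (sw Y X) (H.pull (snd X Y) b) := by
    rw [← H.pull_comp]
    congr 1
    simp [sw]
  rw [e1, e2, ← map_mul, ← map_mul, ← H.tr_push (sw Y X)]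
  have hI : HasIso H.toTheoryData := ⟨fun f g h1 h2 => by
    have h3 : C.push f 1 = 1 := hC.toHasIso.push_one f g h1 h2
    have h4 := congrArg H.cl h3
    rw [H.cl_push, map_one H.cl, map_one H.cl] at h4
    exact h4⟩
  rw [push_pull_iso H.toTheoryData (sw Y X) (sw X Y) sw_sw sw_sw, ← mul_assoc (H.pull (fst X Y) a),
    ← H.cl_central Γ, mul_assoc]

/-- The cup product pairing. -/
noncomputable def cup (X : 𝒱.Obj) : H.A X →ₗ[ℚ] H.A X →ₗ[ℚ] ℚ :=
  (LinearMap.mul ℚ (H.A X)).compr₂ (H.tr X)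

lemma cup_apply (a b : H.A X) : cup H X a b = H.tr X (a * b) := rfl

lemma cup_eq_zero {i j : ℤ} {a b : H.A X} (ha : a ∈ H.gr X i) (hb : b ∈ H.gr X j)
    (hij : i + j ≠ 2 * X.dim) : cup H X a b = 0 :=
  hH.tr_eq_zero X (i + j) _ (H.mul_mem ha hb) hij

lemma gr_high (i : ℤ) (hi : 2 * (X.dim : ℤ) < i) : H.gr X i = ⊥ := by
  rw [eq_bot_iff]
  intro a ha
  rw [Submodule.mem_bot]
  refine H.nondeg a fun b => ?_
  have h2 : b ∈ ⨆ i, H.gr X i := by
    rw [(H.isInternal X).submodule_iSup_eq_top]; trivial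
  refine Submodule.iSup_induction (H.gr X) (motive := fun b => H.tr X (a * b) = 0) h2 ?_ ?_ ?_
  · intro j b hb
    rcases lt_or_ge j 0 with h0 | h0
    · rw [H.gr_neg X j h0, Submodule.mem_bot] at hb
      rw [hb, mul_zero, map_zero]
    · exact cup_eq_zero H ha hb (by omega)
  · rw [mul_zero, map_zero]
  · intro b c hb hc
    rw [mul_add, map_add, hb, hc, add_zero]

/-- The variety `X` with the divisor class `h` satisfies the hard Lefschetz theorem, and the
Lefschetz standard conjecture: the class `σ ∈ CH(X × X)` (of mixed degree) acts on cohomology as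
the Lefschetz involution `L^j a ↦ (-1)^(k(k-1)/2) L^(dim X - k - j) a`, for `a` primitive of degree
`k`; and the classes `π i` induce the Kunneth projectors (their existence follows from that of
`σ`). -/
structure LefschetzB (X : 𝒱.Obj) (h : C.A X) (σ : C.A (X.prod X)) (π : ℕ → C.A (X.prod X)) :
    Prop where
  deg : C.Deg 1 h
  inj : ∀ (i : ℕ) (a : H.A X), i ≤ X.dim → H.Deg i a → H.cl h ^ (X.dim - i) * a = 0 → a = 0
  surj : ∀ (i : ℕ) (b : H.A X), i ≤ X.dim → H.Deg (2 * X.dim - i) b →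
    ∃ a : H.A X, H.Deg i a ∧ H.cl h ^ (X.dim - i) * a = b
  star : ∀ (k j : ℕ) (a : H.A X), k ≤ X.dim → j ≤ X.dim - k → H.Deg k a →
    H.cl h ^ (X.dim - k + 1) * a = 0 →
    H.act (H.cl σ) (H.cl h ^ j * a) = (-1 : ℚ) ^ (k * (k - 1) / 2) •
      (H.cl h ^ (X.dim - k - j) * a)
  kunneth : ∀ (i : ℕ) (l : ℤ) (a : H.A X), H.Deg l a →
    H.act (H.cl (π i)) a = if l = i then a else 0

variable {H}

section

variable {h : C.A X} {σ : C.A (X.prod X)} {π : ℕ → C.A (X.prod X)} (hB : LefschetzB H X h σ π)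

include hB

lemma LefschetzB.isLef : IsLef (H.gr X) X.dim (LinearMap.mulLeft ℚ (H.cl h)) where
  top := (H.isInternal X).submodule_iSup_eq_top
  bot := by
    rintro i (hi | hi)
    · exact H.gr_neg X i hi
    · exact gr_high H i hi
  deg i x hx := by
    rw [LinearMap.mulLeft_apply, add_comm]
    exact H.mul_mem (H.cl_mem hB.deg) hx
  inj i hi x hx h0 := by
    rw [LinearMap.pow_mulLeft, LinearMap.mulLeft_apply] at h0
    exact hB.inj i x hi hx h0
  surj i hi y hy := by
    obtain ⟨a, ha, hab⟩ := hB.surj i y hi hy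
    exact ⟨a, ha, by rw [LinearMap.pow_mulLeft, LinearMap.mulLeft_apply]; exact hab⟩

lemma LefschetzB.isStar :
    IsStar (H.gr X) X.dim (LinearMap.mulLeft ℚ (H.cl h)) (opr H σ) := by
  rintro k j a ⟨hk, ha, h0⟩ hj
  rw [LinearMap.pow_mulLeft, LinearMap.mulLeft_apply] at h0
  rw [LinearMap.pow_mulLeft, LinearMap.mulLeft_apply, LinearMap.pow_mulLeft,
    LinearMap.mulLeft_apply]
  exact hB.star k j a hk hj ha h0

lemma LefschetzB.pi_self (i : ℕ) (x : H.A X) (hx : x ∈ H.gr X i) : opr H (π i) x = x := by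
  rw [opr_apply, hB.kunneth i i x hx, if_pos rfl]

lemma LefschetzB.pi_ne (i : ℕ) (l : ℤ) (hl : l ≠ i) (x : H.A X) (hx : x ∈ H.gr X l) :
    opr H (π i) x = 0 := by
  rw [opr_apply, hB.kunneth i l x hx, if_neg hl]

lemma LefschetzB.pi_mem (i : ℕ) (x : H.A X) : opr H (π i) x ∈ H.gr X i := by
  have h2 : x ∈ ⨆ i, H.gr X i := by
    rw [(H.isInternal X).submodule_iSup_eq_top]; trivial
  refine Submodule.iSup_induction (H.gr X) (motive := fun x => opr H (π i) x ∈ H.gr X i) h2 ?_ ?_ ?_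
  · intro l y hy
    by_cases hl : l = i
    · subst hl; rw [hB.pi_self i y hy]; exact hy
    · rw [hB.pi_ne i l hl y hy]; exact Submodule.zero_mem _
  · rw [map_zero]; exact Submodule.zero_mem _
  · intro y z hy hz
    rw [map_add]; exact Submodule.add_mem _ hy hz

lemma LefschetzB.star_sq' (x : H.A X) : opr H σ (opr H σ x) = x := by
  have := congrArg (fun f => f x) (star_sq hB.isLef hB.isStar)
  exact this

lemma LefschetzB.star_adj' (a b : H.A X) :
    H.tr X (opr H σ a * b) = H.tr X (a * opr H σ b) := by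
  refine star_adj hB.isLef hB.isStar (P := cup H X) ?_ ?_ a b
  · intro x y
    rw [cup_apply, cup_apply, LinearMap.mulLeft_apply, LinearMap.mulLeft_apply, H.cl_central,
      mul_assoc]
  · intro i j x y hx hy hij
    exact cup_eq_zero H hx hy hij

omit hB in
lemma right_nondeg [FiniteDimensional ℚ (H.A X)] {z : H.A X}
    (hz : ∀ a, H.tr X (a * z) = 0) : z = 0 := by
  have hinj : Function.Injective (cup H X) := by
    rw [← LinearMap.ker_eq_bot, LinearMap.ker_eq_bot']
    intro a ha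
    refine H.nondeg a fun b => ?_
    rw [← cup_apply, ha, LinearMap.zero_apply]
  have hsurj : Function.Surjective (cup H X) := by
    rw [← LinearMap.injective_iff_surjective_of_finrank_eq_finrank]
    · exact hinj
    · exact (Subspace.dual_finrank_eq (K := ℚ) (V := H.A X)).symm
  rw [← Module.forall_dual_apply_eq_zero_iff ℚ]
  intro φ
  obtain ⟨a, ha⟩ := hsurj φ
  rw [← ha, cup_apply, hz]

lemma LefschetzB.opr_tp_sigma [FiniteDimensional ℚ (H.A X)] :
    opr H (tp C σ) = opr H σ := by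
  ext b
  rw [← sub_eq_zero]
  apply right_nondeg (H := H)
  intro a
  rw [mul_sub, map_sub, ← tr_opr, hB.star_adj', sub_self]

end

end Pool.Agent.Y111.OR
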