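import Pool.Agent.Y111.OR.Cat

/-!
# Relative equivalences with one-dimensional fibres: the formal argument
-/

open CategoryTheory AlgebraicGeometry

universe u v w

namespace Pool.Agent.Y111.OR

open Pool.Agent.H914 Pool.Agent.H914.VarClass Pool.Agent.H914.VarClass.Obj Pool.Agent.W492.BB
  Pool.Agent.W550.Corr Pool.Agent.TH133

variable {k : Type u} [Field k] {𝒱 : VarClass k} {C : TheoryData.{u, v, 0} 𝒱 ℚ}
  [hC : IsChowProj C]

/-- `1 + t m` is invertible, with an inverse of the form `1 - t m + (degree at least two)`. -/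
lemma exists_inv {a : CC C} {m : a ⟶ a} (hm : m ∈ G a a 1) (t : ℚ) :
    ∃ N N₂ : a ⟶ a, N = 𝟙 a - t • m + N₂ ∧ N₂ ∈ Fi a a 2 ∧
      (𝟙 a + t • m) ≫ N = 𝟙 a ∧ N ≫ (𝟙 a + t • m) = 𝟙 a := by
  -- powers of `-t m`
  set x : End a := End.of (-(t • m)) with hx
  have hpow : ∀ n : ℕ, (End.asHom (x ^ n) : a ⟶ a) ∈ G a a n := by
    intro n
    induction n with
    | zero => simpa using id_mem a
    | succ n ih =>
      rw [pow_succ']
      have h1 : (End.asHom (x * x ^ n) : a ⟶ a) = End.asHom (x ^ n) ≫ (-(t • m)) := rfl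
      rw [h1]
      have := G_comp ih (Submodule.neg_mem _ (Submodule.smul_mem _ t hm))
      exact_mod_cast this
  have hnil : x ^ (a.X.dim + 1) = 0 := by
    have := hpow (a.X.dim + 1)
    exact G_eq_zero (by push_cast; omega) this
  set S : End a := ∑ i ∈ Finset.range (a.X.dim + 1), x ^ i with hS
  have h1 : (1 - x) * S = 1 := by
    rw [hS, mul_neg_geom_sum, hnil, sub_zero]
  have h2 : S * (1 - x) = 1 := by
    rw [hS, geom_sum_mul_neg, hnil, sub_zero]
  have hxe : (1 - x : End a) = End.of (𝟙 a + t • m) := by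
    change 𝟙 a - -(t • m) = 𝟙 a + t • m
    abel
  have e1 : (End.asHom S : a ⟶ a) ≫ (𝟙 a + t • m) = 𝟙 a := by
    have : (1 - x) * S = (1 : End a) := h1
    rw [hxe] at this
    exact this
  have e2 : (𝟙 a + t • m) ≫ (End.asHom S : a ⟶ a) = 𝟙 a := by
    have : S * (1 - x) = (1 : End a) := h2
    rw [hxe] at this
    exact this
  have hSF : (End.asHom S : a ⟶ a) ∈ Fi a a 0 := by
    change (∑ i ∈ Finset.range (a.X.dim + 1), x ^ i : End a) ∈ Fi a a 0
    refine Submodule.sum_mem (Fi a a 0) fun i _ => ?_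
    exact G_le a a (by positivity) (hpow i)
  refine ⟨End.asHom S, t • t • (m ≫ m ≫ End.asHom S), ?_, ?_, e2, e1⟩
  · have e3 : (End.asHom S : a ⟶ a) = 𝟙 a - t • (m ≫ End.asHom S) := by
      rw [Preadditive.add_comp, Category.id_comp, Linear.smul_comp] at e2
      exact eq_sub_of_add_eq e2
    calc (End.asHom S : a ⟶ a) = 𝟙 a - t • (m ≫ End.asHom S) := e3
      _ = 𝟙 a - t • (m ≫ (𝟙 a - t • (m ≫ End.asHom S))) := by rw [← e3]; exact e3
      _ = _ := by
        rw [Preadditive.comp_sub, Category.comp_id, Linear.comp_smul, smul_sub]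
        abel
  · refine Submodule.smul_mem _ _ (Submodule.smul_mem _ _ ?_)
    have h3 := Fi_comp (G_le a a (le_refl 1) hm) (Fi_comp (G_le a a (le_refl 1) hm) hSF)
    simpa using h3

variable {a b B : CC C}

/-- The formal argument for equivalences relative to a base with one-dimensional fibres. -/
theorem relative_iso {fs : a ⟶ B} {fp : B ⟶ a} {hs : b ⟶ B} {hp : B ⟶ b} {m : a ⟶ a}
    (hfs : fs ∈ G a B (-1)) (hfp : fp ∈ G B a 0) (hhs : hs ∈ G b B (-1)) (hhp : hp ∈ G B b 0)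
    (hm : m ∈ G a a 1) (hf0 : fp ≫ fs = 0) (hf1 : fp ≫ m ≫ fs = 𝟙 B) (hh0 : hp ≫ hs = 0)
    (hne : hs ≫ hp ≠ 0) {v : a ⟶ b} {w : b ⟶ a} {r r' α α' β : ℚ}
    (hv : v - r • (fs ≫ hp) ∈ Fi a b 0) (hv1 : fp ≫ v - α • hp ∈ Fi B b 1)
    (hw : w - r' • (hs ≫ fp) ∈ Fi b a 0) (hw1 : hp ≫ w - α' • fp ∈ Fi B a 1)
    (hw2 : w ≫ fs - β • hs ∈ Fi b B 0) (hvw : v ≫ w = 𝟙 a) (hwv : w ≫ v = 𝟙 b) :
    ∃ Z ∈ G a b 0, ∃ Z' ∈ G b a 0, Z ≫ Z' = 𝟙 a ∧ Z' ≫ Z = 𝟙 b ∧ fp ≫ Z = hp := by
  have hhpne : hp ≠ 0 := by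
    rintro rfl
    exact hne (by rw [Limits.comp_zero])
  -- the number `α` is not zero if `r` is zero
  have hα : r = 0 → α ≠ 0 := by
    rintro rfl rfl
    rw [zero_smul, sub_zero] at hv hv1
    have h1 : hp = (hp ≫ w - α' • fp) ≫ v + α' • (fp ≫ v) := by
      rw [Preadditive.sub_comp, Category.assoc, hwv, Category.comp_id, Linear.smul_comp]
      abel
    have h2 : hp ∈ Fi B b (0 + 1) := by
      rw [h1]
      refine Submodule.add_mem _ ?_ (Submodule.smul_mem _ _ ?_)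
      · simpa using Fi_comp hw1 hv
      · simpa using hv1
    exact hhpne (eq_zero_of_G_Fi hhp h2)
  obtain ⟨t, s, hα1, hs1⟩ : ∃ t s : ℚ, α + r * t ≠ 0 ∧ r + s * (α + r * t) = 0 := by
    by_cases hr : r = 0
    · refine ⟨0, 0, ?_, ?_⟩
      · rw [mul_zero, add_zero]; exact hα hr
      · rw [hr]; ring
    · refine ⟨(1 - α) / r, -r, ?_, ?_⟩
      · rw [mul_div_cancel₀ _ hr]; simp
      · rw [mul_div_cancel₀ _ hr]; ring
  obtain ⟨N, N₂, hN, hN₂, hN1, hN2⟩ := exists_inv hm t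
  set v₀ := v - r • (fs ≫ hp) with hv₀
  set w₀ := w - r' • (hs ≫ fp) with hw₀
  have ev : v = r • (fs ≫ hp) + v₀ := by rw [hv₀]; abel
  have ew : w = r' • (hs ≫ fp) + w₀ := by rw [hw₀]; abel
  -- `θ = f^* f_*`
  have hθθ : (fs ≫ fp) ≫ (fs ≫ fp) = 0 := by
    rw [Category.assoc, ← Category.assoc fp, hf0, Limits.zero_comp, Limits.comp_zero]
  set P : a ⟶ a := 𝟙 a + s • (fs ≫ fp) with hP
  set P' : a ⟶ a := 𝟙 a - s • (fs ≫ fp) with hP'
  have hPP : P ≫ P' = 𝟙 a := by
    rw [hP, hP']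
    simp only [Preadditive.add_comp, Preadditive.comp_sub, Linear.smul_comp, Linear.comp_smul,
      Category.id_comp, Category.comp_id, hθθ, smul_zero]
    abel
  have hPP' : P' ≫ P = 𝟙 a := by
    rw [hP, hP']
    simp only [Preadditive.comp_add, Preadditive.sub_comp, Linear.smul_comp, Linear.comp_smul,
      Category.id_comp, Category.comp_id, hθθ, smul_zero]
    abel
  set M : a ⟶ a := 𝟙 a + t • m with hM
  set U : a ⟶ b := P ≫ M ≫ v with hU
  set W : b ⟶ a := w ≫ N ≫ P' with hW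
  have hUW : U ≫ W = 𝟙 a := by
    rw [hU, hW]
    calc (P ≫ M ≫ v) ≫ w ≫ N ≫ P' = P ≫ M ≫ (v ≫ w) ≫ N ≫ P' := by
          simp only [Category.assoc]
      _ = P ≫ (M ≫ N) ≫ P' := by rw [hvw]; simp only [Category.assoc, Category.id_comp]
      _ = _ := by rw [hN1, Category.id_comp, hPP]
  have hWU : W ≫ U = 𝟙 b := by
    rw [hU, hW]
    calc (w ≫ N ≫ P') ≫ P ≫ M ≫ v = w ≫ N ≫ (P' ≫ P) ≫ M ≫ v := by
          simp only [Category.assoc]
      _ = w ≫ (N ≫ M) ≫ v := by rw [hPP']; simp only [Category.assoc, Category.id_comp]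
      _ = _ := by rw [hN2, Category.id_comp, hwv]
  -- auxiliary memberships
  have mθ : fs ≫ fp ∈ Fi a a (-1) := G_le a a (le_refl _) (by simpa using G_comp hfs hfp)
  have mη : fs ≫ hp ∈ Fi a b (-1) := G_le a b (le_refl _) (by simpa using G_comp hfs hhp)
  have mη' : hs ≫ fp ∈ Fi b a (-1) := G_le b a (le_refl _) (by simpa using G_comp hhs hfp)
  have mm : m ∈ Fi a a 1 := G_le a a (le_refl _) hm
  have mfs : fs ∈ Fi a B (-1) := G_le a B (le_refl _) hfs
  have mhs : hs ∈ Fi b B (-1) := G_le b B (le_refl _) hhs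
  have mfp : fp ∈ Fi B a 0 := G_le B a (le_refl _) hfp
  have mhp : hp ∈ Fi B b 0 := G_le B b (le_refl _) hhp
  have h4 : ∀ {c : CC C} (y : B ⟶ c), fp ≫ m ≫ fs ≫ y = y := by
    intro c y
    rw [← Category.assoc m fs y, ← Category.assoc fp (m ≫ fs) y, hf1, Category.id_comp]
  have h5 : ∀ {c : CC C} (y : B ⟶ c), fp ≫ fs ≫ y = 0 := by
    intro c y
    rw [← Category.assoc fp fs, hf0, Limits.zero_comp]
  -- `U` has only components of nonnegative degree
  have hfpv₀ : fp ≫ v₀ = fp ≫ v := by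
    rw [hv₀, Preadditive.comp_sub, Linear.comp_smul, ← Category.assoc fp, hf0, Limits.zero_comp,
      smul_zero, sub_zero]
  have hU0 : U ∈ Fi a b 0 := by
    have e : U = v₀ + t • r • (m ≫ fs ≫ hp) + t • (m ≫ v₀) + s • (fs ≫ (fp ≫ v - α • hp)) +
        (s * t) • (fs ≫ fp ≫ m ≫ v₀) + (r + s * (α + r * t)) • (fs ≫ hp) := by
      rw [hU, hP, hM]
      have h2 : m ≫ v = r • (m ≫ fs ≫ hp) + m ≫ v₀ := by
        conv_lhs => rw [ev]
        simp only [Preadditive.comp_add, Linear.comp_smul]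
      simp only [Preadditive.add_comp, Preadditive.comp_add, Linear.smul_comp, Linear.comp_smul,
        Category.id_comp, Category.assoc, Preadditive.comp_sub, h2, h4]
      linear_combination (norm := module) (1 : ℚ) • ev
    rw [e, hs1, zero_smul, add_zero]
    refine Submodule.add_mem _ (Submodule.add_mem _ (Submodule.add_mem _ (Submodule.add_mem _ hv
      ?_) ?_) ?_) ?_
    · exact Submodule.smul_mem _ _ (Submodule.smul_mem _ _ (by simpa using Fi_comp mm mη))
    · exact Submodule.smul_mem _ _ (Fi_anti a b (by norm_num) (Fi_comp mm hv))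
    · exact Submodule.smul_mem _ _ (by simpa using Fi_comp mfs hv1)
    · refine Submodule.smul_mem _ _ ?_
      have := Fi_comp mfs (Fi_comp mfp (Fi_comp mm hv))
      simpa using this
  have hfpU : fp ≫ U - (α + r * t) • hp ∈ Fi B b 1 := by
    have e : fp ≫ U - (α + r * t) • hp = (fp ≫ v - α • hp) + t • (fp ≫ m ≫ v₀) := by
      rw [hU, hP, hM]
      have h2 : m ≫ v = r • (m ≫ fs ≫ hp) + m ≫ v₀ := by
        conv_lhs => rw [ev]
        simp only [Preadditive.comp_add, Linear.comp_smul]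
      simp only [Preadditive.add_comp, Preadditive.comp_add, Linear.smul_comp, Linear.comp_smul,
        Category.id_comp, Category.assoc, h2, h4, h5]
      module
    rw [e]
    refine Submodule.add_mem _ hv1 (Submodule.smul_mem _ _ ?_)
    simpa using Fi_comp mfp (Fi_comp mm hv)
  -- `W` has only components of nonnegative degree, up to a multiple of `f^* f'_*`
  have hN' : N = 𝟙 a - t • m + N₂ := hN
  have mN : N ∈ Fi a a 0 := by
    rw [hN']
    refine Submodule.add_mem _ (Submodule.sub_mem _ (G_le a a (le_refl _) (id_mem a))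
      (Submodule.smul_mem _ _ (Fi_anti a a (by norm_num) mm))) (Fi_anti a a (by norm_num) hN₂)
  have hWN : w ≫ N - r' • (hs ≫ fp) ∈ Fi b a 0 := by
    have e : w ≫ N - r' • (hs ≫ fp) = w₀ ≫ N - (r' * t) • ((hs ≫ fp) ≫ m) +
        r' • ((hs ≫ fp) ≫ N₂) := by
      have h1 : (hs ≫ fp) ≫ N = hs ≫ fp - t • ((hs ≫ fp) ≫ m) + (hs ≫ fp) ≫ N₂ := by
        rw [hN']
        simp only [Preadditive.comp_add, Preadditive.comp_sub, Category.comp_id, Linear.comp_smul]
      conv_lhs => rw [ew]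
      rw [Preadditive.add_comp, Linear.smul_comp, h1]
      module
    rw [e]
    refine Submodule.add_mem _ (Submodule.sub_mem _ ?_ (Submodule.smul_mem _ _ ?_))
      (Submodule.smul_mem _ _ ?_)
    · simpa using Fi_comp hw mN
    · simpa using Fi_comp mη' mm
    · exact Fi_anti b a (by norm_num) (Fi_comp mη' hN₂)
  have hWNθ : (w ≫ N) ≫ (fs ≫ fp) - (β - r' * t) • (hs ≫ fp) ∈ Fi b a 0 := by
    have e : (w ≫ N) ≫ (fs ≫ fp) - (β - r' * t) • (hs ≫ fp) =
        (w ≫ fs - β • hs) ≫ fp - t • (w₀ ≫ m ≫ fs ≫ fp) + (w ≫ N₂) ≫ (fs ≫ fp) := by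
      have h1 : (w ≫ N) ≫ (fs ≫ fp) = (w ≫ fs) ≫ fp - t • (w ≫ m ≫ fs ≫ fp) +
          (w ≫ N₂) ≫ (fs ≫ fp) := by
        rw [hN']
        simp only [Preadditive.comp_add, Preadditive.comp_sub, Category.comp_id, Linear.comp_smul,
          Preadditive.add_comp, Preadditive.sub_comp, Linear.smul_comp, Category.assoc]
      have h2 : w ≫ m ≫ fs ≫ fp = r' • (hs ≫ fp) + w₀ ≫ m ≫ fs ≫ fp := by
        conv_lhs => rw [ew]
        rw [Preadditive.add_comp, Linear.smul_comp, Category.assoc, h4]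
      have h3 : (w ≫ fs - β • hs) ≫ fp = (w ≫ fs) ≫ fp - β • (hs ≫ fp) := by
        rw [Preadditive.sub_comp, Linear.smul_comp]
      rw [h1, h2, h3]
      module
    rw [e]
    have mw : w ∈ Fi b a (-1) := by
      rw [ew]
      exact Submodule.add_mem _ (Submodule.smul_mem _ _ mη') (Fi_anti b a (by norm_num) hw)
    refine Submodule.add_mem _ (Submodule.sub_mem _ ?_ (Submodule.smul_mem _ _ ?_)) ?_
    · simpa using Fi_comp hw2 mfp
    · have := Fi_comp hw (Fi_comp mm mθ)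
      simpa using this
    · have := Fi_comp (Fi_comp mw hN₂) mθ
      simpa using this
  obtain ⟨κ, hκ⟩ : ∃ κ : ℚ, W - κ • (hs ≫ fp) ∈ Fi b a 0 := by
    refine ⟨r' - s * (β - r' * t), ?_⟩
    have e : W - (r' - s * (β - r' * t)) • (hs ≫ fp) = (w ≫ N - r' • (hs ≫ fp)) -
        s • ((w ≫ N) ≫ (fs ≫ fp) - (β - r' * t) • (hs ≫ fp)) := by
      have h1 : W = w ≫ N - s • ((w ≫ N) ≫ (fs ≫ fp)) := by
        rw [hW, hP']
        simp only [Preadditive.comp_sub, Category.comp_id, Linear.comp_smul, Category.assoc]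
      rw [h1]
      module
    rw [e]
    exact Submodule.sub_mem _ hWN (Submodule.smul_mem _ _ hWNθ)
  have hκ0 : κ = 0 := by
    by_contra hκne
    apply hne
    have h1 : (κ * (α + r * t)) • (hs ≫ hp) ∈ Fi b b 0 := by
      have e : (κ * (α + r * t)) • (hs ≫ hp) = 𝟙 b - (W - κ • (hs ≫ fp)) ≫ U -
          κ • (hs ≫ (fp ≫ U - (α + r * t) • hp)) := by
        rw [Preadditive.sub_comp, hWU]
        simp only [Preadditive.comp_sub, Linear.comp_smul, Linear.smul_comp, Category.assoc]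
        module
      rw [e]
      refine Submodule.sub_mem _ (Submodule.sub_mem _ (G_le b b (le_refl _) (id_mem b)) ?_)
        (Submodule.smul_mem _ _ ?_)
      · simpa using Fi_comp hκ hU0
      · simpa using Fi_comp mhs hfpU
    have h2 : (κ * (α + r * t)) • (hs ≫ hp) = 0 := by
      apply eq_zero_of_G_Fi (n := -1)
      · exact Submodule.smul_mem _ _ (by simpa using G_comp hhs hhp)
      · simpa using h1
    rcases smul_eq_zero.1 h2 with h3 | h3
    · exact absurd h3 (mul_ne_zero hκne hα1)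
    · exact h3
  rw [hκ0, zero_smul, sub_zero] at hκ
  obtain ⟨U₀, hU₀, hU₁⟩ := Fi_succ hU0
  obtain ⟨W₀, hW₀, hW₁⟩ := Fi_succ hκ
  have h1 := inv_zero hκ hU₀ hU₁ hW₀ hW₁ hUW
  have h2 := inv_zero hU0 hW₀ hW₁ hU₀ hU₁ hWU
  have h3 : fp ≫ U₀ = (α + r * t) • hp := by
    rw [← sub_eq_zero]
    apply eq_zero_of_G_Fi (n := 0)
    · exact Submodule.sub_mem _ (by simpa using G_comp hfp hU₀) (Submodule.smul_mem _ _ hhp)
    · have e : fp ≫ U₀ - (α + r * t) • hp = (fp ≫ U - (α + r * t) • hp) - fp ≫ (U - U₀) := by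
        rw [Preadditive.comp_sub]; abel
      rw [e]
      exact Submodule.sub_mem _ (by simpa using hfpU) (by simpa using Fi_comp mfp hU₁)
  refine ⟨(α + r * t)⁻¹ • U₀, Submodule.smul_mem _ _ hU₀, (α + r * t) • W₀,
    Submodule.smul_mem _ _ hW₀, ?_, ?_, ?_⟩
  · rw [Linear.smul_comp, Linear.comp_smul, h1, smul_smul, inv_mul_cancel₀ hα1, one_smul]
  · rw [Linear.smul_comp, Linear.comp_smul, h2, smul_smul, mul_inv_cancel₀ hα1, one_smul]
  · rw [Linear.comp_smul, h3, smul_smul, inv_mul_cancel₀ hα1, one_smul]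

end Pool.Agent.Y111.OR
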