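import Pool.Agent.Y111.OR.Lef
import Pool.Agent.Y111.OR.Cmp

/-!
# The graded object with duality attached to a Lefschetz operator
-/

namespace Pool.Agent.Y111.OR

open Finset

variable {V : Type*} [AddCommGroup V] [Module ℚ V] {gr : ℤ → Submodule ℚ V} {d : ℕ}
  {L S : Module.End ℚ V} {π : ℕ → Module.End ℚ V}

/-- The `π i` are the projectors of the grading. -/
structure IsPi (gr : ℤ → Submodule ℚ V) (π : ℕ → Module.End ℚ V) : Prop where
  self : ∀ (i : ℕ) (x : V), x ∈ gr i → π i x = x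
  ne : ∀ (i : ℕ) (l : ℤ), l ≠ i → ∀ x ∈ gr l, π i x = 0

/-- The sign `± (-1)^(i/2)`. -/
def sg (d i : ℕ) : ℚ := eps d * (-1) ^ (d / 2) * (-1) ^ (i / 2)

lemma sg_mid (d : ℕ) : sg d d = eps d := by
  rw [sg, mul_assoc, ← pow_add, ← two_mul, pow_mul]; simp

lemma neg_one_sq_pow (n : ℕ) : ((-1 : ℚ)) ^ n * (-1) ^ n = 1 := by
  rw [← mul_pow]; simp

lemma sg_dual {d i : ℕ} (hi : i ≤ 2 * d) (h : Even (i + d)) : sg d (2 * d - i) * sg d i = 1 := by
  have h1 : ((-1 : ℚ)) ^ ((2 * d - i) / 2) = (-1) ^ (i / 2) := by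
    obtain ⟨r, hr⟩ := h
    have e : (2 * d - i) / 2 = i / 2 + 2 * (d - i / 2 - (i % 2) - (d - (i % 2)) / 2) ∨
      i / 2 = (2 * d - i) / 2 + 2 * ((i + d) / 2 - d) := by omega
    rcases e with e | e
    · rw [e, pow_add, pow_mul]; simp
    · conv_rhs => rw [e, pow_add, pow_mul]
      simp
  rw [sg, sg, h1]
  calc eps d * (-1) ^ (d / 2) * (-1) ^ (i / 2) * (eps d * (-1) ^ (d / 2) * (-1) ^ (i / 2)) =
      (eps d * eps d) * ((-1) ^ (d / 2) * (-1) ^ (d / 2)) * ((-1) ^ (i / 2) * (-1) ^ (i / 2)) := by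
        ring
    _ = 1 := by rw [eps_mul_self, neg_one_sq_pow, neg_one_sq_pow]; ring

/-- The operator `β`: on the degrees `i` of the parity of `d` it is `S` up to sign. -/
def bet (d : ℕ) (S : Module.End ℚ V) (π : ℕ → Module.End ℚ V) : Module.End ℚ V :=
  ∑ i ∈ (range (2 * d + 1)).filter (fun i => Even (i + d)), sg d i • (S * π i)

lemma IsPi.sum_apply (hπ : IsPi gr π) (s : Finset ℕ) (F : ℕ → Module.End ℚ V) (i : ℕ) (x : V)
    (hx : x ∈ gr i) : (∑ j ∈ s, F j * π j) x = if i ∈ s then F i x else 0 := by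
  rw [LinearMap.sum_apply]
  by_cases hi : i ∈ s
  · rw [if_pos hi, sum_eq_single i]
    · rw [Module.End.mul_apply, hπ.self i x hx]
    · intro j _ hj
      rw [Module.End.mul_apply, hπ.ne j i (by exact_mod_cast hj.symm) x hx, map_zero]
    · exact fun h => absurd hi h
  · rw [if_neg hi]
    refine sum_eq_zero fun j hj => ?_
    rw [Module.End.mul_apply, hπ.ne j i (by rintro h; exact hi (by
      have : i = j := by exact_mod_cast h
      rw [this]; exact hj)) x hx, map_zero]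

/-- Reduction to the degrees between `0` and `2 d`. -/
lemma ext_nat {M : Type*} [AddCommGroup M] [Module ℚ M] (h : IsLef gr d L) {f g : V →ₗ[ℚ] M}
    (hfg : ∀ i : ℕ, i ≤ 2 * d → ∀ x ∈ gr i, f x = g x) : f = g := by
  refine h.ext_deg fun i x hx => ?_
  rcases lt_or_ge i 0 with h0 | h0
  · rw [h.bot i (Or.inl h0)] at hx
    rw [(Submodule.mem_bot _).1 hx, map_zero, map_zero]
  · obtain ⟨n, rfl⟩ := Int.eq_ofNat_of_zero_le h0
    rcases le_or_gt n (2 * d) with h1 | h1
    · exact hfg n h1 x hx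
    · rw [h.bot _ (Or.inr (by exact_mod_cast h1))] at hx
      rw [(Submodule.mem_bot _).1 hx, map_zero, map_zero]

section

variable (h : IsLef gr d L) (hS : IsStar gr d L S) (hπ : IsPi gr π)

include h hπ

lemma pi_mem' (i : ℕ) (x : V) : π i x ∈ gr i := by
  have h2 : x ∈ ⨆ i, gr i := by rw [h.top]; trivial
  refine Submodule.iSup_induction gr (motive := fun x => π i x ∈ gr i) h2 ?_ ?_ ?_
  · intro l y hy
    by_cases hl : l = i
    · subst hl; rw [hπ.self i y hy]; exact hy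
    · rw [hπ.ne i l hl y hy]; exact Submodule.zero_mem _
  · rw [map_zero]; exact Submodule.zero_mem _
  · intro y z hy hz
    rw [map_add]; exact Submodule.add_mem _ hy hz

lemma pi_idem (i : ℕ) : π i * π i = π i := by
  ext x
  rw [Module.End.mul_apply, hπ.self i _ (pi_mem' h hπ i x)]

lemma pi_orth (i j : ℕ) (hij : i ≠ j) : π i * π j = 0 := by
  ext x
  rw [Module.End.mul_apply, hπ.ne i j (by exact_mod_cast hij.symm) _ (pi_mem' h hπ j x),
    LinearMap.zero_apply]

include hS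

lemma star_mem' {i : ℕ} (hi : i ≤ 2 * d) {x : V} (hx : x ∈ gr i) : S x ∈ gr ((2 * d - i : ℕ) : ℤ) := by
  have := star_deg h hS i x hx
  rwa [Nat.cast_sub hi, Nat.cast_mul, Nat.cast_ofNat]

lemma bet_apply {i : ℕ} (hi : i ≤ 2 * d) {x : V} (hx : x ∈ gr i) :
    bet d S π x = if Even (i + d) then sg d i • S x else 0 := by
  have h1 : bet d S π = ∑ j ∈ (range (2 * d + 1)).filter (fun i => Even (i + d)),
      (sg d j • S) * π j := by
    rw [bet]
    refine sum_congr rfl fun j _ => ?_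
    rw [smul_mul_assoc]
  rw [h1, hπ.sum_apply _ _ i x hx]
  by_cases he : Even (i + d)
  · rw [if_pos (by rw [mem_filter, mem_range]; exact ⟨by omega, he⟩), if_pos he,
      LinearMap.smul_apply]
  · rw [if_neg (by rw [mem_filter]; exact fun h' => he h'.2), if_neg he]

lemma par_apply (c : ℕ) {i : ℕ} (hi : i ≤ 2 * d) {x : V} (hx : x ∈ gr i) :
    parSum π d c x = if Even (i + c) then x else 0 := by
  have h1 : parSum π d c = ∑ j ∈ (range (2 * d + 1)).filter (fun i => Even (i + c)),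
      (1 : Module.End ℚ V) * π j := by
    rw [parSum]
    refine sum_congr rfl fun j _ => ?_
    rw [one_mul]
  rw [h1, hπ.sum_apply _ _ i x hx]
  by_cases he : Even (i + c)
  · rw [if_pos (by rw [mem_filter, mem_range]; exact ⟨by omega, he⟩), if_pos he,
      Module.End.one_apply]
  · rw [if_neg (by rw [mem_filter]; exact fun h' => he h'.2), if_neg he]

lemma even_dual {i : ℕ} (hi : i ≤ 2 * d) (he : Even (i + d)) : Even (2 * d - i + d) := by
  obtain ⟨r, hr⟩ := he
  exact ⟨2 * d - r, by omega⟩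

lemma bet_sq : bet d S π * bet d S π = parSum π d d := by
  refine ext_nat h fun i hi x hx => ?_
  rw [Module.End.mul_apply, bet_apply h hS hπ hi hx, par_apply h hS hπ d hi hx]
  by_cases he : Even (i + d)
  · rw [if_pos he, if_pos he, map_smul,
      bet_apply h hS hπ (i := 2 * d - i) (by omega) (star_mem' h hS hπ hi hx),
      if_pos (even_dual h hS hπ hi he), smul_smul, mul_comm, sg_dual hi he, one_smul]
    have := congrArg (fun f => f x) (star_sq h hS)
    exact this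
  · rw [if_neg he, if_neg he, map_zero]

lemma bet_left : parSum π d d * bet d S π = bet d S π := by
  refine ext_nat h fun i hi x hx => ?_
  rw [Module.End.mul_apply, bet_apply h hS hπ hi hx]
  by_cases he : Even (i + d)
  · rw [if_pos he, map_smul, par_apply h hS hπ d (i := 2 * d - i) (by omega)
      (star_mem' h hS hπ hi hx), if_pos (even_dual h hS hπ hi he)]
  · rw [if_neg he, map_zero]

lemma bet_right : bet d S π * parSum π d d = bet d S π := by
  refine ext_nat h fun i hi x hx => ?_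
  rw [Module.End.mul_apply, par_apply h hS hπ d hi hx]
  by_cases he : Even (i + d)
  · rw [if_pos he]
  · rw [if_neg he, map_zero, bet_apply h hS hπ hi hx, if_neg he]

lemma bet_swap (i : ℕ) (hi : i ≤ 2 * d) (he : Even (i + d)) :
    bet d S π * π i = π (2 * d - i) * bet d S π := by
  refine ext_nat h fun j hj x hx => ?_
  rw [Module.End.mul_apply, Module.End.mul_apply]
  by_cases hij : j = i
  · subst hij
    rw [hπ.self j x hx, bet_apply h hS hπ hj hx, if_pos he, map_smul,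
      hπ.self _ _ (star_mem' h hS hπ hj hx)]
  · rw [hπ.ne i j (by exact_mod_cast hij) x hx, map_zero, bet_apply h hS hπ hj hx]
    by_cases hje : Even (j + d)
    · rw [if_pos hje, map_smul, hπ.ne (2 * d - i) ((2 * d - j : ℕ) : ℤ) _ _
        (star_mem' h hS hπ hj hx), smul_zero]
      norm_cast
      omega
    · rw [if_neg hje, map_zero]

lemma bet_mid : bet d S π * π d = (2 : ℚ) • rho π L (S ∘ₗ L ∘ₗ S) d - π d := by
  refine ext_nat h fun j hj x hx => ?_
  rw [Module.End.mul_apply, LinearMap.sub_apply, LinearMap.smul_apply]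
  by_cases hij : j = d
  · subst hij
    rw [hπ.self j x hx, bet_apply h hS hπ hj hx, if_pos ⟨j, rfl⟩, sg_mid,
      star_middle h hS hπ.self x hx]
  · have h0 : π d x = 0 := hπ.ne d j (by exact_mod_cast hij) x hx
    rw [h0, map_zero]
    have h1 : rho π L (S ∘ₗ L ∘ₗ S) d x = 0 := by
      match d, h0 with
      | 0, h0 => rw [rho, h0]
      | 1, h0 => rw [rho, h0]
      | e + 2, h0 =>
        rw [rho, LinearMap.sub_apply, LinearMap.comp_apply, LinearMap.comp_apply,
          LinearMap.comp_apply, h0, map_zero, map_zero, map_zero, sub_zero]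
    rw [h1, smul_zero, sub_zero]

lemma rho_right' (i : ℕ) : rho π L (S ∘ₗ L ∘ₗ S) i * π i = rho π L (S ∘ₗ L ∘ₗ S) i := by
  match i with
  | 0 => exact pi_idem h hπ 0
  | 1 => exact pi_idem h hπ 1
  | i + 2 =>
    rw [rho]
    have e : π (i + 2) * π (i + 2) = π (i + 2) := pi_idem h hπ (i + 2)
    change (π (i + 2) - L * (rho π L (S ∘ₗ L ∘ₗ S) i * ((S ∘ₗ L ∘ₗ S) * π (i + 2)))) *
      π (i + 2) = π (i + 2) - L * (rho π L (S ∘ₗ L ∘ₗ S) i * ((S ∘ₗ L ∘ₗ S) * π (i + 2)))
    rw [sub_mul, e]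
    simp only [mul_assoc]
    rw [e]

lemma rho_mem (i : ℕ) : ∀ x, rho π L (S ∘ₗ L ∘ₗ S) i x ∈ gr i := by
  induction i using Nat.strong_induction_on with
  | _ i ih =>
    intro x
    match i, ih with
    | 0, _ => exact pi_mem' h hπ 0 x
    | 1, _ => exact pi_mem' h hπ 1 x
    | i + 2, ih =>
      rw [rho, LinearMap.sub_apply]
      refine Submodule.sub_mem _ (pi_mem' h hπ (i + 2) x) ?_
      have := h.deg _ _ (ih i (by omega) ((S ∘ₗ L ∘ₗ S) (π (i + 2) x)))
      exact_mod_cast this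

lemma rho_left' (i : ℕ) : π i * rho π L (S ∘ₗ L ∘ₗ S) i = rho π L (S ∘ₗ L ∘ₗ S) i := by
  ext x
  rw [Module.End.mul_apply, hπ.self i _ (rho_mem h hS hπ i x)]

lemma rho_idem' (i : ℕ) (hi : i ≤ d) : rho π L (S ∘ₗ L ∘ₗ S) i * rho π L (S ∘ₗ L ∘ₗ S) i =
    rho π L (S ∘ₗ L ∘ₗ S) i := by
  have key : ∀ x ∈ gr i, rho π L (S ∘ₗ L ∘ₗ S) i (rho π L (S ∘ₗ L ∘ₗ S) i x) =
      rho π L (S ∘ₗ L ∘ₗ S) i x := by
    refine h.ind i ?_ ?_ ?_ ?_
    · intro k j a ha hj hkj
      have hkj' : k + 2 * j = i := by exact_mod_cast hkj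
      rw [rho_apply h hS hπ.self i hi k j a ha hkj']
      by_cases he : Even j
      · rw [if_pos he, rho_apply h hS hπ.self i hi k j a ha hkj', if_pos he]
      · rw [if_neg he, map_zero]
    · simp only [map_zero]
    · intro x y hx hy
      simp only [map_add, hx, hy]
    · intro c x hx
      simp only [map_smul, hx]
  ext x
  have h1 := key (π i x) (pi_mem' h hπ i x)
  have h2 : rho π L (S ∘ₗ L ∘ₗ S) i (π i x) = rho π L (S ∘ₗ L ∘ₗ S) i x := by
    rw [← Module.End.mul_apply, rho_right' h hS hπ]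
  rw [h2] at h1
  exact h1

/-- The intertwiners between `ρ i` and the complement of `ρ (i + 2)`. -/
lemma rho_step' (i : ℕ) (hi : i + 2 ≤ d) :
    (rho π L (S ∘ₗ L ∘ₗ S) i * (S ∘ₗ L ∘ₗ S) * π (i + 2)) *
      (L * rho π L (S ∘ₗ L ∘ₗ S) i) = rho π L (S ∘ₗ L ∘ₗ S) i ∧
    (L * rho π L (S ∘ₗ L ∘ₗ S) i) *
      (rho π L (S ∘ₗ L ∘ₗ S) i * (S ∘ₗ L ∘ₗ S) * π (i + 2)) =
        π (i + 2) - rho π L (S ∘ₗ L ∘ₗ S) (i + 2) := by
  have e0 := rho_idem' h hS hπ i (by omega)
  constructor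
  · ext x
    simp only [Module.End.mul_apply]
    have h1 := rho_mem h hS hπ i x
    have h2 : L (rho π L (S ∘ₗ L ∘ₗ S) i x) ∈ gr ((i + 2 : ℕ) : ℤ) := by
      have := h.deg _ _ h1
      exact_mod_cast this
    rw [hπ.self _ _ h2]
    have h3 : (S ∘ₗ L ∘ₗ S) (L (rho π L (S ∘ₗ L ∘ₗ S) i x)) = rho π L (S ∘ₗ L ∘ₗ S) i x :=
      lam_L h hS (i := i) (by exact_mod_cast (by omega : i < d)) _ h1
    rw [h3, ← Module.End.mul_apply, e0]
  · conv_rhs => rw [rho]
    change _ = π (i + 2) - (π (i + 2) - L * (rho π L (S ∘ₗ L ∘ₗ S) i *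
      ((S ∘ₗ L ∘ₗ S) * π (i + 2))))
    rw [sub_sub_cancel, mul_assoc L, ← mul_assoc (rho π L (S ∘ₗ L ∘ₗ S) i),
      ← mul_assoc (rho π L (S ∘ₗ L ∘ₗ S) i), e0, mul_assoc (rho π L (S ∘ₗ L ∘ₗ S) i)]

end

section side

variable (A : Subalgebra ℚ (Module.End ℚ V)) (h : IsLef gr d L) (hS : IsStar gr d L S)
  (hπ : IsPi gr π) (hLA : L ∈ A) (hSA : S ∈ A) (hπA : ∀ i, π i ∈ A)

include hLA hSA hπA in
lemma rho_alg (i : ℕ) : rho π L (S ∘ₗ L ∘ₗ S) i ∈ A := by
  have hΛ : (S ∘ₗ L ∘ₗ S) ∈ A := A.mul_mem hSA (A.mul_mem hLA hSA)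
  induction i using Nat.strong_induction_on with
  | _ i ih =>
    match i, ih with
    | 0, _ => exact hπA 0
    | 1, _ => exact hπA 1
    | i + 2, ih =>
      rw [rho]
      exact A.sub_mem (hπA _) (A.mul_mem hLA (A.mul_mem (ih i (by omega))
        (A.mul_mem hΛ (hπA _))))

include hSA hπA in
lemma bet_alg : bet d S π ∈ A :=
  A.sum_mem fun i _ => A.smul_mem (A.mul_mem hSA (hπA i)) _

include h hS hπ in
/-- The graded object with duality attached to a Lefschetz operator. -/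
theorem sideV : Side (R := A) id d (fun i => ⟨π i, hπA i⟩)
    (fun i => ⟨rho π L (S ∘ₗ L ∘ₗ S) i, rho_alg A hLA hSA hπA i⟩)
    ⟨bet d S π, bet_alg A hSA hπA⟩ := by
  have hpar : ∀ c, ((parSum (fun i => (⟨π i, hπA i⟩ : A)) d c : A) : Module.End ℚ V) =
      parSum π d c := by
    intro c
    rw [parSum, parSum, AddSubmonoidClass.coe_finset_sum]
  constructor
  · exact fun i => Subtype.ext (pi_idem h hπ i)
  · exact fun i j hij => Subtype.ext (pi_orth h hπ i j hij)
  · intro i hi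
    have hsq : ∀ x, S (S x) = x := fun x => congrArg (fun f => f x) (star_sq h hS)
    have e1 : ∀ j : ℕ, j ≤ 2 * d → (π (2 * d - j) * S * π j) = S * π j := by
      intro j hj
      ext x
      simp only [Module.End.mul_apply]
      rw [hπ.self _ _ (star_mem' h hS hπ hj (pi_mem' h hπ j x))]
    have e2 : ∀ j : ℕ, j ≤ 2 * d → S * π (2 * d - j) * (S * π j) = π j := by
      intro j hj
      ext x
      simp only [Module.End.mul_apply]
      rw [hπ.self _ _ (star_mem' h hS hπ hj (pi_mem' h hπ j x)), hsq]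
    have hii : 2 * d - (2 * d - i) = i := by omega
    refine ⟨⟨S * π i, A.mul_mem hSA (hπA i)⟩,
      ⟨S * π (2 * d - i), A.mul_mem hSA (hπA _)⟩, ?_, ?_, ?_, ?_, ?_, ?_⟩
    · refine Subtype.ext ?_
      have := e1 i hi
      rw [mul_assoc] at this
      exact this
    · refine Subtype.ext ?_
      change S * π i * π i = S * π i
      rw [mul_assoc, pi_idem h hπ]
    · refine Subtype.ext ?_
      have := e1 (2 * d - i) (by omega)
      rw [mul_assoc, hii] at this
      exact this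
    · refine Subtype.ext ?_
      change S * π (2 * d - i) * π (2 * d - i) = S * π (2 * d - i)
      rw [mul_assoc, pi_idem h hπ]
    · exact Subtype.ext (e2 i hi)
    · refine Subtype.ext ?_
      have := e2 (2 * d - i) (by omega)
      rw [hii] at this
      exact this
  · exact fun i hi => Subtype.ext (rho_idem' h hS hπ i hi)
  · exact fun i _ => Subtype.ext (rho_left' h hS hπ i)
  · exact fun i _ => Subtype.ext (rho_right' h hS hπ i)
  · rfl
  · rfl
  · intro i hi
    obtain ⟨h1, h2⟩ := rho_step' h hS hπ i hi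
    have hΛ : (S ∘ₗ L ∘ₗ S) ∈ A := A.mul_mem hSA (A.mul_mem hLA hSA)
    have hρ := rho_alg A hLA hSA hπA i
    have hρ2 := rho_alg A hLA hSA hπA (i + 2)
    have hid := rho_idem' h hS hπ i (by omega)
    refine ⟨⟨L * rho π L (S ∘ₗ L ∘ₗ S) i, A.mul_mem hLA hρ⟩,
      ⟨rho π L (S ∘ₗ L ∘ₗ S) i * (S ∘ₗ L ∘ₗ S) * π (i + 2),
        A.mul_mem (A.mul_mem hρ hΛ) (hπA _)⟩, ?_, ?_, ?_, ?_, ?_, ?_⟩
    · refine Subtype.ext ?_
      change (π (i + 2) - rho π L (S ∘ₗ L ∘ₗ S) (i + 2)) * (L * rho π L (S ∘ₗ L ∘ₗ S) i) = _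
      rw [← h2, mul_assoc, h1, mul_assoc, hid]
    · refine Subtype.ext ?_
      change L * rho π L (S ∘ₗ L ∘ₗ S) i * rho π L (S ∘ₗ L ∘ₗ S) i = _
      rw [mul_assoc, hid]
    · refine Subtype.ext ?_
      change rho π L (S ∘ₗ L ∘ₗ S) i * (rho π L (S ∘ₗ L ∘ₗ S) i * (S ∘ₗ L ∘ₗ S) * π (i + 2)) = _
      rw [← mul_assoc, ← mul_assoc, hid]
    · refine Subtype.ext ?_
      change rho π L (S ∘ₗ L ∘ₗ S) i * (S ∘ₗ L ∘ₗ S) * π (i + 2) *
        (π (i + 2) - rho π L (S ∘ₗ L ∘ₗ S) (i + 2)) = _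
      rw [← h2, ← mul_assoc, h1]
      rw [← mul_assoc, ← mul_assoc, hid]
    · exact Subtype.ext h1
    · exact Subtype.ext h2
  · refine Subtype.ext ?_
    rw [hpar]
    exact bet_sq h hS hπ
  · refine Subtype.ext ?_
    change ((parSum (fun i => (⟨π i, hπA i⟩ : A)) d d : A) : Module.End ℚ V) * bet d S π = _
    rw [hpar]
    exact bet_left h hS hπ
  · refine Subtype.ext ?_
    change bet d S π * ((parSum (fun i => (⟨π i, hπA i⟩ : A)) d d : A) : Module.End ℚ V) = _
    rw [hpar]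
    exact bet_right h hS hπ
  · exact fun i hi he => Subtype.ext (bet_swap h hS hπ i hi he)
  · exact Subtype.ext (bet_mid h hS hπ)
  · exact fun i => rfl
  · rfl

end side

end Pool.Agent.Y111.OR
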