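import Pool.Agent.Y111.OR.Ops
import Pool.Agent.Y111.OR.SideV

/-!
# The algebra of algebraic operators on the cohomology of two varieties
-/

open CategoryTheory AlgebraicGeometry

universe u v w

namespace Pool.Agent.Y111.OR

open Pool.Agent.H914 Pool.Agent.H914.VarClass Pool.Agent.H914.VarClass.Obj Pool.Agent.W492.BB
  Pool.Agent.W550.Corr Pool.Agent.TH133

set_option linter.unusedSectionVars false

section blk

variable {V W : Type*} [AddCommGroup V] [Module ℚ V] [AddCommGroup W] [Module ℚ W]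

/-- The endomorphism of `V × W` with the given blocks. -/
def blk (a : V →ₗ[ℚ] V) (b : W →ₗ[ℚ] V) (c : V →ₗ[ℚ] W) (e : W →ₗ[ℚ] W) :
    Module.End ℚ (V × W) :=
  LinearMap.prod (a ∘ₗ LinearMap.fst ℚ V W + b ∘ₗ LinearMap.snd ℚ V W)
    (c ∘ₗ LinearMap.fst ℚ V W + e ∘ₗ LinearMap.snd ℚ V W)

lemma blk_apply (a : V →ₗ[ℚ] V) (b : W →ₗ[ℚ] V) (c : V →ₗ[ℚ] W) (e : W →ₗ[ℚ] W) (x : V × W) :
    blk a b c e x = (a x.1 + b x.2, c x.1 + e x.2) := rfl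

lemma blk_mul (a : V →ₗ[ℚ] V) (b : W →ₗ[ℚ] V) (c : V →ₗ[ℚ] W) (e : W →ₗ[ℚ] W)
    (a' : V →ₗ[ℚ] V) (b' : W →ₗ[ℚ] V) (c' : V →ₗ[ℚ] W) (e' : W →ₗ[ℚ] W) :
    blk a b c e * blk a' b' c' e' =
      blk (a ∘ₗ a' + b ∘ₗ c') (a ∘ₗ b' + b ∘ₗ e') (c ∘ₗ a' + e ∘ₗ c') (c ∘ₗ b' + e ∘ₗ e') := by
  refine LinearMap.ext fun x => ?_
  rw [Module.End.mul_apply, blk_apply, blk_apply, blk_apply]
  simp only [map_add, LinearMap.add_apply, LinearMap.comp_apply]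
  refine Prod.ext ?_ ?_ <;> simp only <;> abel

lemma blk_add (a : V →ₗ[ℚ] V) (b : W →ₗ[ℚ] V) (c : V →ₗ[ℚ] W) (e : W →ₗ[ℚ] W)
    (a' : V →ₗ[ℚ] V) (b' : W →ₗ[ℚ] V) (c' : V →ₗ[ℚ] W) (e' : W →ₗ[ℚ] W) :
    blk a b c e + blk a' b' c' e' = blk (a + a') (b + b') (c + c') (e + e') := by
  refine LinearMap.ext fun x => ?_
  rw [LinearMap.add_apply, blk_apply, blk_apply, blk_apply]
  simp only [LinearMap.add_apply]
  refine Prod.ext ?_ ?_ <;> simp only [Prod.fst_add, Prod.snd_add] <;> abel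

lemma blk_smul (q : ℚ) (a : V →ₗ[ℚ] V) (b : W →ₗ[ℚ] V) (c : V →ₗ[ℚ] W) (e : W →ₗ[ℚ] W) :
    q • blk a b c e = blk (q • a) (q • b) (q • c) (q • e) := by
  refine LinearMap.ext fun x => ?_
  rw [LinearMap.smul_apply, blk_apply, blk_apply]
  simp only [LinearMap.smul_apply, Prod.smul_mk, smul_add]

lemma exists_blk (Φ : Module.End ℚ (V × W)) : ∃ a b c e, Φ = blk a b c e := by
  refine ⟨LinearMap.fst ℚ V W ∘ₗ Φ ∘ₗ LinearMap.inl ℚ V W,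
    LinearMap.fst ℚ V W ∘ₗ Φ ∘ₗ LinearMap.inr ℚ V W,
    LinearMap.snd ℚ V W ∘ₗ Φ ∘ₗ LinearMap.inl ℚ V W,
    LinearMap.snd ℚ V W ∘ₗ Φ ∘ₗ LinearMap.inr ℚ V W, ?_⟩
  refine LinearMap.ext fun x => ?_
  rw [blk_apply]
  simp only [LinearMap.comp_apply, LinearMap.fst_apply, LinearMap.snd_apply, LinearMap.inl_apply,
    LinearMap.inr_apply]
  rw [← Prod.fst_add, ← Prod.snd_add, ← map_add]
  simp

lemma blk_inj {a : V →ₗ[ℚ] V} {b : W →ₗ[ℚ] V} {c : V →ₗ[ℚ] W} {e : W →ₗ[ℚ] W}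
    {a' : V →ₗ[ℚ] V} {b' : W →ₗ[ℚ] V} {c' : V →ₗ[ℚ] W} {e' : W →ₗ[ℚ] W}
    (h : blk a b c e = blk a' b' c' e') : a = a' ∧ b = b' ∧ c = c' ∧ e = e' := by
  refine ⟨?_, ?_, ?_, ?_⟩
  · ext x
    have := congrArg (fun f => (f (x, 0)).1) h
    simpa [blk_apply] using this
  · ext x
    have := congrArg (fun f => (f (0, x)).1) h
    simpa [blk_apply] using this
  · ext x
    have := congrArg (fun f => (f (x, 0)).2) h
    simpa [blk_apply] using this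
  · ext x
    have := congrArg (fun f => (f (0, x)).2) h
    simpa [blk_apply] using this

lemma blk_one : blk (LinearMap.id) 0 0 (LinearMap.id) = (1 : Module.End ℚ (V × W)) := by
  refine LinearMap.ext fun x => ?_
  rw [blk_apply]
  simp

end blk

variable {k : Type u} [Field k] {𝒱 : VarClass k} {C : TheoryData.{u, v, 0} 𝒱 ℚ}
  [hC : IsChowProj C] (H : WeilTheoryData.{u, v, 0} C ℚ) [hH : IsWeilProj H] {X Y Z : 𝒱.Obj}

section alg

variable {H}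

lemma IsAlg.add {f g : H.A X →ₗ[ℚ] H.A Y} (hf : IsAlg H f) (hg : IsAlg H g) :
    IsAlg H (f + g) := by
  obtain ⟨Γ, rfl⟩ := hf
  obtain ⟨Δ, rfl⟩ := hg
  exact ⟨Γ + Δ, (opr_add H Γ Δ).symm⟩

lemma IsAlg.smul (q : ℚ) {f : H.A X →ₗ[ℚ] H.A Y} (hf : IsAlg H f) : IsAlg H (q • f) := by
  obtain ⟨Γ, rfl⟩ := hf
  exact ⟨q • Γ, (opr_smul H q Γ).symm⟩

lemma IsAlg.zero : IsAlg H (0 : H.A X →ₗ[ℚ] H.A Y) := ⟨0, (opr_zero H).symm⟩

lemma IsAlg.id : IsAlg H (LinearMap.id : H.A X →ₗ[ℚ] H.A X) := ⟨dg C X, (opr_dg H).symm⟩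

lemma IsAlg.comp {g : H.A Y →ₗ[ℚ] H.A Z} {f : H.A X →ₗ[ℚ] H.A Y} (hg : IsAlg H g)
    (hf : IsAlg H f) : IsAlg H (g ∘ₗ f) := by
  obtain ⟨Γ, rfl⟩ := hf
  obtain ⟨Δ, rfl⟩ := hg
  exact ⟨C.comp Γ Δ, (opr_comp H Γ Δ).symm⟩

end alg

/-- The algebra of algebraic operators on `H(X)`. -/
def algX (X : 𝒱.Obj) : Subalgebra ℚ (Module.End ℚ (H.A X)) where
  carrier := {f | IsAlg H f}
  mul_mem' := fun hf hg => IsAlg.comp hf hg
  add_mem' := fun hf hg => IsAlg.add hf hg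
  algebraMap_mem' := fun q => by
    change IsAlg H _
    rw [Algebra.algebraMap_eq_smul_one]
    exact IsAlg.smul q IsAlg.id

/-- The algebra of algebraic operators on `H(X) ⊕ H(Y)`. -/
def algXY (X Y : 𝒱.Obj) : Subalgebra ℚ (Module.End ℚ (H.A X × H.A Y)) where
  carrier := {Φ | ∃ a b c e, IsAlg H a ∧ IsAlg H b ∧ IsAlg H c ∧ IsAlg H e ∧ Φ = blk a b c e}
  mul_mem' := by
    rintro _ _ ⟨a, b, c, e, ha, hb, hc, he, rfl⟩ ⟨a', b', c', e', ha', hb', hc', he', rfl⟩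
    rw [blk_mul]
    exact ⟨_, _, _, _, (ha.comp ha').add (hb.comp hc'), (ha.comp hb').add (hb.comp he'),
      (hc.comp ha').add (he.comp hc'), (hc.comp hb').add (he.comp he'), rfl⟩
  add_mem' := by
    rintro _ _ ⟨a, b, c, e, ha, hb, hc, he, rfl⟩ ⟨a', b', c', e', ha', hb', hc', he', rfl⟩
    rw [blk_add]
    exact ⟨_, _, _, _, ha.add ha', hb.add hb', hc.add hc', he.add he', rfl⟩
  algebraMap_mem' := fun q => by
    rw [Algebra.algebraMap_eq_smul_one, ← blk_one, blk_smul]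
    exact ⟨_, _, _, _, IsAlg.id.smul q, IsAlg.zero.smul q, IsAlg.zero.smul q, IsAlg.id.smul q, rfl⟩

variable {H}

lemma mem_algXY {a : H.A X →ₗ[ℚ] H.A X} {b : H.A Y →ₗ[ℚ] H.A X} {c : H.A X →ₗ[ℚ] H.A Y}
    {e : H.A Y →ₗ[ℚ] H.A Y} (ha : IsAlg H a) (hb : IsAlg H b) (hc : IsAlg H c) (he : IsAlg H e) :
    blk a b c e ∈ algXY H X Y := ⟨a, b, c, e, ha, hb, hc, he, rfl⟩

/-- The form on `H(X) ⊕ H(Y)`. -/
noncomputable def BW (BX : H.A X →ₗ[ℚ] H.A X →ₗ[ℚ] ℝ) (BY : H.A Y →ₗ[ℚ] H.A Y →ₗ[ℚ] ℝ)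
    (x y : H.A X × H.A Y) : ℝ := BX x.1 y.1 + BY x.2 y.2

/-- For the forms `BX` and `BY`, the adjoint of an algebraic correspondence `Γ` from `X` to `Y` is
`σ_X ∘ Γᵗ ∘ σ_Y`. -/
def AdjF (H : WeilTheoryData.{u, v, 0} C ℚ) (σX : C.A (X.prod X)) (σY : C.A (Y.prod Y))
    (BX : H.A X →ₗ[ℚ] H.A X →ₗ[ℚ] ℝ) (BY : H.A Y →ₗ[ℚ] H.A Y →ₗ[ℚ] ℝ) : Prop :=
  ∀ (Γ : C.A (X.prod Y)) (a : H.A X) (b : H.A Y),
    BY (opr H Γ a) b = BX a (opr H σX (opr H (tp C Γ) (opr H σY b)))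

section adj

variable {hX : C.A X} {σX : C.A (X.prod X)} {πX : ℕ → C.A (X.prod X)} {hY : C.A Y}
  {σY : C.A (Y.prod Y)} {πY : ℕ → C.A (Y.prod Y)}
  {BX : H.A X →ₗ[ℚ] H.A X →ₗ[ℚ] ℝ} {BY : H.A Y →ₗ[ℚ] H.A Y →ₗ[ℚ] ℝ}

lemma exists_adj [FiniteDimensional ℚ (H.A X)] [FiniteDimensional ℚ (H.A Y)]
    (LX : LefschetzB H X hX σX πX) (LY : LefschetzB H Y hY σY πY)
    (h1 : AdjF H σX σY BX BY) (h2 : AdjF H σY σX BY BX) {f : H.A X →ₗ[ℚ] H.A Y}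
    (hf : IsAlg H f) : ∃ g : H.A Y →ₗ[ℚ] H.A X, IsAlg H g ∧
      (∀ a b, BY (f a) b = BX a (g b)) ∧ (∀ b a, BX (g b) a = BY b (f a)) := by
  obtain ⟨Γ, rfl⟩ := hf
  refine ⟨opr H (C.comp (C.comp σY (tp C Γ)) σX), ⟨_, rfl⟩, ?_, ?_⟩
  · intro a b
    rw [h1 Γ a b, opr_comp, opr_comp]
    rfl
  · intro b a
    have e1 : opr H (tp C (C.comp (C.comp σY (tp C Γ)) σX)) =
        opr H σY ∘ₗ opr H Γ ∘ₗ opr H σX := by
      rw [tp_comp C (ch_comm C), tp_comp C (ch_comm C), tp_tp, opr_comp, opr_comp,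
        LX.opr_tp_sigma, LY.opr_tp_sigma]
      rfl
    rw [h2 (C.comp (C.comp σY (tp C Γ)) σX) b a, e1]
    simp only [LinearMap.comp_apply]
    rw [LX.star_sq', LY.star_sq']

/-- `Ψ` is adjoint to `Φ` on both sides. -/
def Rel (BX : H.A X →ₗ[ℚ] H.A X →ₗ[ℚ] ℝ) (BY : H.A Y →ₗ[ℚ] H.A Y →ₗ[ℚ] ℝ)
    (Φ Ψ : Module.End ℚ (H.A X × H.A Y)) : Prop :=
  (∀ x y, BW BX BY (Φ x) y = BW BX BY x (Ψ y)) ∧ (∀ x y, BW BX BY (Ψ x) y = BW BX BY x (Φ y))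

lemma exists_rel [FiniteDimensional ℚ (H.A X)] [FiniteDimensional ℚ (H.A Y)]
    (LX : LefschetzB H X hX σX πX) (LY : LefschetzB H Y hY σY πY)
    (hXX : AdjF H σX σX BX BX) (hXY : AdjF H σX σY BX BY) (hYX : AdjF H σY σX BY BX)
    (hYY : AdjF H σY σY BY BY) {Φ : Module.End ℚ (H.A X × H.A Y)} (hΦ : Φ ∈ algXY H X Y) :
    ∃ Ψ ∈ algXY H X Y, Rel BX BY Φ Ψ := by
  obtain ⟨a, b, c, e, ha, hb, hc, he, rfl⟩ := hΦ
  obtain ⟨a', ha', ha1, ha2⟩ := exists_adj LX LX hXX hXX ha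
  obtain ⟨b', hb', hb1, hb2⟩ := exists_adj LY LX hYX hXY hb
  obtain ⟨c', hc', hc1, hc2⟩ := exists_adj LX LY hXY hYX hc
  obtain ⟨e', he', he1, he2⟩ := exists_adj LY LY hYY hYY he
  refine ⟨blk a' c' b' e', mem_algXY ha' hc' hb' he', ?_, ?_⟩
  · intro x y
    simp only [BW, blk_apply, map_add, LinearMap.add_apply, ha1, hb1, hc1, he1]
    ring
  · intro x y
    simp only [BW, blk_apply, map_add, LinearMap.add_apply, ha2, hb2, hc2, he2]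
    ring

lemma BW_add_left (x x' y : H.A X × H.A Y) :
    BW BX BY (x + x') y = BW BX BY x y + BW BX BY x' y := by
  simp only [BW, Prod.fst_add, Prod.snd_add, map_add, LinearMap.add_apply]; ring

lemma BW_add_right (x y y' : H.A X × H.A Y) :
    BW BX BY x (y + y') = BW BX BY x y + BW BX BY x y' := by
  simp only [BW, Prod.fst_add, Prod.snd_add, map_add]; ring

lemma BW_sub_right (x y y' : H.A X × H.A Y) :
    BW BX BY x (y - y') = BW BX BY x y - BW BX BY x y' := by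
  simp only [BW, Prod.fst_sub, Prod.snd_sub, map_sub]; ring

lemma BW_pos (pX : ∀ a : H.A X, a ≠ 0 → 0 < BX a a) (pY : ∀ a : H.A Y, a ≠ 0 → 0 < BY a a)
    (x : H.A X × H.A Y) (hx : x ≠ 0) : 0 < BW BX BY x x := by
  have h1 : ∀ a : H.A X, 0 ≤ BX a a := by
    intro a
    by_cases ha : a = 0
    · rw [ha, map_zero]
    · exact (pX a ha).le
  have h2 : ∀ a : H.A Y, 0 ≤ BY a a := by
    intro a
    by_cases ha : a = 0
    · rw [ha, map_zero]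
    · exact (pY a ha).le
  rw [BW]
  by_cases ha : x.1 = 0
  · have hb : x.2 ≠ 0 := fun hb => hx (Prod.ext ha hb)
    have := h1 x.1
    have := pY x.2 hb
    linarith
  · have := pX x.1 ha
    have := h2 x.2
    linarith

lemma Rel.unique (pX : ∀ a : H.A X, a ≠ 0 → 0 < BX a a) (pY : ∀ a : H.A Y, a ≠ 0 → 0 < BY a a)
    {Φ Ψ Ψ' : Module.End ℚ (H.A X × H.A Y)} (h : Rel BX BY Φ Ψ) (h' : Rel BX BY Φ Ψ') :
    Ψ = Ψ' := by
  refine LinearMap.ext fun y => ?_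
  by_contra h0
  have h1 : Ψ y - Ψ' y ≠ 0 := sub_ne_zero.2 h0
  have h2 := BW_pos pX pY _ h1
  rw [BW_sub_right, ← h.1, ← h'.1, sub_self] at h2
  exact lt_irrefl _ h2

/-- **The positive involution** on the algebra of algebraic operators. -/
theorem exists_inv' [FiniteDimensional ℚ (H.A X)] [FiniteDimensional ℚ (H.A Y)]
    (LX : LefschetzB H X hX σX πX) (LY : LefschetzB H Y hY σY πY)
    (hXX : AdjF H σX σX BX BX) (hXY : AdjF H σX σY BX BY) (hYX : AdjF H σY σX BY BX)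
    (hYY : AdjF H σY σY BY BY) (pX : ∀ a : H.A X, a ≠ 0 → 0 < BX a a)
    (pY : ∀ a : H.A Y, a ≠ 0 → 0 < BY a a) :
    ∃ τ : algXY H X Y → algXY H X Y, IsInv τ ∧ ∀ Φ : algXY H X Y,
      Rel BX BY (Φ : Module.End ℚ (H.A X × H.A Y)) (τ Φ) := by
  choose! τ hτ using fun Φ : algXY H X Y =>
    (exists_rel LX LY hXX hXY hYX hYY Φ.2)
  refine ⟨fun Φ => ⟨τ Φ, (hτ Φ).1⟩, ?_, fun Φ => (hτ Φ).2⟩
  constructor
  · intro x y
    refine Subtype.ext ?_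
    refine Rel.unique pX pY (hτ (x + y)).2 ⟨?_, ?_⟩
    · intro u w
      change BW BX BY ((x : Module.End ℚ _) u + (y : Module.End ℚ _) u) w =
        BW BX BY u (τ x w + τ y w)
      rw [BW_add_left, BW_add_right, (hτ x).2.1, (hτ y).2.1]
    · intro u w
      change BW BX BY (τ x u + τ y u) w =
        BW BX BY u ((x : Module.End ℚ _) w + (y : Module.End ℚ _) w)
      rw [BW_add_left, BW_add_right, (hτ x).2.2, (hτ y).2.2]
  · intro x y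
    refine Subtype.ext ?_
    refine Rel.unique pX pY (hτ (x * y)).2 ⟨?_, ?_⟩
    · intro u w
      change BW BX BY ((x : Module.End ℚ _) ((y : Module.End ℚ _) u)) w =
        BW BX BY u (τ y (τ x w))
      rw [(hτ x).2.1, (hτ y).2.1]
    · intro u w
      change BW BX BY (τ y (τ x u)) w =
        BW BX BY u ((x : Module.End ℚ _) ((y : Module.End ℚ _) w))
      rw [(hτ y).2.2, (hτ x).2.2]
  · intro x
    refine Subtype.ext ?_
    refine Rel.unique pX pY (hτ ⟨τ x, (hτ x).1⟩).2 ⟨(hτ x).2.2, (hτ x).2.1⟩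
  · intro x y hxy
    refine Subtype.ext (LinearMap.ext fun u => ?_)
    by_contra h0
    have h1 := BW_pos pX pY _ (h0 : (x : Module.End ℚ (H.A X × H.A Y)) u ≠ 0)
    have h2 : 0 ≤ BW BX BY ((y : Module.End ℚ (H.A X × H.A Y)) u)
        ((y : Module.End ℚ (H.A X × H.A Y)) u) := by
      by_cases h3 : (y : Module.End ℚ (H.A X × H.A Y)) u = 0
      · rw [h3]; simp [BW]
      · exact (BW_pos pX pY _ h3).le
    have h3 : (τ x) ((x : Module.End ℚ (H.A X × H.A Y)) u) +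
        (τ y) ((y : Module.End ℚ (H.A X × H.A Y)) u) = 0 := by
      have := congrArg (fun Φ : algXY H X Y => (Φ : Module.End ℚ (H.A X × H.A Y)) u) hxy
      exact this
    have h4 := (hτ x).2.1 u ((x : Module.End ℚ (H.A X × H.A Y)) u)
    have h5 := (hτ y).2.1 u ((y : Module.End ℚ (H.A X × H.A Y)) u)
    have h6 : BW BX BY u (τ x ((x : Module.End ℚ (H.A X × H.A Y)) u)) +
        BW BX BY u (τ y ((y : Module.End ℚ (H.A X × H.A Y)) u)) = 0 := by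
      rw [← BW_add_right, h3]
      simp [BW]
    rw [← h4, ← h5] at h6
    linarith

end adj

end Pool.Agent.Y111.OR
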