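import Pool.Agent.Y111.OR.Alg

/-!
# Comparison of the components of two graded objects with a duality
-/

namespace Pool.Agent.Y111.OR

open Finset

variable {R : Type*} [Ring R] [Algebra ℚ R]

/-- The sum of the `π i`, `i ≤ 2 d`, `i + c` even. -/
def parSum (π : ℕ → R) (d c : ℕ) : R :=
  ∑ i ∈ (range (2 * d + 1)).filter (fun i => Even (i + c)), π i

/-- The sum of the `π i`, `i < d`, `i + c` even. -/
def lowSum (π : ℕ → R) (d c : ℕ) : R := ∑ i ∈ (range d).filter (fun i => Even (i + c)), π i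

/-- The sum of the `π i`, `d < i ≤ 2 d`, `i + c` even. -/
def highSum (π : ℕ → R) (d c : ℕ) : R :=
  ∑ i ∈ (Ico (d + 1) (2 * d + 1)).filter (fun i => Even (i + c)), π i

/-- A graded object with components `π i`, an isometric involution `β` of the part of the parity of
`d`, and the projectors `ρ i` attached to the Lefschetz decomposition. -/
structure Side (τ : R → R) (d : ℕ) (π ρ : ℕ → R) (β : R) : Prop where
  idem : ∀ i, π i * π i = π i
  orth : ∀ i j, i ≠ j → π i * π j = 0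
  dual : ∀ i ≤ 2 * d, Eqv (π i) (π (2 * d - i))
  rho_idem : ∀ i ≤ d, ρ i * ρ i = ρ i
  rho_left : ∀ i ≤ d, π i * ρ i = ρ i
  rho_right : ∀ i ≤ d, ρ i * π i = ρ i
  rho_zero : ρ 0 = π 0
  rho_one : ρ 1 = π 1
  rho_step : ∀ i, i + 2 ≤ d → Eqv (ρ i) (π (i + 2) - ρ (i + 2))
  sq : β * β = parSum π d d
  left : parSum π d d * β = β
  right : β * parSum π d d = β
  swap : ∀ i ≤ 2 * d, Even (i + d) → β * π i = π (2 * d - i) * β
  mid : β * π d = (2 : ℚ) • ρ d - π d
  star_pi : ∀ i, τ (π i) = π i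
  star_beta : τ β = β

variable {τ : R → R} {d : ℕ} {π ρ : ℕ → R} {β : R}

lemma parSum_eq (π : ℕ → R) (d : ℕ) : parSum π d d = lowSum π d d + π d + highSum π d d := by
  rw [parSum, lowSum, highSum]
  have h1 : (range (2 * d + 1)).filter (fun i => Even (i + d)) =
      (((range d).filter (fun i => Even (i + d))) ∪ {d}) ∪
        ((Ico (d + 1) (2 * d + 1)).filter (fun i => Even (i + d))) := by
    ext i
    simp only [mem_filter, mem_range, mem_union, mem_singleton, mem_Ico]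
    constructor
    · rintro ⟨h1, h2⟩
      rcases lt_trichotomy i d with h | h | h
      · exact Or.inl (Or.inl ⟨h, h2⟩)
      · exact Or.inl (Or.inr h)
      · exact Or.inr ⟨⟨h, h1⟩, h2⟩
    · rintro ((⟨h1, h2⟩ | h) | ⟨⟨h1, h2⟩, h3⟩)
      · exact ⟨by omega, h2⟩
      · subst h; exact ⟨by omega, ⟨i, rfl⟩⟩
      · exact ⟨h2, h3⟩
  rw [h1, sum_union, sum_union, sum_singleton]
  · rw [disjoint_singleton_right]; simp
  · rw [disjoint_left]
    intro i hi hi'
    simp only [mem_union, mem_filter, mem_range, mem_singleton, mem_Ico] at hi hi'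
    omega

lemma sum_mul_sum_idem (hi : ∀ i, π i * π i = π i) (ho : ∀ i j, i ≠ j → π i * π j = 0)
    (s u : Finset ℕ) : (∑ i ∈ s, π i) * (∑ i ∈ u, π i) = ∑ i ∈ s ∩ u, π i := by
  classical
  rw [sum_mul]
  have h1 : ∀ i ∈ s, π i * ∑ j ∈ u, π j = if i ∈ u then π i else 0 := by
    intro i _
    rw [mul_sum]
    by_cases h : i ∈ u
    · rw [if_pos h, sum_eq_single i (fun j _ hj => ho i j hj.symm) (fun h' => absurd h h')]
      exact hi i
    · rw [if_neg h]
      exact sum_eq_zero fun j hj => ho i j (fun h' => h (h' ▸ hj))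
  rw [sum_congr rfl h1, sum_ite_mem]

variable (S : Side τ d π ρ β)

include S

lemma Side.low_high : lowSum π d d * highSum π d d = 0 ∧ highSum π d d * lowSum π d d = 0 := by
  constructor
  · rw [lowSum, highSum, sum_mul_sum_idem S.idem S.orth]
    refine sum_eq_zero fun i hi => ?_
    simp only [mem_inter, mem_filter, mem_range, mem_Ico] at hi
    omega
  · rw [lowSum, highSum, sum_mul_sum_idem S.idem S.orth]
    refine sum_eq_zero fun i hi => ?_
    simp only [mem_inter, mem_filter, mem_range, mem_Ico] at hi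
    omega

lemma Side.low_mid (c : ℕ) : lowSum π d c * π d = 0 ∧ π d * lowSum π d c = 0 := by
  constructor
  · rw [lowSum, sum_mul]
    refine sum_eq_zero fun i hi => S.orth i d ?_
    simp only [mem_filter, mem_range] at hi
    omega
  · rw [lowSum, mul_sum]
    refine sum_eq_zero fun i hi => S.orth d i ?_
    simp only [mem_filter, mem_range] at hi
    omega

lemma Side.high_mid (c : ℕ) : highSum π d c * π d = 0 ∧ π d * highSum π d c = 0 := by
  constructor
  · rw [highSum, sum_mul]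
    refine sum_eq_zero fun i hi => S.orth i d ?_
    simp only [mem_filter, mem_Ico] at hi
    omega
  · rw [highSum, mul_sum]
    refine sum_eq_zero fun i hi => S.orth d i ?_
    simp only [mem_filter, mem_Ico] at hi
    omega

lemma Side.low_idem (c : ℕ) : lowSum π d c * lowSum π d c = lowSum π d c := by
  rw [lowSum, sum_mul_sum_idem S.idem S.orth, inter_self]

lemma Side.high_idem (c : ℕ) : highSum π d c * highSum π d c = highSum π d c := by
  rw [highSum, sum_mul_sum_idem S.idem S.orth, inter_self]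

lemma Side.swap_low : β * lowSum π d d = highSum π d d * β := by
  rw [lowSum, highSum, mul_sum, sum_mul]
  refine sum_nbij' (fun i => 2 * d - i) (fun i => 2 * d - i) ?_ ?_ ?_ ?_ ?_
  · intro i hi
    simp only [mem_filter, mem_range, mem_Ico] at *
    refine ⟨by omega, ?_⟩
    obtain ⟨r, hr⟩ := hi.2
    exact ⟨2 * d - r, by omega⟩
  · intro i hi
    simp only [mem_filter, mem_range, mem_Ico] at *
    refine ⟨by omega, ?_⟩
    obtain ⟨r, hr⟩ := hi.2
    exact ⟨2 * d - r, by omega⟩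
  · intro i hi
    simp only [mem_filter, mem_range] at hi
    omega
  · intro i hi
    simp only [mem_filter, mem_Ico] at hi
    omega
  · intro i hi
    simp only [mem_filter, mem_range] at hi
    exact S.swap i (by omega) hi.2

lemma Side.swap_high : β * highSum π d d = lowSum π d d * β := by
  rw [lowSum, highSum, mul_sum, sum_mul]
  refine sum_nbij' (fun i => 2 * d - i) (fun i => 2 * d - i) ?_ ?_ ?_ ?_ ?_
  · intro i hi
    simp only [mem_filter, mem_range, mem_Ico] at *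
    refine ⟨by omega, ?_⟩
    obtain ⟨r, hr⟩ := hi.2
    exact ⟨2 * d - r, by omega⟩
  · intro i hi
    simp only [mem_filter, mem_range, mem_Ico] at *
    refine ⟨by omega, ?_⟩
    obtain ⟨r, hr⟩ := hi.2
    exact ⟨2 * d - r, by omega⟩
  · intro i hi
    simp only [mem_filter, mem_Ico] at hi
    omega
  · intro i hi
    simp only [mem_filter, mem_range] at hi
    omega
  · intro i hi
    simp only [mem_filter, mem_Ico] at hi
    exact S.swap i (by omega) hi.2

variable [FiniteDimensional ℚ R]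

omit S in
/-- The multiplicities of the eigenspaces of `γ`. -/
lemma half_abs [FiniteDimensional ℚ R] {E0 E1 m γ μ t E : R} (hE : E = E0 + m + E1)
    (i0 : E0 * E0 = E0) (i1 : E1 * E1 = E1)
    (im : m * m = m) (h01 : E0 * E1 = 0) (h10 : E1 * E0 = 0) (h0d : E0 * m = 0)
    (hd0 : m * E0 = 0) (h1d : E1 * m = 0) (hd1 : m * E1 = 0) (hsq : γ * γ = E)
    (hl : E * γ = γ) (hr : γ * E = γ) (hlow : γ * E0 = E1 * γ) (hhigh : γ * E1 = E0 * γ)
    (hmid : γ * m = (2 : ℚ) • μ - m) (hmid' : m * γ = (2 : ℚ) • μ - m) (hμ : μ * μ = μ)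
    (ht : t * t = t) :
    ((2⁻¹ : ℚ) • (E + γ)) * ((2⁻¹ : ℚ) • (E + γ)) = (2⁻¹ : ℚ) • (E + γ) ∧
      nn t ((2⁻¹ : ℚ) • (E + γ)) = nn t E0 + nn t μ := by
  have hEid : E * E = E := by
    rw [hE]
    simp only [mul_add, add_mul, i0, i1, im, h01, h10, h0d, hd0, h1d, hd1, add_zero, zero_add]
  have hpp : ((2⁻¹ : ℚ) • (E + γ)) * ((2⁻¹ : ℚ) • (E + γ)) = (2⁻¹ : ℚ) • (E + γ) := by
    rw [smul_mul_smul_comm, mul_add, add_mul, add_mul, hEid, hl, hr, hsq]
    module
  refine ⟨hpp, ?_⟩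
  obtain ⟨F, hF⟩ : ∃ F, F = E0 + E1 := ⟨_, rfl⟩
  have hFF : F * F = F := by
    rw [hF]; simp only [mul_add, add_mul, i0, i1, h01, h10, add_zero, zero_add]
  have hγF : γ * F = F * γ := by
    rw [hF, mul_add, add_mul, hlow, hhigh]; abel
  have hFd : F * m = 0 := by rw [hF, add_mul, h0d, h1d, add_zero]
  have hdF : m * F = 0 := by rw [hF, mul_add, hd0, hd1, add_zero]
  have hEF : E = F + m := by rw [hE, hF]; abel
  have hF0 : F * E0 = E0 := by rw [hF, add_mul, i0, h10, add_zero]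
  have h0F : E0 * F = E0 := by rw [hF, mul_add, i0, h01, add_zero]
  have hEE0 : E * E0 = E0 := by rw [hEF, add_mul, hF0, hd0, add_zero]
  have hFE : F * E = F := by rw [hEF, mul_add, hFF, hFd, add_zero]
  have hEFF : E * F = F := by rw [hEF, add_mul, hFF, hdF, add_zero]
  have hE1E : E1 * E = E1 := by rw [hE, mul_add, mul_add, h10, h1d, i1, zero_add, zero_add]
  obtain ⟨pl, hpl⟩ : ∃ pl, pl = (2⁻¹ : ℚ) • (F + γ * F) := ⟨_, rfl⟩
  have hγγF : γ * (γ * F) = F := by rw [← mul_assoc, hsq, hEFF]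
  have hγγE0 : γ * (γ * E0) = E0 := by rw [← mul_assoc, hsq, hEE0]
  have hγFF : γ * F * F = γ * F := by rw [mul_assoc, hFF]
  have hFγF : F * (γ * F) = γ * F := by rw [hγF, ← mul_assoc, hFF]
  have hγFγF : γ * F * (γ * F) = F := by rw [mul_assoc, hFγF, hγγF]
  have hpl2 : pl * pl = pl := by
    rw [hpl, smul_mul_smul_comm, mul_add, add_mul, add_mul, hFF, hγFF, hFγF, hγFγF]
    module
  have hsum : (2⁻¹ : ℚ) • (E + γ) = pl + μ := by
    have h1 : γ = γ * F + γ * m := by rw [← mul_add, ← hEF, hr]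
    rw [hpl]
    conv_lhs => rw [h1, hmid, hEF]
    module
  have hμe : μ = (2⁻¹ : ℚ) • (γ * m + m) := by rw [hmid]; module
  have hμe' : μ = (2⁻¹ : ℚ) • (m * γ + m) := by rw [hmid']; module
  have hplμ : pl * μ = 0 := by
    have e1 : F * (m * γ) = 0 := by rw [← mul_assoc, hFd, zero_mul]
    have e2 : γ * F * (m * γ) = 0 := by rw [mul_assoc, e1, mul_zero]
    have e3 : γ * F * m = 0 := by rw [mul_assoc, hFd, mul_zero]
    rw [hpl, hμe', smul_mul_smul_comm, mul_add, add_mul, add_mul, e1, e2, e3, hFd]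
    simp
  have hμpl : μ * pl = 0 := by
    have e1 : m * (γ * F) = 0 := by rw [hγF, ← mul_assoc, hdF, zero_mul]
    have e2 : γ * m * F = 0 := by rw [mul_assoc, hdF, mul_zero]
    have e3 : γ * m * (γ * F) = 0 := by rw [mul_assoc, e1, mul_zero]
    rw [hpl, hμe, smul_mul_smul_comm, mul_add, add_mul, add_mul, e1, e2, e3, hdF]
    simp
  have heqv : Eqv E0 pl := by
    refine ⟨(2⁻¹ : ℚ) • (E0 + γ * E0), E0 + E0 * γ, ?_, ?_, ?_, ?_, ?_, ?_⟩
    · have h2 : F * (γ * E0) = γ * E0 := by rw [← mul_assoc, ← hγF, mul_assoc, hF0]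
      have e1 : γ * F * E0 = γ * E0 := by rw [mul_assoc, hF0]
      have e2 : γ * F * (γ * E0) = E0 := by rw [mul_assoc, h2, hγγE0]
      rw [hpl, smul_mul_smul_comm, mul_add, add_mul, add_mul, hF0, h2, e1, e2]
      module
    · rw [smul_mul_assoc, add_mul, mul_assoc, i0]
    · rw [mul_add, i0, ← mul_assoc, i0]
    · have e1 : E0 * γ * F = E0 * γ := by rw [mul_assoc, hγF, ← mul_assoc, h0F]
      have e2 : E0 * (γ * F) = E0 * γ := by rw [← mul_assoc, e1]
      have e3 : E0 * γ * (γ * F) = E0 := by rw [mul_assoc, hγγF, h0F]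
      rw [hpl, mul_smul_comm, mul_add, add_mul, add_mul, h0F, e1, e2, e3]
      module
    · have h1 : E0 * γ * E0 = 0 := by rw [mul_assoc, hlow, ← mul_assoc, h01, zero_mul]
      have h3 : E0 * γ * (γ * E0) = E0 := by rw [mul_assoc, hγγE0, i0]
      have h4 : E0 * (γ * E0) = 0 := by rw [← mul_assoc, h1]
      rw [mul_smul_comm, add_mul, mul_add, mul_add, i0, h1, h3, h4]
      module
    · have h1 : γ * E0 * (E0 * γ) = E1 := by
        rw [mul_assoc, ← mul_assoc E0 E0, i0, ← mul_assoc, hlow, mul_assoc, hsq, hE1E]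
      have h2 : E0 * (E0 * γ) = E0 * γ := by rw [← mul_assoc, i0]
      have h3 : γ * E0 * E0 = E1 * γ := by rw [mul_assoc, i0, hlow]
      rw [smul_mul_assoc, add_mul, mul_add, mul_add, i0, h1, h2, h3, hpl, hγF, hF, add_mul]
      module
  rw [hsum, nn_add hpl2 hμ ht hplμ hμpl, nn_eq i0 hpl2 ht heqv]

/-- The multiplicities of the eigenspaces of `β`. -/
lemma Side.nn_half {γ μ : R} (hsq : γ * γ = parSum π d d) (hl : parSum π d d * γ = γ)
    (hr : γ * parSum π d d = γ) (hlow : γ * lowSum π d d = highSum π d d * γ)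
    (hhigh : γ * highSum π d d = lowSum π d d * γ) (hmid : γ * π d = (2 : ℚ) • μ - π d)
    (hmid' : π d * γ = (2 : ℚ) • μ - π d) (hμ : μ * μ = μ) {t : R} (ht : t * t = t) :
    ((2⁻¹ : ℚ) • (parSum π d d + γ)) * ((2⁻¹ : ℚ) • (parSum π d d + γ)) =
      (2⁻¹ : ℚ) • (parSum π d d + γ) ∧
      nn t ((2⁻¹ : ℚ) • (parSum π d d + γ)) = nn t (lowSum π d d) + nn t μ :=
  half_abs (parSum_eq π d) (S.low_idem d) (S.high_idem d) (S.idem d) S.low_high.1 S.low_high.2
    (S.low_mid d).1 (S.low_mid d).2 (S.high_mid d).1 (S.high_mid d).2 hsq hl hr hlow hhigh hmid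
    hmid' hμ ht

lemma Side.nn_low (c : ℕ) {t : R} (ht : t * t = t) : nn t (lowSum π d c) =
    ∑ i ∈ (range d).filter (fun i => Even (i + c)), nn t (π i) := by
  rw [lowSum, nn_sum _ (fun i _ => S.idem i) (fun i _ j _ hij => S.orth i j hij) ht]

lemma Side.nn_par (c : ℕ) {t : R} (ht : t * t = t) : nn t (parSum π d c) =
    ∑ i ∈ (range (2 * d + 1)).filter (fun i => Even (i + c)), nn t (π i) := by
  rw [parSum, nn_sum _ (fun i _ => S.idem i) (fun i _ j _ hij => S.orth i j hij) ht]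

lemma Side.nn_dual {t : R} (ht : t * t = t) {i : ℕ} (hi : i ≤ 2 * d) :
    nn t (π i) = nn t (π (2 * d - i)) := nn_eq (S.idem _) (S.idem _) ht (S.dual i hi)

lemma Side.nn_step {t : R} (ht : t * t = t) {i : ℕ} (hi : i + 2 ≤ d) :
    nn t (π (i + 2)) = nn t (ρ (i + 2)) + nn t (ρ i) := by
  have h1 : (π (i + 2) - ρ (i + 2)) * (π (i + 2) - ρ (i + 2)) = π (i + 2) - ρ (i + 2) := by
    rw [mul_sub, sub_mul, sub_mul, S.idem, S.rho_left _ hi, S.rho_right _ hi, S.rho_idem _ hi]
    abel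
  rw [nn_eq (S.rho_idem i (by omega)) h1 ht (S.rho_step i hi), ← nn_add (S.rho_idem _ hi) h1 ht]
  · congr 1; abel
  · rw [mul_sub, S.rho_right _ hi, S.rho_idem _ hi, sub_self]
  · rw [sub_mul, S.rho_left _ hi, S.rho_idem _ hi, sub_self]

lemma Side.mid_left : π d * β = (2 : ℚ) • ρ d - π d := by
  have h1 := S.swap d (by omega) ⟨d, rfl⟩
  rw [show 2 * d - d = d by omega] at h1
  rw [← h1, S.mid]

lemma Side.nn_plus {t : R} (ht : t * t = t) :
    nn t ((2⁻¹ : ℚ) • (parSum π d d + β)) = nn t (lowSum π d d) + nn t (ρ d) :=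
  (S.nn_half S.sq S.left S.right S.swap_low S.swap_high S.mid S.mid_left
    (S.rho_idem d le_rfl) ht).2

lemma Side.nn_minus {t : R} (ht : t * t = t) :
    nn t ((2⁻¹ : ℚ) • (parSum π d d - β)) = nn t (lowSum π d d) + nn t (π d - ρ d) := by
  have h1 : (π d - ρ d) * (π d - ρ d) = π d - ρ d := by
    rw [mul_sub, sub_mul, sub_mul, S.idem, S.rho_left _ le_rfl, S.rho_right _ le_rfl,
      S.rho_idem _ le_rfl]
    abel
  rw [sub_eq_add_neg (parSum π d d)]
  refine (S.nn_half (γ := -β) ?_ ?_ ?_ ?_ ?_ ?_ ?_ h1 ht).2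
  · rw [neg_mul_neg, S.sq]
  · rw [mul_neg, S.left]
  · rw [neg_mul, S.right]
  · rw [neg_mul, mul_neg, S.swap_low]
  · rw [neg_mul, mul_neg, S.swap_high]
  · rw [neg_mul, S.mid]; module
  · rw [mul_neg, S.mid_left]; module

lemma Side.plus_idem : ((2⁻¹ : ℚ) • (parSum π d d + β)) * ((2⁻¹ : ℚ) • (parSum π d d + β)) =
    (2⁻¹ : ℚ) • (parSum π d d + β) := by
  have h0 : (0 : R) * 0 = 0 := by rw [mul_zero]
  exact (S.nn_half S.sq S.left S.right S.swap_low S.swap_high S.mid S.mid_left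
    (S.rho_idem d le_rfl) h0).1

end Pool.Agent.Y111.OR
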