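import Pool.Agent.Y111.OR.Mukai

/-!
# Derived equivalent varieties and their motives: the theorem
-/

open CategoryTheory AlgebraicGeometry Finset

universe u v w

namespace Pool.Agent.Y111.OR

open Pool.Agent.H914 Pool.Agent.H914.VarClass Pool.Agent.H914.VarClass.Obj Pool.Agent.W492.BB
  Pool.Agent.W550.Corr Pool.Agent.TH133

set_option linter.unusedSectionVars false

variable {k : Type u} [Field k] {𝒱 : VarClass k} {C : TheoryData.{u, v, 0} 𝒱 ℚ}
  [hC : IsChowProj C] {H : WeilTheoryData.{u, v, 0} C ℚ} [hH : IsWeilProj H] {X Y Z : 𝒱.Obj}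

/-- The homological motives `h^i(X)` and `h^i(Y)` are isomorphic: there are correspondences of
degree zero between `X` and `Y` inducing mutually inverse isomorphisms between `H^i(X)` and
`H^i(Y)`. -/
def IsoAt (H : WeilTheoryData.{u, v, 0} C ℚ) (X Y : 𝒱.Obj) (i : ℕ) : Prop :=
  ∃ (Γ : C.A (X.prod Y)) (Δ : C.A (Y.prod X)), C.Deg X.dim Γ ∧ C.Deg Y.dim Δ ∧
    (∀ a : H.A X, H.Deg i a → H.act (H.cl Δ) (H.act (H.cl Γ) a) = a) ∧
    (∀ b : H.A Y, H.Deg i b → H.act (H.cl Γ) (H.act (H.cl Δ) b) = b)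

lemma isoAt_zero (X Y : 𝒱.Obj) : IsoAt H X Y 0 := by
  obtain ⟨a, ha, ha1, ha2⟩ := exists_deg_one C X
  obtain ⟨b, hb, hb1, hb2⟩ := exists_deg_one C Y
  have h1 : ∀ (X Y : 𝒱.Obj) (a : C.A X), C.push (snd X Y) (C.pull (fst X Y) a) = 1 →
      ∀ x : H.A X, x ∈ H.gr X 0 → ∃ q : ℚ, x = q • 1 ∧
        H.act (H.cl (C.pull (fst X Y) a)) x = q • 1 := by
    intro X Y a ha x hx
    obtain ⟨q, rfl⟩ := hH.gr_zero X x hx
    refine ⟨q, rfl, ?_⟩
    rw [← opr_apply, map_smul, opr_apply, H.act_apply, map_one, mul_one, ← H.cl_push, ha, map_one]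
  refine ⟨C.pull (fst X Y) a, C.pull (fst Y X) b, C.pull_mem _ ha, C.pull_mem _ hb, ?_, ?_⟩
  · intro x hx
    obtain ⟨q, rfl, hq⟩ := h1 X Y a (ha2 Y) x hx
    rw [hq]
    have h0 : (q • (1 : H.A Y)) ∈ H.gr Y 0 := Submodule.smul_mem _ _ (H.one_mem Y)
    obtain ⟨q', hq1, hq2⟩ := h1 Y X b (hb2 X) _ h0
    rw [hq2]
    have h3 : (q - q') • (1 : H.A Y) = 0 := by rw [sub_smul, ← hq1, sub_self]
    rcases smul_eq_zero.1 h3 with h4 | h4
    · rw [sub_eq_zero.1 h4]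
    · exact absurd h4 (hH.one_ne_zero Y)
  · intro x hx
    obtain ⟨q, rfl, hq⟩ := h1 Y X b (hb2 X) x hx
    rw [hq]
    have h0 : (q • (1 : H.A X)) ∈ H.gr X 0 := Submodule.smul_mem _ _ (H.one_mem X)
    obtain ⟨q', hq1, hq2⟩ := h1 X Y a (ha2 Y) _ h0
    rw [hq2]
    have h3 : (q - q') • (1 : H.A X) = 0 := by rw [sub_smul, ← hq1, sub_self]
    rcases smul_eq_zero.1 h3 with h4 | h4
    · rw [sub_eq_zero.1 h4]
    · exact absurd h4 (hH.one_ne_zero X)

/-- An algebraic operator preserving the degrees is induced by a correspondence of degree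
zero. -/
lemma exists_deg_zero (Γ : C.A (X.prod Y))
    (h : ∀ (j : ℕ), ∀ x ∈ H.gr X (j : ℤ), opr H Γ x ∈ H.gr Y (j : ℤ)) :
    ∃ Γ₀ : C.A (X.prod Y), C.Deg X.dim Γ₀ ∧ ∀ x, opr H Γ₀ x = opr H Γ x := by
  have h1 : Γ ∈ C.gr (X.prod Y) X.dim ⊔ ⨆ i, ⨆ (_ : i ≠ (X.dim : ℤ)), C.gr (X.prod Y) i := by
    have h2 : Γ ∈ ⨆ i, C.gr (X.prod Y) i := by
      rw [(C.isInternal (X.prod Y)).submodule_iSup_eq_top]; trivial
    refine (iSup_le fun i => ?_ : ⨆ i, C.gr (X.prod Y) i ≤ _) h2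
    by_cases hi : i = X.dim
    · subst hi; exact le_sup_left
    · exact (le_iSup₂ (f := fun i (_ : i ≠ (X.dim : ℤ)) => C.gr (X.prod Y) i) i hi).trans
        le_sup_right
  obtain ⟨Γ₀, hΓ₀, Γ₁, hΓ₁, rfl⟩ := Submodule.mem_sup.1 h1
  refine ⟨Γ₀, hΓ₀, fun x => ?_⟩
  have key : ∀ (j : ℕ), ∀ x ∈ H.gr X (j : ℤ), opr H Γ₁ x = 0 := by
    intro j x hx
    have m1 : opr H Γ₁ x ∈ H.gr Y (j : ℤ) := by
      have e : opr H Γ₁ x = opr H (Γ₀ + Γ₁) x - opr H Γ₀ x := by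
        rw [opr_add, LinearMap.add_apply, add_sub_cancel_left]
      rw [e]
      refine Submodule.sub_mem _ (h j x hx) ?_
      have := opr_mem H (e := 0) (by rw [add_zero]; exact hΓ₀) hx
      rwa [mul_zero, add_zero] at this
    have m2 : opr H Γ₁ x ∈ ⨆ i, ⨆ (_ : i ≠ (j : ℤ)), H.gr Y i := by
      rw [iSup_subtype'] at hΓ₁
      refine Submodule.iSup_induction (fun i : {i : ℤ // i ≠ (X.dim : ℤ)} => C.gr (X.prod Y) i)
        (motive := fun Γ₁ => opr H Γ₁ x ∈ ⨆ i, ⨆ (_ : i ≠ (j : ℤ)), H.gr Y i) hΓ₁ ?_ ?_ ?_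
      · intro i Δ hΔ
        have m3 : opr H Δ x ∈ H.gr Y ((j : ℤ) + 2 * ((i : ℤ) - X.dim)) :=
          opr_mem H (e := (i : ℤ) - X.dim) (by rw [add_sub_cancel]; exact hΔ) hx
        refine (le_iSup₂ (f := fun m (_ : m ≠ (j : ℤ)) => H.gr Y m)
          ((j : ℤ) + 2 * ((i : ℤ) - X.dim)) ?_) m3
        have := i.2
        omega
      · rw [opr_zero, LinearMap.zero_apply]; exact Submodule.zero_mem _
      · intro Δ Δ' hΔ hΔ'
        rw [opr_add, LinearMap.add_apply]; exact Submodule.add_mem _ hΔ hΔ'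
    have h3 := (H.isInternal Y).submodule_iSupIndep (j : ℤ)
    rw [Submodule.disjoint_def] at h3
    exact h3 _ m1 m2
  have hall : opr H Γ₁ x = 0 := by
    have h2 : x ∈ ⨆ i, H.gr X i := by
      rw [(H.isInternal X).submodule_iSup_eq_top]; trivial
    refine Submodule.iSup_induction (H.gr X) (motive := fun x => opr H Γ₁ x = 0) h2 ?_ ?_ ?_
    · intro i y hy
      rcases lt_or_ge i 0 with h0 | h0
      · rw [H.gr_neg X i h0, Submodule.mem_bot] at hy
        rw [hy, map_zero]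
      · obtain ⟨n, rfl⟩ := Int.eq_ofNat_of_zero_le h0
        exact key n y hy
    · rw [map_zero]
    · intro y z hy hz
      rw [map_add, hy, hz, add_zero]
  rw [opr_add, LinearMap.add_apply, hall, add_zero]

/-- The embedding of the algebra of operators on `H(X)`. -/
def e1 (H : WeilTheoryData.{u, v, 0} C ℚ) [IsWeilProj H] (X Y : 𝒱.Obj) :
    algX H X →ₗ[ℚ] algXY H X Y where
  toFun f := ⟨blk (f : Module.End ℚ (H.A X)) 0 0 0, mem_algXY f.2 IsAlg.zero IsAlg.zero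
    IsAlg.zero⟩
  map_add' f g := by
    refine Subtype.ext ?_
    change blk _ _ _ _ = blk _ _ _ _ + blk _ _ _ _
    rw [blk_add]; simp
  map_smul' q f := by
    refine Subtype.ext ?_
    change blk _ _ _ _ = q • blk _ _ _ _
    rw [blk_smul]; simp

/-- The embedding of the algebra of operators on `H(Y)`. -/
def e2 (H : WeilTheoryData.{u, v, 0} C ℚ) [IsWeilProj H] (X Y : 𝒱.Obj) :
    algX H Y →ₗ[ℚ] algXY H X Y where
  toFun f := ⟨blk 0 0 0 (f : Module.End ℚ (H.A Y)), mem_algXY IsAlg.zero IsAlg.zero IsAlg.zero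
    f.2⟩
  map_add' f g := by
    refine Subtype.ext ?_
    change blk _ _ _ _ = blk _ _ _ _ + blk _ _ _ _
    rw [blk_add]; simp
  map_smul' q f := by
    refine Subtype.ext ?_
    change blk _ _ _ _ = q • blk _ _ _ _
    rw [blk_smul]; simp

lemma e1_mul (f g : algX H X) : e1 H X Y (f * g) = e1 H X Y f * e1 H X Y g := by
  refine Subtype.ext ?_
  change blk _ _ _ _ = blk _ _ _ _ * blk _ _ _ _
  rw [blk_mul]; simp; rfl

lemma e2_mul (f g : algX H Y) : e2 H X Y (f * g) = e2 H X Y f * e2 H X Y g := by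
  refine Subtype.ext ?_
  change blk _ _ _ _ = blk _ _ _ _ * blk _ _ _ _
  rw [blk_mul]; simp; rfl

lemma coe_e1 (f : algX H X) : ((e1 H X Y f : algXY H X Y) : Module.End ℚ (H.A X × H.A Y)) =
    blk (f : Module.End ℚ (H.A X)) 0 0 0 := rfl

lemma coe_e2 (f : algX H Y) : ((e2 H X Y f : algXY H X Y) : Module.End ℚ (H.A X × H.A Y)) =
    blk 0 0 0 (f : Module.End ℚ (H.A Y)) := rfl

section blk

variable {V W : Type*} [AddCommGroup V] [Module ℚ V] [AddCommGroup W] [Module ℚ W]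

lemma sum_blk1 (s : Finset ℕ) (f : ℕ → Module.End ℚ V) :
    ∑ i ∈ s, (blk (f i) 0 0 0 : Module.End ℚ (V × W)) = blk (∑ i ∈ s, f i) 0 0 0 := by
  classical
  induction s using Finset.induction_on with
  | empty => simp only [sum_empty]; refine LinearMap.ext fun x => ?_; rw [blk_apply]; simp; rfl
  | insert a s ha ih => rw [sum_insert ha, sum_insert ha, ih, blk_add]; simp

lemma sum_blk2 (s : Finset ℕ) (f : ℕ → Module.End ℚ W) :
    ∑ i ∈ s, (blk 0 0 0 (f i) : Module.End ℚ (V × W)) = blk 0 0 0 (∑ i ∈ s, f i) := by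
  classical
  induction s using Finset.induction_on with
  | empty => simp only [sum_empty]; refine LinearMap.ext fun x => ?_; rw [blk_apply]; simp; rfl
  | insert a s ha ih => rw [sum_insert ha, sum_insert ha, ih, blk_add]; simp

end blk

section main

variable {hX : C.A X} {σX : C.A (X.prod X)} {πX : ℕ → C.A (X.prod X)} {hY : C.A Y}
  {σY : C.A (Y.prod Y)} {πY : ℕ → C.A (Y.prod Y)}
  {BX : H.A X →ₗ[ℚ] H.A X →ₗ[ℚ] ℝ} {BY : H.A Y →ₗ[ℚ] H.A Y →ₗ[ℚ] ℝ}

lemma coe_par (d c : ℕ) : ((parSum (fun i => (⟨pj H πX i, pj_mem i⟩ : algX H X)) d c :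
    algX H X) : Module.End ℚ (H.A X)) = parSum (pj H πX) d c := by
  rw [parSum, parSum, AddSubmonoidClass.coe_finset_sum]

theorem isoAt_of_low [FiniteDimensional ℚ (H.A X)] [FiniteDimensional ℚ (H.A Y)]
    (LX : LefschetzB H X hX σX πX) (LY : LefschetzB H Y hY σY πY) (hd : Y.dim = X.dim)
    (hXX : AdjF H σX σX BX BX) (hXY : AdjF H σX σY BX BY) (hYX : AdjF H σY σX BY BX)
    (hYY : AdjF H σY σY BY BY) (pX : ∀ a : H.A X, a ≠ 0 → 0 < BX a a)
    (pY : ∀ a : H.A Y, a ≠ 0 → 0 < BY a a) {v : ℕ → C.A (X.prod Y)} (hv : IsMukai C X Y v)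
    (e : ℕ) (hlow : ∀ i : ℕ, 1 ≤ i → i + 3 ≤ X.dim → Even (i + e) → IsoAt H X Y i) :
    ∀ i : ℕ, i ≤ 2 * X.dim → Even (i + e) → IsoAt H X Y i := by
  obtain ⟨τ, hτ, hrel⟩ := exists_inv' LX LY hXX hXY hYX hYY pX pY
  have LY' := LY.isLef'
  have LYs := LY.isStar'
  rw [hd] at LY' LYs
  -- self-adjoint operators
  have hself : ∀ Φ : algXY H X Y, (∀ x y, BW BX BY ((Φ : Module.End ℚ _) x) y =
      BW BX BY x ((Φ : Module.End ℚ _) y)) → τ Φ = Φ := fun Φ h =>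
    Subtype.ext (Rel.unique pX pY (hrel Φ) ⟨h, h⟩)
  have SX : Side τ X.dim _ _ _ := (sideV (algX H X) LX.isLef' LX.isStar' LX.isPi lo_mem so_mem
    pj_mem).map (τ' := τ) (e1 H X Y) e1_mul
    (fun i => hself _ fun x y => by
      change BX (pj H πX i x.1 + (0 : H.A Y →ₗ[ℚ] H.A X) x.2) y.1 +
        BY ((0 : H.A X →ₗ[ℚ] H.A Y) x.1 + (0 : H.A Y →ₗ[ℚ] H.A Y) x.2) y.2 =
        BX x.1 (pj H πX i y.1 + (0 : H.A Y →ₗ[ℚ] H.A X) y.2) +
        BY x.2 ((0 : H.A X →ₗ[ℚ] H.A Y) y.1 + (0 : H.A Y →ₗ[ℚ] H.A Y) y.2)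
      simp [adj_pj LX hXX])
    (hself _ fun x y => by
      change BX (bet X.dim (so H σX) (pj H πX) x.1 + (0 : H.A Y →ₗ[ℚ] H.A X) x.2) y.1 +
        BY ((0 : H.A X →ₗ[ℚ] H.A Y) x.1 + (0 : H.A Y →ₗ[ℚ] H.A Y) x.2) y.2 =
        BX x.1 (bet X.dim (so H σX) (pj H πX) y.1 + (0 : H.A Y →ₗ[ℚ] H.A X) y.2) +
        BY x.2 ((0 : H.A X →ₗ[ℚ] H.A Y) y.1 + (0 : H.A Y →ₗ[ℚ] H.A Y) y.2)
      simp [adj_bet LX hXX])
  have hbY : ∀ a b : H.A Y, BY (bet X.dim (so H σY) (pj H πY) a) b =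
      BY a (bet X.dim (so H σY) (pj H πY) b) := by
    have := adj_bet LY hYY
    rw [hd] at this
    exact this
  have SY : Side τ X.dim _ _ _ := (sideV (algX H Y) LY' LYs LY.isPi lo_mem so_mem
    pj_mem).map (τ' := τ) (e2 H X Y) e2_mul
    (fun i => hself _ fun x y => by
      change BX ((0 : H.A X →ₗ[ℚ] H.A X) x.1 + (0 : H.A Y →ₗ[ℚ] H.A X) x.2) y.1 +
        BY ((0 : H.A X →ₗ[ℚ] H.A Y) x.1 + pj H πY i x.2) y.2 =
        BX x.1 ((0 : H.A X →ₗ[ℚ] H.A X) y.1 + (0 : H.A Y →ₗ[ℚ] H.A X) y.2) +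
        BY x.2 ((0 : H.A X →ₗ[ℚ] H.A Y) y.1 + pj H πY i y.2)
      simp [adj_pj LY hYY])
    (hself _ fun x y => by
      change BX ((0 : H.A X →ₗ[ℚ] H.A X) x.1 + (0 : H.A Y →ₗ[ℚ] H.A X) x.2) y.1 +
        BY ((0 : H.A X →ₗ[ℚ] H.A Y) x.1 + bet X.dim (so H σY) (pj H πY) x.2) y.2 =
        BX x.1 ((0 : H.A X →ₗ[ℚ] H.A X) y.1 + (0 : H.A Y →ₗ[ℚ] H.A X) y.2) +
        BY x.2 ((0 : H.A X →ₗ[ℚ] H.A Y) y.1 + bet X.dim (so H σY) (pj H πY) y.2)
      simp [hbY])
  -- the isometry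
  have falg : IsAlg H (fo H v) := ⟨_, rfl⟩
  have galg : IsAlg H (go H v) := ⟨_, rfl⟩
  have pXalg : ∀ c, IsAlg H (parSum (pj H πX) X.dim c) := fun c => by
    rw [← coe_par]; exact (parSum _ X.dim c : algX H X).2
  have pYalg : ∀ c, IsAlg H (parSum (pj H πY) X.dim c) := fun c => by
    rw [← coe_par]; exact (parSum _ X.dim c : algX H Y).2
  let U : ℕ → algXY H X Y := fun c => ⟨blk 0 0 (fo H v ∘ₗ parSum (pj H πX) X.dim c) 0,
    mem_algXY IsAlg.zero IsAlg.zero (falg.comp (pXalg c)) IsAlg.zero⟩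
  let V : ℕ → algXY H X Y := fun c => ⟨blk 0 (go H v ∘ₗ parSum (pj H πY) X.dim c) 0 0,
    mem_algXY IsAlg.zero (galg.comp (pYalg c)) IsAlg.zero IsAlg.zero⟩
  have eX : ∀ c, ((parSum (fun i => e1 H X Y ⟨pj H πX i, pj_mem i⟩) X.dim c : algXY H X Y) :
      Module.End ℚ (H.A X × H.A Y)) = blk (parSum (pj H πX) X.dim c) 0 0 0 := by
    intro c
    rw [parSum, AddSubmonoidClass.coe_finset_sum, parSum, ← sum_blk1]
    rfl
  have eY : ∀ c, ((parSum (fun i => e2 H X Y ⟨pj H πY i, pj_mem i⟩) X.dim c : algXY H X Y) :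
      Module.End ℚ (H.A X × H.A Y)) = blk 0 0 0 (parSum (pj H πY) X.dim c) := by
    intro c
    rw [parSum, AddSubmonoidClass.coe_finset_sum, parSum, ← sum_blk2]
    rfl
  have hEX : ∀ (c : ℕ) (x : H.A X), parSum (pj H πX) X.dim c (parSum (pj H πX) X.dim c x) =
      parSum (pj H πX) X.dim c x := by
    intro c x
    have h3 : parSum (pj H πX) X.dim c * parSum (pj H πX) X.dim c =
        parSum (pj H πX) X.dim c := by
      rw [parSum, sum_mul_sum_idem (pi_idem LX.isLef' LX.isPi)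
        (pi_orth LX.isLef' LX.isPi), inter_self]
    exact congrArg (fun f => f x) h3
  have hEY : ∀ (c : ℕ) (x : H.A Y), parSum (pj H πY) X.dim c (parSum (pj H πY) X.dim c x) =
      parSum (pj H πY) X.dim c x := by
    intro c x
    have h3 : parSum (pj H πY) X.dim c * parSum (pj H πY) X.dim c =
        parSum (pj H πY) X.dim c := by
      rw [parSum, sum_mul_sum_idem (pi_idem LY' LY.isPi)
        (pi_orth LY' LY.isPi), inter_self]
    exact congrArg (fun f => f x) h3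
  have hpar := fo_par LX LY hd hv
  have gpar := go_par LX LY hd hv
  have ext2 : ∀ {Φ Ψ : algXY H X Y}, (∀ x, (Φ : Module.End ℚ (H.A X × H.A Y)) x =
      (Ψ : Module.End ℚ (H.A X × H.A Y)) x) → Φ = Ψ := fun h => Subtype.ext (LinearMap.ext h)
  have hU1 : ∀ c, parSum (fun i => e2 H X Y ⟨pj H πY i, pj_mem i⟩) X.dim c * U c = U c := by
    intro c
    refine ext2 fun x => ?_
    rw [MulMemClass.coe_mul, eY]
    simp only [U, Module.End.mul_apply, blk_apply, LinearMap.comp_apply, LinearMap.zero_apply,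
      zero_add, add_zero, map_zero]
    rw [← hpar, hEX]
  have hU2 : ∀ c, U c * parSum (fun i => e1 H X Y ⟨pj H πX i, pj_mem i⟩) X.dim c = U c := by
    intro c
    refine ext2 fun x => ?_
    rw [MulMemClass.coe_mul, eX]
    simp only [U, Module.End.mul_apply, blk_apply, LinearMap.comp_apply, LinearMap.zero_apply,
      zero_add, add_zero, map_zero, hEX]
  have hV1 : ∀ c, parSum (fun i => e1 H X Y ⟨pj H πX i, pj_mem i⟩) X.dim c * V c = V c := by
    intro c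
    refine ext2 fun x => ?_
    rw [MulMemClass.coe_mul, eX]
    simp only [V, Module.End.mul_apply, blk_apply, LinearMap.comp_apply, LinearMap.zero_apply,
      zero_add, add_zero, map_zero]
    rw [← gpar, hEY]
  have hV2 : ∀ c, V c * parSum (fun i => e2 H X Y ⟨pj H πY i, pj_mem i⟩) X.dim c = V c := by
    intro c
    refine ext2 fun x => ?_
    rw [MulMemClass.coe_mul, eY]
    simp only [V, Module.End.mul_apply, blk_apply, LinearMap.comp_apply, LinearMap.zero_apply,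
      zero_add, add_zero, map_zero, hEY]
  have hVU : ∀ c, V c * U c = parSum (fun i => e1 H X Y ⟨pj H πX i, pj_mem i⟩) X.dim c := by
    intro c
    refine ext2 fun x => ?_
    rw [MulMemClass.coe_mul, eX]
    simp only [U, V, Module.End.mul_apply, blk_apply, LinearMap.comp_apply, LinearMap.zero_apply,
      zero_add, add_zero, map_zero]
    rw [gpar, go_fo hv, hEX]
  have hUV : ∀ c, U c * V c = parSum (fun i => e2 H X Y ⟨pj H πY i, pj_mem i⟩) X.dim c := by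
    intro c
    refine ext2 fun x => ?_
    rw [MulMemClass.coe_mul, eY]
    simp only [U, V, Module.End.mul_apply, blk_apply, LinearMap.comp_apply, LinearMap.zero_apply,
      zero_add, add_zero, map_zero]
    rw [hpar, fo_go hv, hEY]
  have hiso : τ (U X.dim) * e2 H X Y ⟨bet X.dim (so H σY) (pj H πY),
      bet_alg (algX H Y) so_mem pj_mem⟩ * U X.dim = e1 H X Y ⟨bet X.dim (so H σX) (pj H πX),
      bet_alg (algX H X) so_mem pj_mem⟩ := by
    refine ext2 fun y => ?_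
    by_contra h0
    have h1 := BW_pos pX pY _ (sub_ne_zero.2 h0)
    rw [BW_sub_right] at h1
    refine absurd h1 (not_lt.2 (le_of_eq ?_))
    rw [sub_eq_zero, MulMemClass.coe_mul, MulMemClass.coe_mul, Module.End.mul_apply,
      Module.End.mul_apply, ← (hrel (U X.dim)).1]
    generalize (τ (U X.dim) : Module.End ℚ (H.A X × H.A Y)) _ - _ = x
    simp only [U, coe_e1, coe_e2, blk_apply, BW, LinearMap.comp_apply, LinearMap.zero_apply,
      add_zero, zero_add, map_zero]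
    exact fo_isometry LX LY hd hv hXX hXY x.1 y.1
  have hlow' : ∀ i, i + 3 ≤ X.dim → Even (i + e) → Eqv (e1 H X Y ⟨pj H πX i, pj_mem i⟩)
      (e2 H X Y ⟨pj H πY i, pj_mem i⟩) := by
    intro i hi hie
    have hi2 : i ≤ 2 * X.dim := by omega
    obtain ⟨Γ, Δ, hΓ, hΔ, h1, h2⟩ : IsoAt H X Y i := by
      rcases Nat.eq_zero_or_pos i with h0 | h0
      · rw [h0]; exact isoAt_zero X Y
      · exact hlow i h0 hi hie
    have mΓ : ∀ a ∈ H.gr X (i : ℤ), opr H Γ a ∈ H.gr Y (i : ℤ) := by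
      intro a ha
      have := opr_mem H (e := 0) (by rw [add_zero]; exact hΓ) ha
      rwa [mul_zero, add_zero] at this
    have mΔ : ∀ b ∈ H.gr Y (i : ℤ), opr H Δ b ∈ H.gr X (i : ℤ) := by
      intro a ha
      have := opr_mem H (e := 0) (by rw [add_zero]; exact hΔ) ha
      rwa [mul_zero, add_zero] at this
    have pmX := pi_mem' LX.isLef' LX.isPi i
    have pmY := pi_mem' LY.isLef' LY.isPi i
    have aΓ : IsAlg H (opr H Γ ∘ₗ pj H πX i) := IsAlg.comp ⟨Γ, rfl⟩ ⟨πX i, rfl⟩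
    have aΔ : IsAlg H (opr H Δ ∘ₗ pj H πY i) := IsAlg.comp ⟨Δ, rfl⟩ ⟨πY i, rfl⟩
    refine ⟨⟨blk 0 0 (opr H Γ ∘ₗ pj H πX i) 0, mem_algXY IsAlg.zero IsAlg.zero aΓ IsAlg.zero⟩,
      ⟨blk 0 (opr H Δ ∘ₗ pj H πY i) 0 0, mem_algXY IsAlg.zero aΔ IsAlg.zero IsAlg.zero⟩,
      ?_, ?_, ?_, ?_, ?_, ?_⟩
    · refine ext2 fun x => ?_
      simp only [MulMemClass.coe_mul, Module.End.mul_apply, coe_e1, coe_e2, blk_apply,
        LinearMap.comp_apply, LinearMap.zero_apply, add_zero, zero_add, map_zero]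
      rw [LY.isPi.self _ _ (mΓ _ (pmX _))]
    · refine ext2 fun x => ?_
      simp only [MulMemClass.coe_mul, Module.End.mul_apply, coe_e1, coe_e2, blk_apply,
        LinearMap.comp_apply, LinearMap.zero_apply, add_zero, zero_add, map_zero]
      rw [LX.isPi.self _ _ (pmX _)]
    · refine ext2 fun x => ?_
      simp only [MulMemClass.coe_mul, Module.End.mul_apply, coe_e1, coe_e2, blk_apply,
        LinearMap.comp_apply, LinearMap.zero_apply, add_zero, zero_add, map_zero]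
      rw [LX.isPi.self _ _ (mΔ _ (pmY _))]
    · refine ext2 fun x => ?_
      simp only [MulMemClass.coe_mul, Module.End.mul_apply, coe_e1, coe_e2, blk_apply,
        LinearMap.comp_apply, LinearMap.zero_apply, add_zero, zero_add, map_zero]
      rw [LY.isPi.self _ _ (pmY _)]
    · refine ext2 fun x => ?_
      simp only [MulMemClass.coe_mul, Module.End.mul_apply, coe_e1, coe_e2, blk_apply,
        LinearMap.comp_apply, LinearMap.zero_apply, add_zero, zero_add, map_zero]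
      rw [LY.isPi.self _ _ (mΓ _ (pmX _))]
      exact Prod.ext (h1 _ (pmX _)) rfl
    · refine ext2 fun x => ?_
      simp only [MulMemClass.coe_mul, Module.End.mul_apply, coe_e1, coe_e2, blk_apply,
        LinearMap.comp_apply, LinearMap.zero_apply, add_zero, zero_add, map_zero]
      rw [LX.isPi.self _ _ (mΔ _ (pmY _))]
      exact Prod.ext rfl (h2 _ (pmY _))
  -- the comparison theorem
  have hcmp := compare hτ SX SY (U := U X.dim) (V := V X.dim) (hU1 _) (hU2 _) (hV1 _) (hV2 _)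
    (hVU _) (hUV _) hiso
    ⟨U (X.dim + 1), V (X.dim + 1), hU1 _, hU2 _, hV1 _, hV2 _, hVU _, hUV _⟩ e hlow'
  -- extraction of the blocks
  intro i hi hie
  obtain ⟨c, b, hc1, hb1, hc2, hb2, hbc, hcb, hc3, hb3⟩ :
      ∃ (c : H.A X →ₗ[ℚ] H.A Y) (b : H.A Y →ₗ[ℚ] H.A X),
      IsAlg H c ∧ IsAlg H b ∧ (∀ x, pj H πY i (c x) = c x) ∧ (∀ y, pj H πX i (b y) = b y) ∧
      (∀ x, b (c x) = pj H πX i x) ∧ (∀ y, c (b y) = pj H πY i y) ∧
      (∀ x, c (pj H πX i x) = c x) ∧ (∀ y, b (pj H πY i y) = b y) := by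
    obtain ⟨P, Q, h1, h2, h3, h4, h5, h6⟩ := hcmp i hi hie
    obtain ⟨a11, a12, a21, a22, _, _, ha21, _, hP⟩ := P.2
    obtain ⟨b11, b12, b21, b22, _, hb12, _, _, hQ⟩ := Q.2
    have k1 := congrArg (fun Φ : algXY H X Y => (Φ : Module.End ℚ (H.A X × H.A Y))) h1
    have k2 := congrArg (fun Φ : algXY H X Y => (Φ : Module.End ℚ (H.A X × H.A Y))) h2
    have k3 := congrArg (fun Φ : algXY H X Y => (Φ : Module.End ℚ (H.A X × H.A Y))) h3
    have k4 := congrArg (fun Φ : algXY H X Y => (Φ : Module.End ℚ (H.A X × H.A Y))) h4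
    have k5 := congrArg (fun Φ : algXY H X Y => (Φ : Module.End ℚ (H.A X × H.A Y))) h5
    have k6 := congrArg (fun Φ : algXY H X Y => (Φ : Module.End ℚ (H.A X × H.A Y))) h6
    simp only [MulMemClass.coe_mul, coe_e1, coe_e2] at k1 k2 k3 k4 k5 k6
    rw [hP, blk_mul] at k1 k2
    rw [hQ, blk_mul] at k3 k4
    rw [hP, hQ, blk_mul] at k5 k6
    obtain ⟨m1, m2, m3, m4⟩ := blk_inj k1
    obtain ⟨n1, n2, n3, n4⟩ := blk_inj k2
    obtain ⟨o1, o2, o3, o4⟩ := blk_inj k3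
    obtain ⟨p1, p2, p3, p4⟩ := blk_inj k4
    obtain ⟨q1, q2, q3, q4⟩ := blk_inj k5
    obtain ⟨r1, r2, r3, r4⟩ := blk_inj k6
    simp only [LinearMap.zero_comp, LinearMap.comp_zero, zero_add, add_zero] at m1 m3
    simp only [LinearMap.zero_comp, LinearMap.comp_zero, zero_add, add_zero] at n3 n4
    simp only [LinearMap.zero_comp, LinearMap.comp_zero, zero_add, add_zero] at o2 p2
    refine ⟨a21, b12, ha21, hb12, fun x => congrArg (fun f => f x) m3,
      fun x => congrArg (fun f => f x) o2, fun x => ?_, fun x => ?_,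
      fun x => congrArg (fun f => f x) n3, fun x => congrArg (fun f => f x) p2⟩
    · have := congrArg (fun f => f x) q1
      simp only [← m1, LinearMap.comp_zero, zero_add] at this
      exact this
    · have := congrArg (fun f => f x) r4
      simp only [← n4, LinearMap.zero_comp, add_zero] at this
      exact this
  have mc : ∀ x, c x ∈ H.gr Y (i : ℤ) := by
    intro x
    rw [← hc2]
    exact pi_mem' LY' LY.isPi i _
  have mb : ∀ x, b x ∈ H.gr X (i : ℤ) := by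
    intro x
    rw [← hb2]
    exact pi_mem' LX.isLef' LX.isPi i _
  obtain ⟨Γ, hΓ⟩ := hc1
  obtain ⟨Δ, hΔ⟩ := hb1
  obtain ⟨Γ₀, hΓ₀, eΓ⟩ := exists_deg_zero (H := H) Γ (by
    intro j x hx
    rw [← hΓ]
    by_cases hj : j = i
    · subst hj; exact mc x
    · rw [← hc3, LX.isPi.ne i j (by exact_mod_cast hj) x hx, map_zero]
      exact Submodule.zero_mem _)
  obtain ⟨Δ₀, hΔ₀, eΔ⟩ := exists_deg_zero (H := H) Δ (by
    intro j x hx
    rw [← hΔ]
    by_cases hj : j = i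
    · subst hj; exact mb x
    · rw [← hb3, LY.isPi.ne i j (by exact_mod_cast hj) x hx, map_zero]
      exact Submodule.zero_mem _)
  refine ⟨Γ₀, Δ₀, hΓ₀, hΔ₀, fun x hx => ?_, fun y hy => ?_⟩
  · have e1 : H.act (H.cl Γ₀) x = c x := by rw [hΓ]; exact eΓ x
    have e2 : H.act (H.cl Δ₀) (c x) = b (c x) := by rw [hΔ]; exact eΔ _
    rw [e1, e2, hbc, LX.isPi.self i x hx]
  · have e1 : H.act (H.cl Δ₀) y = b y := by rw [hΔ]; exact eΔ y
    have e2 : H.act (H.cl Γ₀) (b y) = c (b y) := by rw [hΓ]; exact eΓ _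
    rw [e1, e2, hcb, LY.isPi.self i y hy]

/-- Isomorphisms in all degrees can be assembled. -/
theorem hom_iso_of_isoAt (LX : LefschetzB H X hX σX πX) (LY : LefschetzB H Y hY σY πY)
    (hd : Y.dim = X.dim) (h : ∀ i : ℕ, i ≤ 2 * X.dim → IsoAt H X Y i) :
    ∃ (Γ : C.A (X.prod Y)) (Δ : C.A (Y.prod X)), C.Deg X.dim Γ ∧ C.Deg X.dim Δ ∧
      (∀ a : H.A X, opr H Δ (opr H Γ a) = a) ∧ (∀ b : H.A Y, opr H Γ (opr H Δ b) = b) := by
  have LY' := LY.isLef'
  rw [hd] at LY'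
  have hblocks : ∀ i : ℕ, i ≤ 2 * X.dim → ∃ (c : H.A X →ₗ[ℚ] H.A Y) (b : H.A Y →ₗ[ℚ] H.A X),
      IsAlg H c ∧ IsAlg H b ∧ (∀ x, pj H πY i (c x) = c x) ∧ (∀ y, pj H πX i (b y) = b y) ∧
      (∀ x, b (c x) = pj H πX i x) ∧ (∀ y, c (b y) = pj H πY i y) ∧
      (∀ x, c (pj H πX i x) = c x) ∧ (∀ y, b (pj H πY i y) = b y) := by
    intro i hi
    obtain ⟨Γ, Δ, hΓ, hΔ, h1, h2⟩ := h i hi
    have mΓ : ∀ a ∈ H.gr X (i : ℤ), opr H Γ a ∈ H.gr Y (i : ℤ) := by
      intro a ha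
      have := opr_mem H (e := 0) (by rw [add_zero]; exact hΓ) ha
      rwa [mul_zero, add_zero] at this
    have mΔ : ∀ b ∈ H.gr Y (i : ℤ), opr H Δ b ∈ H.gr X (i : ℤ) := by
      intro a ha
      have := opr_mem H (e := 0) (by rw [add_zero]; exact hΔ) ha
      rwa [mul_zero, add_zero] at this
    have pmX := pi_mem' LX.isLef' LX.isPi i
    have pmY := pi_mem' LY' LY.isPi i
    refine ⟨opr H Γ ∘ₗ pj H πX i, opr H Δ ∘ₗ pj H πY i, IsAlg.comp ⟨Γ, rfl⟩ ⟨πX i, rfl⟩,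
      IsAlg.comp ⟨Δ, rfl⟩ ⟨πY i, rfl⟩, fun x => ?_, fun y => ?_, fun x => ?_, fun y => ?_,
      fun x => ?_, fun y => ?_⟩
    · exact LY.isPi.self _ _ (mΓ _ (pmX _))
    · exact LX.isPi.self _ _ (mΔ _ (pmY _))
    · simp only [LinearMap.comp_apply]
      rw [LY.isPi.self _ _ (mΓ _ (pmX _))]
      exact h1 _ (pmX _)
    · simp only [LinearMap.comp_apply]
      rw [LX.isPi.self _ _ (mΔ _ (pmY _))]
      exact h2 _ (pmY _)
    · simp only [LinearMap.comp_apply]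
      rw [LX.isPi.self _ _ (pmX _)]
    · simp only [LinearMap.comp_apply]
      rw [LY.isPi.self _ _ (pmY _)]
  choose! c b hc1 hb1 hc2 hb2 hbc hcb hc3 hb3 using hblocks
  have hzc : ∀ i ≤ 2 * X.dim, ∀ j : ℕ, j ≠ i → ∀ x ∈ H.gr X (j : ℤ), c i x = 0 := by
    intro i hi j hj x hx
    rw [← hc3 i hi, LX.isPi.ne i j (by exact_mod_cast hj) x hx, map_zero]
  have hzb : ∀ i ≤ 2 * X.dim, ∀ j : ℕ, j ≠ i → ∀ x ∈ H.gr Y (j : ℤ), b i x = 0 := by
    intro i hi j hj x hx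
    rw [← hb3 i hi, LY.isPi.ne i j (by exact_mod_cast hj) x hx, map_zero]
  have halg : ∀ {X Y : 𝒱.Obj} (s : Finset ℕ) (f : ℕ → (H.A X →ₗ[ℚ] H.A Y)),
      (∀ i ∈ s, IsAlg H (f i)) → IsAlg H (∑ i ∈ s, f i) := by
    intro X Y s f hf
    classical
    induction s using Finset.induction_on with
    | empty => rw [sum_empty]; exact IsAlg.zero
    | insert a s ha ih =>
      rw [sum_insert ha]
      exact (hf a (mem_insert_self a s)).add (ih fun i hi => hf i (mem_insert_of_mem hi))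
  obtain ⟨Γ, hΓ⟩ := halg (range (2 * X.dim + 1)) c
    (fun i hi => hc1 i (by rw [mem_range] at hi; omega))
  obtain ⟨Δ, hΔ⟩ := halg (range (2 * X.dim + 1)) b
    (fun i hi => hb1 i (by rw [mem_range] at hi; omega))
  have sc : ∀ j ≤ 2 * X.dim, ∀ x ∈ H.gr X (j : ℤ), opr H Γ x = c j x := by
    intro j hj x hx
    rw [← hΓ, LinearMap.sum_apply, sum_eq_single j]
    · exact fun i hi hij => hzc i (by rw [mem_range] at hi; omega) j hij.symm x hx
    · intro h; exact absurd (mem_range.2 (by omega)) h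
  have sb : ∀ j ≤ 2 * X.dim, ∀ x ∈ H.gr Y (j : ℤ), opr H Δ x = b j x := by
    intro j hj x hx
    rw [← hΔ, LinearMap.sum_apply, sum_eq_single j]
    · exact fun i hi hij => hzb i (by rw [mem_range] at hi; omega) j hij.symm x hx
    · intro h; exact absurd (mem_range.2 (by omega)) h
  have mc : ∀ j ≤ 2 * X.dim, ∀ x, c j x ∈ H.gr Y (j : ℤ) := by
    intro j hj x
    rw [← hc2 j hj]
    exact pi_mem' LY' LY.isPi j _
  have mb : ∀ j ≤ 2 * X.dim, ∀ x, b j x ∈ H.gr X (j : ℤ) := by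
    intro j hj x
    rw [← hb2 j hj]
    exact pi_mem' LX.isLef' LX.isPi j _
  obtain ⟨Γ₀, hΓ₀, eΓ⟩ := exists_deg_zero (H := H) Γ (by
    intro j x hx
    rcases le_or_gt j (2 * X.dim) with h1 | h1
    · rw [sc j h1 x hx]; exact mc j h1 x
    · rw [gr_high H _ (by exact_mod_cast h1), Submodule.mem_bot] at hx
      rw [hx, map_zero]; exact Submodule.zero_mem _)
  obtain ⟨Δ₀, hΔ₀, eΔ⟩ := exists_deg_zero (H := H) Δ (by
    intro j x hx
    rcases le_or_gt j (2 * X.dim) with h1 | h1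
    · rw [sb j h1 x hx]; exact mb j h1 x
    · rw [gr_high H _ (by rw [hd]; exact_mod_cast h1), Submodule.mem_bot] at hx
      rw [hx, map_zero]; exact Submodule.zero_mem _)
  refine ⟨Γ₀, Δ₀, hΓ₀, by rw [← hd]; exact hΔ₀, ?_, ?_⟩
  · have h1 : opr H Δ₀ ∘ₗ opr H Γ₀ = LinearMap.id := by
      refine ext_nat LX.isLef' fun j hj x hx => ?_
      rw [LinearMap.comp_apply, eΓ, eΔ, sc j hj x hx, sb j hj _ (mc j hj x), hbc j hj,
        LX.isPi.self j x hx, LinearMap.id_apply]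
    exact fun a => congrArg (fun f => f a) h1
  · have h1 : opr H Γ₀ ∘ₗ opr H Δ₀ = LinearMap.id := by
      refine ext_nat LY' fun j hj x hx => ?_
      rw [LinearMap.comp_apply, eΓ, eΔ, sb j hj x hx, sc j hj _ (mb j hj x), hcb j hj,
        LY.isPi.self j x hx, LinearMap.id_apply]
    exact fun a => congrArg (fun f => f a) h1

end main

end Pool.Agent.Y111.OR
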